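import Mathlib
import Pool.Agent.H49.G.R_seed8.TH891.SG.Gal1

set_option autoImplicit false

/-! The average of products over the prime divisors of a linear form. -/

namespace Pool.Agent.E8helper16.SL
open Finset

lemma root_card (l : ℕ) (hl : l.Prime) (α β : ℤ) (hα : ¬ (l : ℤ) ∣ α) :
    ((range l).filter (fun r : ℕ => (l : ℤ) ∣ α * ((r : ℤ) + 1) + β)).card ≤ 1 := by
  rw [card_le_one]
  intro a ha b hb
  rw [mem_filter, mem_range] at ha hb
  have h1 : (l : ℤ) ∣ α * ((a : ℤ) - b) := by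
    have := dvd_sub ha.2 hb.2
    have e : α * ((a : ℤ) + 1) + β - (α * ((b : ℤ) + 1) + β) = α * ((a : ℤ) - b) := by ring
    rwa [e] at this
  have h2 : (l : ℤ) ∣ (a : ℤ) - b := by
    rcases (Nat.prime_iff_prime_int.1 hl).dvd_or_dvd h1 with h | h
    · exact absurd h hα
    · exact h
  obtain ⟨c, hc⟩ := h2
  have ha1 : (a : ℤ) < l := by exact_mod_cast ha.1
  have hb1 : (b : ℤ) < l := by exact_mod_cast hb.1
  have ha0 : (0 : ℤ) ≤ a := by positivity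
  have hb0 : (0 : ℤ) ≤ b := by positivity
  have hc0 : c = 0 := by
    by_contra h
    rcases lt_or_gt_of_ne h with h | h
    · nlinarith
    · nlinarith
  rw [hc0, mul_zero] at hc
  omega

lemma cnt_sq (T : Finset ℕ) (hT : ∀ l ∈ T, l.Prime) (α β : ℤ) (hα : ∀ l ∈ T, ¬ (l : ℤ) ∣ α) (H : ℕ) :
    (((Icc 1 H).filter (fun a : ℕ => ∀ l ∈ T, (l : ℤ) ∣ α * a + β)).card : ℝ) ≤ H / (∏ l ∈ T, (l : ℝ)) + 1 := by
  classical
  have h1 := Pool.Agent.TH891.SG.crt_count T hT (fun l => (range l).filter (fun r : ℕ => (l : ℤ) ∣ α * ((r : ℤ) + 1) + β)) H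
  have h2 : ((Icc 1 H).filter (fun a : ℕ => ∀ l ∈ T, (l : ℤ) ∣ α * a + β)).card ≤
      ((range H).filter (fun d => ∀ p ∈ T, d % p ∈ (range p).filter (fun r : ℕ => (p : ℤ) ∣ α * ((r : ℤ) + 1) + β))).card := by
    apply card_le_card_of_injOn (fun a => a - 1)
    · intro a ha
      rw [mem_coe, mem_filter, mem_Icc] at ha
      rw [mem_coe, mem_filter, mem_range]
      refine ⟨by simp only; omega, fun p hp => ?_⟩
      rw [mem_filter, mem_range]
      refine ⟨Nat.mod_lt _ (hT p hp).pos, ?_⟩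
      have h3 := ha.2 p hp
      have e1 : (a : ℤ) = ((a - 1 : ℕ) : ℤ) + 1 := by omega
      have e2 : ((a - 1 : ℕ) : ℤ) = p * (((a - 1) / p : ℕ) : ℤ) + (((a - 1) % p : ℕ) : ℤ) := by
        exact_mod_cast (Nat.div_add_mod (a - 1) p).symm
      rw [e1, e2] at h3
      have e3 : α * (p * (((a - 1) / p : ℕ) : ℤ) + (((a - 1) % p : ℕ) : ℤ) + 1) + β =
          (α * ((((a - 1) % p : ℕ) : ℤ) + 1) + β) + p * (α * (((a - 1) / p : ℕ) : ℤ)) := by ring
      rw [e3] at h3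
      exact (dvd_add_left (Dvd.intro _ rfl)).1 h3
    · intro a ha b hb h
      rw [mem_coe, mem_filter, mem_Icc] at ha hb
      simp only at h
      omega
  have h3 : (∏ p ∈ T, ((((range p).filter (fun r : ℕ => (p : ℤ) ∣ α * ((r : ℤ) + 1) + β)).card : ℕ) : ℝ)) ≤ 1 := by
    apply prod_le_one (fun _ _ => Nat.cast_nonneg _)
    intro p hp
    exact_mod_cast root_card p (hT p hp) α β (hα p hp)
  have h4 : (0 : ℝ) ≤ H / (∏ l ∈ T, (l : ℝ)) + 1 := by positivity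
  calc _ ≤ _ := by exact_mod_cast h2
    _ ≤ _ := h1
    _ ≤ 1 * (H / (∏ l ∈ T, (l : ℝ)) + 1) := mul_le_mul_of_nonneg_right h3 h4
    _ = _ := one_mul _

/-- the average over a linear form -/
lemma ss1 (S : Finset ℕ) (hS : ∀ l ∈ S, l.Prime) (α β : ℤ) (hα : ∀ l ∈ S, ¬ (l : ℤ) ∣ α) (C : ℝ) (hC : 0 ≤ C) (H : ℕ) :
    ∑ a ∈ Icc 1 H, ∏ l ∈ S.filter (fun l : ℕ => (l : ℤ) ∣ α * (a : ℤ) + β), (1 + C / (l : ℝ)) ≤
      H * ∏ l ∈ S, (1 + C / (l : ℝ) ^ 2) + ∏ l ∈ S, (1 + C / (l : ℝ)) := by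
  classical
  have e1 : ∀ a : ℕ, ∏ l ∈ S.filter (fun l : ℕ => (l : ℤ) ∣ α * (a : ℤ) + β), (1 + C / (l : ℝ)) =
      ∑ T ∈ S.powerset, (∏ l ∈ T, C / (l : ℝ)) * (if ∀ l ∈ T, (l : ℤ) ∣ α * (a : ℤ) + β then 1 else 0) := by
    intro a
    rw [prod_filter]
    have e2 : ∏ l ∈ S, (if (l : ℤ) ∣ α * (a : ℤ) + β then 1 + C / (l : ℝ) else 1) =
        ∏ l ∈ S, (1 + C / (l : ℝ) * (if (l : ℤ) ∣ α * (a : ℤ) + β then 1 else 0)) := by
      apply prod_congr rfl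
      intro l _
      split_ifs <;> ring
    rw [e2, prod_one_add]
    apply sum_congr rfl
    intro T _
    rw [prod_mul_distrib]
    congr 1
    rw [prod_ite_zero]
    simp
  simp_rw [e1]
  rw [sum_comm]
  have h1 : ∀ T ∈ S.powerset, ∑ a ∈ Icc 1 H, (∏ l ∈ T, C / (l : ℝ)) * (if ∀ l ∈ T, (l : ℤ) ∣ α * (a : ℤ) + β then (1 : ℝ) else 0) ≤
      H * ∏ l ∈ T, (C / (l : ℝ) ^ 2) + ∏ l ∈ T, (C / (l : ℝ)) := by
    intro T hT
    rw [mem_powerset] at hT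
    rw [← mul_sum, sum_boole]
    have h2 := cnt_sq T (fun l hl => hS l (hT hl)) α β (fun l hl => hα l (hT hl)) H
    have h3 : 0 ≤ ∏ l ∈ T, C / (l : ℝ) := prod_nonneg fun _ _ => by positivity
    refine (mul_le_mul_of_nonneg_left h2 h3).trans (le_of_eq ?_)
    rw [mul_add, mul_one]
    congr 1
    have e3 : ∏ l ∈ T, (C / (l : ℝ) ^ 2) = (∏ l ∈ T, C / (l : ℝ)) / ∏ l ∈ T, (l : ℝ) := by
      rw [← prod_div_distrib]
      apply prod_congr rfl
      intro l _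
      rw [div_div, ← pow_two]
    rw [e3]
    ring
  refine (sum_le_sum h1).trans (le_of_eq ?_)
  rw [sum_add_distrib, ← mul_sum, prod_one_add, prod_one_add]

end Pool.Agent.E8helper16.SL
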