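import Mathlib
import Pool.Agent.H49.G.R_seed8.H373R2.T7.SysCount

set_option autoImplicit false

/-! Systems of classes given by linear forms: the number of the classes. -/

namespace Pool.Agent.E8helper16.SL
open Finset
open Pool.Agent.H373R2.T7

/-- one of the active forms is divisible by `l` -/
def Bad {ι : Type} (act : ℕ → ι → Prop) (α β : ι → ℤ) (l m : ℕ) : Prop :=
  ∃ k, act l k ∧ (l : ℤ) ∣ α k * m + β k

lemma dvd_mod (l m : ℕ) (a b : ℤ) : (l : ℤ) ∣ a * m + b ↔ (l : ℤ) ∣ a * ((m % l : ℕ) : ℤ) + b := by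
  have e : a * (m : ℤ) + b = (a * ((m % l : ℕ) : ℤ) + b) + l * (a * ((m / l : ℕ) : ℤ)) := by
    have h : (m : ℤ) = l * ((m / l : ℕ) : ℤ) + ((m % l : ℕ) : ℤ) := by exact_mod_cast (Nat.div_add_mod m l).symm
    nth_rewrite 1 [h]
    ring
  rw [e]
  exact (dvd_add_left (Dvd.intro _ rfl))

lemma bad_per {ι : Type} (act : ℕ → ι → Prop) (α β : ι → ℤ) (l m : ℕ) :
    Bad act α β l m ↔ Bad act α β l (m % l) := by
  unfold Bad
  apply exists_congr
  intro k
  rw [dvd_mod]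

lemma nuB_congr {Q Q' : ℕ → ℕ → Prop} {l : ℕ} (h : ∀ m, Q l m ↔ Q' l m) : nuB Q l = nuB Q' l := by
  classical
  unfold nuB
  congr 1
  ext m
  simp only [mem_filter]
  rw [h m]

open Classical in
/-- the active forms with a root -/
noncomputable def Aset {ι : Type} [Fintype ι] (act : ℕ → ι → Prop) (α : ι → ℤ) (l : ℕ) : Finset ι :=
  univ.filter (fun k => act l k ∧ ¬ (l : ℤ) ∣ α k)

lemma nuB_image {ι : Type} [Fintype ι] [DecidableEq ι] (act : ℕ → ι → Prop) (α β : ι → ℤ) (l : ℕ) (hl : l.Prime)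
    (hnd : ∀ k, act l k → ¬ ((l : ℤ) ∣ α k ∧ (l : ℤ) ∣ β k)) :
    nuB (Bad act α β) l = ((Aset act α l).image (fun k => (-(β k : ZMod l) * (α k : ZMod l)⁻¹).val)).card := by
  classical
  have : Fact l.Prime := ⟨hl⟩
  unfold nuB
  congr 1
  ext m
  rw [mem_filter, mem_range, mem_image]
  constructor
  · rintro ⟨hm, k, hk, hd⟩
    have hα : ¬ (l : ℤ) ∣ α k := by
      intro h
      apply hnd k hk
      refine ⟨h, ?_⟩
      have := (dvd_add_right (Dvd.dvd.mul_right h (m : ℤ))).1 hd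
      exact this
    refine ⟨k, ?_, ?_⟩
    · unfold Aset
      rw [mem_filter]
      exact ⟨mem_univ _, hk, hα⟩
    · have hα' : (α k : ZMod l) ≠ 0 := by
        intro h
        exact hα ((ZMod.intCast_zmod_eq_zero_iff_dvd _ _).1 h)
      have h1 : ((α k * m + β k : ℤ) : ZMod l) = 0 := (ZMod.intCast_zmod_eq_zero_iff_dvd _ _).2 hd
      push_cast at h1
      have h2 : (m : ZMod l) = -(β k : ZMod l) * (α k : ZMod l)⁻¹ := by
        rw [← div_eq_mul_inv, eq_div_iff hα']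
        linear_combination h1
      rw [← h2]
      exact ZMod.val_cast_of_lt hm
  · rintro ⟨k, hk, rfl⟩
    unfold Aset at hk
    rw [mem_filter] at hk
    obtain ⟨-, hk1, hk2⟩ := hk
    refine ⟨ZMod.val_lt _, k, hk1, ?_⟩
    have hα' : (α k : ZMod l) ≠ 0 := by
      intro h
      exact hk2 ((ZMod.intCast_zmod_eq_zero_iff_dvd _ _).1 h)
    apply (ZMod.intCast_zmod_eq_zero_iff_dvd _ _).1
    push_cast
    rw [ZMod.natCast_zmod_val]
    field_simp
    ring

lemma nuB_le_A {ι : Type} [Fintype ι] [DecidableEq ι] (act : ℕ → ι → Prop) (α β : ι → ℤ) (l : ℕ) (hl : l.Prime)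
    (hnd : ∀ k, act l k → ¬ ((l : ℤ) ∣ α k ∧ (l : ℤ) ∣ β k)) :
    nuB (Bad act α β) l ≤ (Aset act α l).card := by
  rw [nuB_image act α β l hl hnd]
  exact card_image_le

lemma nuB_le_card {ι : Type} [Fintype ι] [DecidableEq ι] (act : ℕ → ι → Prop) (α β : ι → ℤ) (l : ℕ) (hl : l.Prime)
    (hnd : ∀ k, act l k → ¬ ((l : ℤ) ∣ α k ∧ (l : ℤ) ∣ β k)) :
    nuB (Bad act α β) l ≤ Fintype.card ι :=
  (nuB_le_A act α β l hl hnd).trans (card_le_univ _)

lemma nuB_eq_A {ι : Type} [Fintype ι] [DecidableEq ι] (act : ℕ → ι → Prop) (α β : ι → ℤ) (l : ℕ) (hl : l.Prime)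
    (hnd : ∀ k, act l k → ¬ ((l : ℤ) ∣ α k ∧ (l : ℤ) ∣ β k))
    (hinj : ∀ k ∈ Aset act α l, ∀ k' ∈ Aset act α l, k ≠ k' → ¬ (l : ℤ) ∣ α k * β k' - α k' * β k) :
    nuB (Bad act α β) l = (Aset act α l).card := by
  classical
  have : Fact l.Prime := ⟨hl⟩
  rw [nuB_image act α β l hl hnd]
  apply card_image_of_injOn
  intro k hk k' hk' h
  by_contra hne
  apply hinj k hk k' hk' hne
  have h1 : -(β k : ZMod l) * (α k : ZMod l)⁻¹ = -(β k' : ZMod l) * (α k' : ZMod l)⁻¹ := ZMod.val_injective l h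
  have nz : ∀ j ∈ Aset act α l, (α j : ZMod l) ≠ 0 := by
    intro j hj h
    unfold Aset at hj
    rw [mem_filter] at hj
    exact hj.2.2 ((ZMod.intCast_zmod_eq_zero_iff_dvd _ _).1 h)
  have a1 := nz k hk
  have a2 := nz k' hk'
  rw [← div_eq_mul_inv, ← div_eq_mul_inv, div_eq_div_iff a1 a2] at h1
  apply (ZMod.intCast_zmod_eq_zero_iff_dvd _ _).1
  push_cast
  linear_combination (1 : ZMod l) * h1

lemma bad_PerB {ι : Type} [Fintype ι] [DecidableEq ι] (act : ℕ → ι → Prop) (α β : ι → ℤ) (c : ℕ)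
    (hc : Fintype.card ι ≤ c)
    (hnd : ∀ l : ℕ, l.Prime → ∀ k, act l k → ¬ ((l : ℤ) ∣ α k ∧ (l : ℤ) ∣ β k)) :
    PerB (Bad act α β) c := by
  refine ⟨fun p n => bad_per act α β p n, fun p hp => (nuB_le_card act α β p hp (hnd p hp)).trans hc⟩

end Pool.Agent.E8helper16.SL
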