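import Mathlib

set_option autoImplicit false

/-! Products of local densities over primes in `(w, z]`. -/

namespace Pool.Agent.E8helper16.SL
open Finset

/-- the normalised product of the local densities -/
noncomputable def TT (mid : Finset ℕ) (k : ℕ) (N : ℕ → ℕ) : ℝ :=
  ∏ l ∈ mid, (((1 - 1 / (l : ℝ)) ^ k)⁻¹ * (1 - (N l : ℝ) / l))

lemma pow_up {x : ℝ} (hx0 : 0 ≤ x) (hx1 : x ≤ 1) (k : ℕ) : (1 - x) ^ k * (1 + k * x) ≤ 1 := by
  have h1 : 1 + (k : ℝ) * x ≤ (1 + x) ^ k := one_add_mul_le_pow (by linarith) k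
  calc (1 - x) ^ k * (1 + k * x) ≤ (1 - x) ^ k * (1 + x) ^ k :=
        mul_le_mul_of_nonneg_left h1 (pow_nonneg (by linarith) k)
    _ = ((1 - x) * (1 + x)) ^ k := by rw [mul_pow]
    _ ≤ 1 := pow_le_one₀ (by nlinarith) (by nlinarith)

lemma loc_low {k l n : ℕ} (hl : 2 ≤ l) (hkl : 2 * k ≤ l) (hn : n ≤ k) :
    1 - (k : ℝ) ^ 2 / (l : ℝ) ^ 2 ≤ ((1 - 1 / (l : ℝ)) ^ k)⁻¹ * (1 - (n : ℝ) / l) := by
  have hl0 : (0 : ℝ) < l := by exact_mod_cast (by omega : 0 < l)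
  have hl2 : (2 : ℝ) ≤ l := by exact_mod_cast hl
  obtain ⟨x, hx⟩ : ∃ x : ℝ, x = 1 / l := ⟨_, rfl⟩
  have hx0 : 0 < x := by rw [hx]; positivity
  have hx1 : x ≤ 1 / 2 := by rw [hx]; exact one_div_le_one_div_of_le (by norm_num) hl2
  have hkx : (k : ℝ) * x ≤ 1 / 2 := by
    rw [hx, mul_one_div, div_le_iff₀ hl0]
    have : (2 : ℝ) * k ≤ l := by exact_mod_cast hkl
    linarith
  have e1 : (n : ℝ) / l = n * x := by rw [hx, mul_one_div]
  have e2 : (k : ℝ) ^ 2 / (l : ℝ) ^ 2 = (k * x) ^ 2 := by rw [hx]; field_simp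
  rw [e1, e2, ← hx]
  have hp : 0 < (1 - x) ^ k := pow_pos (by linarith) k
  have hup := pow_up hx0.le (by linarith) k
  have hnk : (n : ℝ) * x ≤ k * x := mul_le_mul_of_nonneg_right (by exact_mod_cast hn) hx0.le
  have h1 : 1 + (k : ℝ) * x ≤ ((1 - x) ^ k)⁻¹ := by
    rw [le_inv_comm₀ (by positivity) hp, inv_eq_one_div, le_div_iff₀ (by positivity)]
    exact hup
  calc 1 - (k * x) ^ 2 = (1 + k * x) * (1 - k * x) := by ring
    _ ≤ ((1 - x) ^ k)⁻¹ * (1 - n * x) := by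
        apply mul_le_mul h1 (by linarith) (by linarith) (by positivity)

lemma loc_up1 {k l : ℕ} (hl : 2 ≤ l) :
    ((1 - 1 / (l : ℝ)) ^ k)⁻¹ * (1 - (k : ℝ) / l) ≤ 1 := by
  have hl2 : (2 : ℝ) ≤ l := by exact_mod_cast hl
  have hx1 : 1 / (l : ℝ) ≤ 1 / 2 := one_div_le_one_div_of_le (by norm_num) hl2
  have hx0 : 0 < 1 / (l : ℝ) := by positivity
  have hp : 0 < (1 - 1 / (l : ℝ)) ^ k := pow_pos (by linarith) k
  rw [inv_mul_le_iff₀ hp, mul_one]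
  have h := one_add_mul_le_pow (a := -(1 / (l : ℝ))) (by linarith) k
  have e1 : 1 + (k : ℝ) * -(1 / (l : ℝ)) = 1 - (k : ℝ) / l := by ring
  have e2 : 1 + -(1 / (l : ℝ)) = 1 - 1 / (l : ℝ) := by ring
  rw [e1, e2] at h
  exact h

lemma inv_pow_up {k l : ℕ} (hl : 2 ≤ l) (hkl : 2 * k ≤ l) :
    ((1 - 1 / (l : ℝ)) ^ k)⁻¹ ≤ 1 + 2 * k / l := by
  have hl0 : (0 : ℝ) < l := by exact_mod_cast (by omega : 0 < l)
  have hl2 : (2 : ℝ) ≤ l := by exact_mod_cast hl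
  obtain ⟨x, hx⟩ : ∃ x : ℝ, x = 1 / l := ⟨_, rfl⟩
  have hx0 : 0 < x := by rw [hx]; positivity
  have hx1 : x ≤ 1 / 2 := by rw [hx]; exact one_div_le_one_div_of_le (by norm_num) hl2
  have hkx : (k : ℝ) * x ≤ 1 / 2 := by
    rw [hx, mul_one_div, div_le_iff₀ hl0]
    have : (2 : ℝ) * k ≤ l := by exact_mod_cast hkl
    linarith
  have hk0 : 0 ≤ (k : ℝ) * x := by positivity
  have e1 : 2 * (k : ℝ) / l = 2 * (k * x) := by rw [hx]; ring
  rw [e1, ← hx]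
  have h := one_add_mul_le_pow (a := -x) (by linarith) k
  have e2 : 1 + (k : ℝ) * -x = 1 - k * x := by ring
  have e3 : 1 + -x = 1 - x := by ring
  rw [e2, e3] at h
  have hp : 0 < (1 - x) ^ k := pow_pos (by linarith) k
  rw [inv_le_comm₀ hp (by positivity)]
  refine le_trans ?_ h
  rw [inv_eq_one_div, div_le_iff₀ (by positivity)]
  nlinarith

lemma loc_up2 {k l n : ℕ} (hl : 2 ≤ l) (hkl : 2 * k ≤ l) :
    ((1 - 1 / (l : ℝ)) ^ k)⁻¹ * (1 - (n : ℝ) / l) ≤ 1 + 2 * k / l := by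
  have hl0 : (0 : ℝ) < l := by exact_mod_cast (by omega : 0 < l)
  have hl2 : (2 : ℝ) ≤ l := by exact_mod_cast hl
  have hx1 : 1 / (l : ℝ) ≤ 1 / 2 := one_div_le_one_div_of_le (by norm_num) hl2
  have hp : 0 < (1 - 1 / (l : ℝ)) ^ k := pow_pos (by linarith) k
  refine le_trans ?_ (inv_pow_up hl hkl)
  apply mul_le_of_le_one_right (inv_nonneg.2 hp.le)
  have : (0 : ℝ) ≤ (n : ℝ) / l := by positivity
  linarith

lemma one_sub_sum_le {s : Finset ℕ} {a : ℕ → ℝ} (h0 : ∀ l ∈ s, 0 ≤ a l) (h1 : ∀ l ∈ s, a l ≤ 1) :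
    1 - ∑ l ∈ s, a l ≤ ∏ l ∈ s, (1 - a l) := by
  classical
  induction s using Finset.induction_on with
  | empty => simp
  | insert c s hc ih =>
    rw [sum_insert hc, prod_insert hc]
    have i1 := ih (fun l hl => h0 l (mem_insert_of_mem hl)) (fun l hl => h1 l (mem_insert_of_mem hl))
    have c0 := h0 c (mem_insert_self _ _)
    have c1 := h1 c (mem_insert_self _ _)
    have p1 : ∏ l ∈ s, (1 - a l) ≤ 1 := prod_le_one (fun l hl => by
      have := h1 l (mem_insert_of_mem hl); linarith) (fun l hl => by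
      have := h0 l (mem_insert_of_mem hl); linarith)
    nlinarith

lemma sum_inv_sq {s : Finset ℕ} {w : ℕ} (hw : 1 ≤ w) (h : ∀ l ∈ s, w < l) :
    ∑ l ∈ s, 1 / (l : ℝ) ^ 2 ≤ 1 / (w : ℝ) := by
  obtain ⟨B, hB⟩ : ∃ B, B = max w (s.sup id) := ⟨_, rfl⟩
  have hsub : s ⊆ Ioc w B := by
    intro l hl
    rw [mem_Ioc]
    refine ⟨h l hl, ?_⟩
    rw [hB]
    exact le_trans (le_sup (f := id) hl) (le_max_right _ _)
  have h1 := sum_Ioc_inv_sq_le_sub (α := ℝ) (k := w) (n := B) (by omega) (by rw [hB]; exact le_max_left _ _)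
  have h2 : ∑ l ∈ s, 1 / (l : ℝ) ^ 2 ≤ ∑ l ∈ Ioc w B, ((l : ℝ) ^ 2)⁻¹ := by
    refine (sum_le_sum_of_subset_of_nonneg hsub (fun _ _ _ => by positivity)).trans (le_of_eq ?_)
    apply sum_congr rfl
    intro l _
    rw [one_div]
  have h3 : (0 : ℝ) ≤ (B : ℝ)⁻¹ := by positivity
  rw [one_div]
  linarith

lemma TT_nonneg {mid : Finset ℕ} {k : ℕ} {N : ℕ → ℕ} (h2 : ∀ l ∈ mid, 2 ≤ l) (hN : ∀ l ∈ mid, N l ≤ l) :
    0 ≤ TT mid k N := by
  unfold TT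
  apply prod_nonneg
  intro l hl
  have hl2 : (2 : ℝ) ≤ l := by exact_mod_cast h2 l hl
  have hx1 : 1 / (l : ℝ) ≤ 1 / 2 := one_div_le_one_div_of_le (by norm_num) hl2
  apply mul_nonneg (inv_nonneg.2 (pow_nonneg (by linarith) _))
  have : (N l : ℝ) / l ≤ 1 := by
    rw [div_le_one (by linarith)]
    exact_mod_cast hN l hl
  linarith

lemma TT_low {mid : Finset ℕ} {k w : ℕ} {N : ℕ → ℕ} (hw : 1 ≤ w) (hkw : 2 * k ≤ w) (h : ∀ l ∈ mid, w < l)
    (hN : ∀ l ∈ mid, N l ≤ k) : 1 - (k : ℝ) ^ 2 / w ≤ TT mid k N := by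
  have hw0 : (0 : ℝ) < w := by exact_mod_cast hw
  unfold TT
  have h1 : ∏ l ∈ mid, (1 - (k : ℝ) ^ 2 / (l : ℝ) ^ 2) ≤
      ∏ l ∈ mid, (((1 - 1 / (l : ℝ)) ^ k)⁻¹ * (1 - (N l : ℝ) / l)) := by
    apply prod_le_prod
    · intro l hl
      have hl1 := h l hl
      have : (k : ℝ) ^ 2 / (l : ℝ) ^ 2 ≤ 1 := by
        rw [← div_pow]
        apply pow_le_one₀ (by positivity)
        rw [div_le_one (by exact_mod_cast (by omega : 0 < l))]
        exact_mod_cast (by omega : k ≤ l)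
      linarith
    · intro l hl
      have hl1 := h l hl
      exact loc_low (by omega) (by omega) (hN l hl)
  refine le_trans ?_ h1
  refine le_trans ?_ (one_sub_sum_le (fun l _ => by positivity) (fun l hl => ?_))
  · have h2 := sum_inv_sq hw h
    have h3 : ∑ l ∈ mid, (k : ℝ) ^ 2 / (l : ℝ) ^ 2 = (k : ℝ) ^ 2 * ∑ l ∈ mid, 1 / (l : ℝ) ^ 2 := by
      rw [mul_sum]
      apply sum_congr rfl
      intro l _
      ring
    rw [h3]
    have h4 : (k : ℝ) ^ 2 * ∑ l ∈ mid, 1 / (l : ℝ) ^ 2 ≤ (k : ℝ) ^ 2 * (1 / w) :=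
      mul_le_mul_of_nonneg_left h2 (by positivity)
    have h5 : (k : ℝ) ^ 2 * (1 / w) = (k : ℝ) ^ 2 / w := by ring
    linarith
  · have hl1 := h l hl
    rw [← div_pow]
    apply pow_le_one₀ (by positivity)
    rw [div_le_one (by exact_mod_cast (by omega : 0 < l))]
    exact_mod_cast (by omega : k ≤ l)

open Classical in
lemma TT_up {mid : Finset ℕ} {k w : ℕ} {N : ℕ → ℕ} (hw : 1 ≤ w) (hkw : 2 * k ≤ w) (h : ∀ l ∈ mid, w < l)
    (hN : ∀ l ∈ mid, N l ≤ l) (P : ℕ → Prop) (hP : ∀ l ∈ mid, ¬ P l → N l = k) :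
    TT mid k N ≤ ∏ l ∈ mid.filter P, (1 + 2 * (k : ℝ) / l) := by
  unfold TT
  rw [prod_filter]
  apply prod_le_prod
  · intro l hl
    have hl1 := h l hl
    have hl2 : (2 : ℝ) ≤ l := by exact_mod_cast (by omega : 2 ≤ l)
    have hx1 : 1 / (l : ℝ) ≤ 1 / 2 := one_div_le_one_div_of_le (by norm_num) hl2
    apply mul_nonneg (inv_nonneg.2 (pow_nonneg (by linarith) _))
    have : (N l : ℝ) / l ≤ 1 := by
      rw [div_le_one (by linarith)]
      exact_mod_cast hN l hl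
    linarith
  · intro l hl
    have hl1 := h l hl
    by_cases hPl : P l
    · rw [if_pos hPl]
      exact loc_up2 (by omega) (by omega)
    · rw [if_neg hPl, hP l hl hPl]
      exact loc_up1 (by omega)

end Pool.Agent.E8helper16.SL
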