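import Mathlib
import Pool.Agent.H49.G.R_pool_sql_team_seeded_b677cdb8.E8helper16.SL.E2
import Pool.Agent.H49.G.R_pool_sql_team_seeded_b677cdb8.E8helper16.SL.D
import Pool.Agent.H49.G.R_seed8.TH891.SG.Gal2

set_option autoImplicit false

/-! Bounds for the covariance, and its average. -/

namespace Pool.Agent.E8helper16.SL
open Finset
open Pool.Agent.H373R2.T7

section cov3
variable {f : ℕ} (s : Fin f → ℤ) (d d' : ℕ) (a a' : ℤ)

/-- the bad primes -/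
def BadP (l : ℕ) : Prop := l ∣ d ∨ l ∣ d' ∨ ∃ i j, (l : ℤ) ∣ Dt s d d' a a' i j

open Classical in
/-- the product over the bad primes -/
noncomputable def U11 (w z : ℕ) : ℝ := ∏ l ∈ (mid w z).filter (BadP s d d' a a'), (1 + 4 * (f : ℝ) / l)

lemma one_le_U11 (w z : ℕ) : 1 ≤ U11 s d d' a a' w z := by
  unfold U11
  apply Pool.Agent.TH891.SG.one_le_prodR
  intro l _
  have : (0 : ℝ) ≤ 4 * (f : ℝ) / l := by positivity
  linarith

open Classical in
lemma filt_prime (w z e : ℕ) (k : ℝ) (hk : 0 ≤ k) (he : e = 1 ∨ e.Prime) (hw : 1 ≤ w) :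
    ∏ l ∈ (mid w z).filter (fun l => l ∣ e), (1 + k / (l : ℝ)) ≤ 1 + k / w := by
  have hw0 : (0 : ℝ) < w := by exact_mod_cast hw
  have hsub : (mid w z).filter (fun l => l ∣ e) ⊆ {e} := by
    intro l hl
    rw [mem_filter, mem_mid] at hl
    rw [mem_singleton]
    rcases he with he | he
    · rw [he] at hl
      exact absurd (Nat.dvd_one.1 hl.2) hl.1.2.2.one_lt.ne'
    · exact (Nat.prime_dvd_prime_iff_eq hl.1.2.2 he).1 hl.2
  rcases (subset_singleton_iff.1 hsub) with h | h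
  · rw [h, prod_empty]
    have : 0 ≤ k / w := by positivity
    linarith
  · rw [h, prod_singleton]
    have he2 : e ∈ (mid w z).filter (fun l => l ∣ e) := by rw [h]; exact mem_singleton_self _
    rw [mem_filter, mem_mid] at he2
    have : k / (e : ℝ) ≤ k / w := by
      apply div_le_div_of_nonneg_left hk hw0
      exact_mod_cast he2.1.1.le
    linarith

lemma T10_bound {D w z : ℕ} (hf : 1 ≤ f) (hs : Sep s D) (hDw : D ≤ w) (hfw : 16 * f ^ 2 ≤ w)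
    (h : Nd s d a) (h' : Nd s d' a') (hd : d = 1 ∨ d.Prime) :
    |TT (mid w z) f (NL s d d' a a') - 1| ≤ 2 * (f : ℝ) ^ 2 / w ∧ TT (mid w z) f (NL s d d' a a') ≤ 2 := by
  classical
  have hf2 : f ≤ f ^ 2 := Nat.le_self_pow (by norm_num) f
  have hw1 : 1 ≤ w := by nlinarith
  have hw0 : (0 : ℝ) < w := by exact_mod_cast hw1
  have hfr : (1 : ℝ) ≤ f := by exact_mod_cast hf
  have hffr : 16 * (f : ℝ) ^ 2 ≤ w := by exact_mod_cast hfw
  have h1 := TT_low (mid := mid w z) (k := f) (w := w) (N := NL s d d' a a') hw1 (by nlinarith)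
    (fun l hl => (mem_mid.1 hl).1) (fun l hl => NL_le s d d' a a' h h' (mem_mid.1 hl).2.2)
  have h2 := TT_up (mid := mid w z) (k := f) (w := w) (N := NL s d d' a a') hw1 (by nlinarith)
    (fun l hl => (mem_mid.1 hl).1) (fun l _ => NL_leP s d d' a a' l) (fun l => l ∣ d)
    (fun l hl hP => NL_eq s d d' a a' hs h h' (mem_mid.1 hl).2.2 (lt_of_le_of_lt hDw (mem_mid.1 hl).1) hP)
  have h3 := filt_prime w z d (2 * (f : ℝ)) (by positivity) hd hw1
  have h4 : TT (mid w z) f (NL s d d' a a') ≤ 1 + 2 * (f : ℝ) / w := by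
    refine h2.trans (le_trans (le_of_eq ?_) h3)
    congr!
  have h5 : 2 * (f : ℝ) / w ≤ 2 * (f : ℝ) ^ 2 / w := by
    apply div_le_div_of_nonneg_right _ hw0.le
    nlinarith
  have h6 : (f : ℝ) ^ 2 / w ≤ 2 * (f : ℝ) ^ 2 / w := by
    apply div_le_div_of_nonneg_right _ hw0.le
    nlinarith
  have h7 : 2 * (f : ℝ) ^ 2 / w ≤ 1 := by
    rw [div_le_one hw0]
    linarith
  refine ⟨?_, by linarith⟩
  rw [abs_le]
  constructor <;> linarith

lemma T01_bound {D w z : ℕ} (hf : 1 ≤ f) (hs : Sep s D) (hDw : D ≤ w) (hfw : 16 * f ^ 2 ≤ w)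
    (h : Nd s d a) (h' : Nd s d' a') (hd : d' = 1 ∨ d'.Prime) :
    |TT (mid w z) f (NR s d d' a a') - 1| ≤ 2 * (f : ℝ) ^ 2 / w ∧ TT (mid w z) f (NR s d d' a a') ≤ 2 := by
  classical
  have hf2 : f ≤ f ^ 2 := Nat.le_self_pow (by norm_num) f
  have hw1 : 1 ≤ w := by nlinarith
  have hw0 : (0 : ℝ) < w := by exact_mod_cast hw1
  have hfr : (1 : ℝ) ≤ f := by exact_mod_cast hf
  have hffr : 16 * (f : ℝ) ^ 2 ≤ w := by exact_mod_cast hfw
  have h1 := TT_low (mid := mid w z) (k := f) (w := w) (N := NR s d d' a a') hw1 (by nlinarith)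
    (fun l hl => (mem_mid.1 hl).1) (fun l hl => NR_le s d d' a a' h h' (mem_mid.1 hl).2.2)
  have h2 := TT_up (mid := mid w z) (k := f) (w := w) (N := NR s d d' a a') hw1 (by nlinarith)
    (fun l hl => (mem_mid.1 hl).1) (fun l _ => NR_leP s d d' a a' l) (fun l => l ∣ d')
    (fun l hl hP => NR_eq s d d' a a' hs h h' (mem_mid.1 hl).2.2 (lt_of_le_of_lt hDw (mem_mid.1 hl).1) hP)
  have h3 := filt_prime w z d' (2 * (f : ℝ)) (by positivity) hd hw1
  have h4 : TT (mid w z) f (NR s d d' a a') ≤ 1 + 2 * (f : ℝ) / w := by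
    refine h2.trans (le_trans (le_of_eq ?_) h3)
    congr!
  have h5 : 2 * (f : ℝ) / w ≤ 2 * (f : ℝ) ^ 2 / w := by
    apply div_le_div_of_nonneg_right _ hw0.le
    nlinarith
  have h6 : (f : ℝ) ^ 2 / w ≤ 2 * (f : ℝ) ^ 2 / w := by
    apply div_le_div_of_nonneg_right _ hw0.le
    nlinarith
  have h7 : 2 * (f : ℝ) ^ 2 / w ≤ 1 := by
    rw [div_le_one hw0]
    linarith
  refine ⟨?_, by linarith⟩
  rw [abs_le]
  constructor <;> linarith

lemma T11_bound {D w z : ℕ} (hf : 1 ≤ f) (hs : Sep s D) (hDw : D ≤ w) (hfw : 16 * f ^ 2 ≤ w)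
    (h : Nd s d a) (h' : Nd s d' a') :
    |TT (mid w z) (2 * f) (NB s d d' a a') - 1| ≤ (U11 s d d' a a' w z - 1) + 4 * (f : ℝ) ^ 2 / w ∧
      TT (mid w z) (2 * f) (NB s d d' a a') ≤ U11 s d d' a a' w z := by
  classical
  have hf2 : f ≤ f ^ 2 := Nat.le_self_pow (by norm_num) f
  have hw1 : 1 ≤ w := by nlinarith
  have hw0 : (0 : ℝ) < w := by exact_mod_cast hw1
  have h1 := TT_low (mid := mid w z) (k := 2 * f) (w := w) (N := NB s d d' a a') hw1 (by nlinarith)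
    (fun l hl => (mem_mid.1 hl).1) (fun l hl => NB_le s d d' a a' h h' (mem_mid.1 hl).2.2)
  have h2 := TT_up (mid := mid w z) (k := 2 * f) (w := w) (N := NB s d d' a a') hw1 (by nlinarith)
    (fun l hl => (mem_mid.1 hl).1) (fun l _ => NB_leP s d d' a a' l) (BadP s d d' a a')
    (fun l hl hP => by
      unfold BadP at hP
      push Not at hP
      exact NB_eq s d d' a a' hs h h' (mem_mid.1 hl).2.2 (lt_of_le_of_lt hDw (mem_mid.1 hl).1) hP.1 hP.2.1 hP.2.2)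
  have h4 : TT (mid w z) (2 * f) (NB s d d' a a') ≤ U11 s d d' a a' w z := by
    refine h2.trans (le_of_eq ?_)
    unfold U11
    apply prod_congr (by congr!)
    intro l _
    push_cast
    ring
  have h5 := one_le_U11 s d d' a a' w z
  have h6 : ((2 * f : ℕ) : ℝ) ^ 2 / w = 4 * (f : ℝ) ^ 2 / w := by push_cast; ring
  rw [h6] at h1
  have h7 : 0 ≤ 4 * (f : ℝ) ^ 2 / w := by positivity
  refine ⟨?_, h4⟩
  rw [abs_le]
  constructor <;> linarith

/-- the bound for the covariance -/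
lemma cov_final {D b x w z : ℕ} (hf : 1 ≤ f) (hs : Sep s D) (hDw : D ≤ w) (hfw : 16 * f ^ 2 ≤ w) (hFL : FL f b x z)
    (hwz : w ≤ z) (h : Nd s d a) (h' : Nd s d' a') (hd : d = 1 ∨ d.Prime) (hd' : d' = 1 ∨ d'.Prime) (X : ℕ) :
    |Cov s d d' a a' X w z| ≤ X * ((Vz w) ^ (2 * f))⁻¹ *
      (2 * (U11 s d d' a a' w z - 1) + 8 * (f : ℝ) ^ 2 / w + 6 * (1 / 2 : ℝ) ^ b) +
        4 * (((Vz z) ^ (2 * f))⁻¹ * √(x : ℝ)) := by
  obtain ⟨a1, a2⟩ := T10_bound s d d' a a' (z := z) hf hs hDw hfw h h' hd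
  obtain ⟨b1, b2⟩ := T01_bound s d d' a a' (z := z) hf hs hDw hfw h h' hd'
  obtain ⟨c1, c2⟩ := T11_bound s d d' a a' (z := z) hf hs hDw hfw h h'
  have key := cov_le s d d' a a' hFL hwz h h' X _ _ _ rfl rfl rfl
  have hG := GG_nonneg s d d' a a' w
  have hG' := GG_le s d d' a a' w
  have hX : (0 : ℝ) ≤ X := Nat.cast_nonneg _
  have hU := one_le_U11 s d d' a a' w z
  have hw1 : 1 ≤ w := by nlinarith [Nat.le_self_pow (show 2 ≠ 0 by norm_num) f]
  have hw0 : (0 : ℝ) < w := by exact_mod_cast hw1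
  have hb0 : (0 : ℝ) ≤ (1 / 2 : ℝ) ^ b := by positivity
  have hb1 : (1 / 2 : ℝ) ^ b ≤ 1 := pow_le_one₀ (by norm_num) (by norm_num)
  refine key.trans ?_
  apply add_le_add _ le_rfl
  obtain ⟨T11, e1⟩ : ∃ t, t = TT (mid w z) (2 * f) (NB s d d' a a') := ⟨_, rfl⟩
  obtain ⟨T10, e2⟩ : ∃ t, t = TT (mid w z) f (NL s d d' a a') := ⟨_, rfl⟩
  obtain ⟨T01, e3⟩ : ∃ t, t = TT (mid w z) f (NR s d d' a a') := ⟨_, rfl⟩
  rw [← e1] at c1 c2 ⊢
  rw [← e2] at a1 a2 ⊢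
  rw [← e3] at b1 b2 ⊢
  obtain ⟨U, eU⟩ : ∃ t, t = U11 s d d' a a' w z := ⟨_, rfl⟩
  rw [← eU] at c1 c2 hU ⊢
  obtain ⟨r, hr⟩ : ∃ r, r = (f : ℝ) ^ 2 / w := ⟨_, rfl⟩
  have q1 : 2 * (f : ℝ) ^ 2 / w = 2 * r := by rw [hr]; ring
  have q2 : 4 * (f : ℝ) ^ 2 / w = 4 * r := by rw [hr]; ring
  have q3 : 8 * (f : ℝ) ^ 2 / w = 8 * r := by rw [hr]; ring
  rw [q1] at a1 b1
  rw [q2] at c1
  rw [q3]
  have hXG : 0 ≤ X * GG s d d' a a' w := mul_nonneg hX hG
  have hXGle : X * GG s d d' a a' w ≤ X * ((Vz w) ^ (2 * f))⁻¹ := mul_le_mul_of_nonneg_left hG' hX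
  have s1 : |T11 - 1| + |T10 - 1| + |T01 - 1| ≤ (U - 1) + 8 * r := by linarith
  have s2 : T11 + T10 + T01 + 1 ≤ (U - 1) + 6 := by linarith
  have s3 : (1 / 2 : ℝ) ^ b * (U - 1) ≤ 1 * (U - 1) := mul_le_mul_of_nonneg_right hb1 (by linarith)
  have hr0 : 0 ≤ r := by rw [hr]; positivity
  calc X * GG s d d' a a' w * (|T11 - 1| + |T10 - 1| + |T01 - 1|) +
        (1 / 2 : ℝ) ^ b * (X * GG s d d' a a' w * (T11 + T10 + T01 + 1))
      = X * GG s d d' a a' w * ((|T11 - 1| + |T10 - 1| + |T01 - 1|) + (1 / 2 : ℝ) ^ b * (T11 + T10 + T01 + 1)) := by ring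
    _ ≤ X * GG s d d' a a' w * (((U - 1) + 8 * r) + (1 / 2 : ℝ) ^ b * ((U - 1) + 6)) := by
        apply mul_le_mul_of_nonneg_left _ hXG
        apply add_le_add s1
        exact mul_le_mul_of_nonneg_left s2 hb0
    _ ≤ X * GG s d d' a a' w * (2 * (U - 1) + 8 * r + 6 * (1 / 2 : ℝ) ^ b) := by
        apply mul_le_mul_of_nonneg_left _ hXG
        linarith
    _ ≤ X * ((Vz w) ^ (2 * f))⁻¹ * (2 * (U - 1) + 8 * r + 6 * (1 / 2 : ℝ) ^ b) := by
        apply mul_le_mul_of_nonneg_right hXGle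
        have : 0 ≤ U - 1 := by linarith
        positivity

end cov3

end Pool.Agent.E8helper16.SL
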