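import Mathlib
import Pool.Agent.H49.G.R_seed8.TH823.MRS.Circ5

set_option autoImplicit false

/-! The averaged two point theorem for windows of bounded length. -/

namespace Pool.Agent.E8helper16.SL
open Finset
open Pool.Agent.H373R2.T7 (exI energy liR liR_norm)

/-- the Liouville function on the integers -/
noncomputable def lz (m : ℤ) : ℂ := exI liR m

/-- the Liouville function cut at `M` -/
noncomputable def lM (M : ℕ) (m : ℤ) : ℂ := if m ≤ M then lz m else 0

lemma lz_norm (m : ℤ) : ‖lz m‖ ≤ 1 := by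
  unfold lz exI
  split_ifs
  · exact liR_norm _
  · simp

lemma lM_norm (M : ℕ) (m : ℤ) : ‖lM M m‖ ≤ 1 := by
  unfold lM
  split_ifs
  · exact lz_norm _
  · simp

lemma lz_conj (m : ℤ) : (starRingEnd ℂ) (lz m) = lz m := by
  unfold lz exI liR
  split_ifs
  · rw [map_pow, map_neg, map_one]
  · simp

lemma lM_conj (M : ℕ) (m : ℤ) : (starRingEnd ℂ) (lM M m) = lM M m := by
  unfold lM
  split_ifs
  · exact lz_conj m
  · simp

lemma energy_one (x : ℕ) : energy 1 x (fun m => (m : ℤ)) ≤ x := by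
  unfold energy
  have h : ((((Fintype.piFinset fun _ : Fin 1 => Icc 1 x) ×ˢ (Fintype.piFinset fun _ : Fin 1 => Icc 1 x)).filter
    (fun q : (Fin 1 → ℕ) × (Fin 1 → ℕ) => ∑ i, ((q.1 i : ℕ) : ℤ) = ∑ i, ((q.2 i : ℕ) : ℤ))).card) ≤ (Icc 1 x).card := by
    apply card_le_card_of_injOn (fun q => q.1 0)
    · intro q hq
      rw [mem_coe, mem_filter, mem_product, Fintype.mem_piFinset] at hq
      exact mem_coe.2 (hq.1.1 0)
    · intro q hq q' hq' h
      rw [mem_coe, mem_filter] at hq hq'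
      simp only [univ_unique, Fin.default_eq_zero, Fin.isValue, sum_singleton, Nat.cast_inj] at hq hq' h
      ext i
      · rw [Subsingleton.elim i 0]; exact h
      · rw [Subsingleton.elim i 0, ← hq.2, ← hq'.2]; exact h
  rw [Nat.card_Icc, Nat.add_sub_cancel] at h
  exact h

lemma lM_sum (g : ℕ → ℂ) (M : ℕ) (j : ℤ) :
    ∃ X ≤ M, ∑ m ∈ Icc 1 M, g m * lM M (m + j) = ∑ m ∈ Icc 1 X, g m * lz (m + j) := by
  rcases le_or_gt 0 j with hj | hj
  · refine ⟨M - j.toNat, Nat.sub_le _ _, ?_⟩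
    symm
    apply sum_subset_zero_on_sdiff
    · intro m hm
      rw [mem_Icc] at hm ⊢
      omega
    · intro m hm
      rw [mem_sdiff, mem_Icc, mem_Icc] at hm
      have : ¬ ((m : ℤ) + j ≤ M) := by omega
      unfold lM
      rw [if_neg this, mul_zero]
    · intro m hm
      rw [mem_Icc] at hm
      have : ((m : ℤ) + j ≤ M) := by omega
      unfold lM
      rw [if_pos this]
  · refine ⟨M, le_rfl, ?_⟩
    apply sum_congr rfl
    intro m hm
    rw [mem_Icc] at hm
    have : ((m : ℤ) + j ≤ M) := by omega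
    unfold lM
    rw [if_pos this]

/-- the averaged two point theorem with arbitrary weights -/
theorem mrt (ε : ℝ) (hε : 0 < ε) : ∃ J₀ M₀ : ℕ, ∀ M J : ℕ, M₀ ≤ M → J₀ ≤ J → 2 * J ≤ M → ∀ g : ℕ → ℂ, (∀ n, ‖g n‖ ≤ 1) →
    ∑ j ∈ Ioo (-(J : ℤ)) J, ‖∑ m ∈ Icc 1 M, g m * lM M (m + j)‖ ≤ ε * J * M := by
  classical
  obtain ⟨H₀, N₀, h0⟩ := Pool.Agent.TH823.MRS.few_short liR liR_norm Pool.Agent.TH823.MRS.liR_E 1 1 1 1 (ε / 4) (by positivity)
  refine ⟨H₀ + 1, N₀, fun M J hM hJ hJM g hg => ?_⟩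
  have hM0 : (0 : ℝ) ≤ M := Nat.cast_nonneg _
  have h1 := h0 M hM (2 * J) (by omega) hJM (2 * J) (fun m => (m : ℤ)) (by
      intro m hm
      rw [mem_Icc] at hm
      rw [abs_of_nonneg (by positivity)]
      exact_mod_cast hm.2) (by
      have := energy_one (2 * J)
      have h2 : (energy 1 (2 * J) (fun m => (m : ℤ)) : ℝ) ≤ ((2 * J : ℕ) : ℝ) := by exact_mod_cast this
      calc (energy 1 (2 * J) (fun m => (m : ℤ)) : ℝ) * ((2 * J : ℕ) : ℝ) ≤ ((2 * J : ℕ) : ℝ) * ((2 * J : ℕ) : ℝ) :=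
            mul_le_mul_of_nonneg_right h2 (Nat.cast_nonneg _)
        _ = 1 * ((2 * J : ℕ) : ℝ) ^ (2 * 1) := by ring)
    (fun _ => 1) (fun _ => -(J : ℤ)) (fun _ => g) (fun _ _ => le_rfl) (fun _ _ => by
      have : (0 : ℤ) ≤ (1 : ℕ) * (M : ℤ) := by positivity
      omega) (fun _ _ n => hg n)
    (fun m => ∃ X ≤ M, ε / 4 * M < ‖∑ n ∈ Icc 1 X, g n * lz (n + ((m : ℤ) - J))‖) (by
      rintro m _ ⟨X, hX, h2⟩
      refine ⟨0, by norm_num, X, by omega, lt_of_lt_of_eq h2 ?_⟩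
      congr 1
      apply sum_congr rfl
      intro n _
      unfold lz
      congr 2
      push_cast
      ring)
  have h2 : ∀ j ∈ Ioo (-(J : ℤ)) J, ‖∑ m ∈ Icc 1 M, g m * lM M (m + j)‖ ≤ ε / 4 * M +
      M * (if ∃ X ≤ M, ε / 4 * M < ‖∑ n ∈ Icc 1 X, g n * lz (n + j)‖ then 1 else 0) := by
    intro j _
    obtain ⟨X, hX, h3⟩ := lM_sum g M j
    rw [h3]
    split_ifs with h4
    · have h5 : ‖∑ m ∈ Icc 1 X, g m * lz (m + j)‖ ≤ M := by
        refine (norm_sum_le _ _).trans ?_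
        calc ∑ m ∈ Icc 1 X, ‖g m * lz (m + j)‖ ≤ ∑ _m ∈ Icc 1 X, (1 : ℝ) := by
              apply sum_le_sum
              intro m _
              rw [norm_mul]
              exact mul_le_one₀ (hg m) (norm_nonneg _) (lz_norm _)
          _ = X := by rw [sum_const, Nat.card_Icc, Nat.add_sub_cancel, nsmul_eq_mul, mul_one]
          _ ≤ M := by exact_mod_cast hX
      have : 0 ≤ ε / 4 * M := by positivity
      linarith
    · push Not at h4
      have := h4 X hX
      linarith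
  refine (sum_le_sum h2).trans ?_
  rw [sum_add_distrib, sum_const, nsmul_eq_mul, Int.card_Ioo, ← mul_sum, sum_boole]
  have h3 : (((Ioo (-(J : ℤ)) J).filter (fun j => ∃ X ≤ M, ε / 4 * M < ‖∑ n ∈ Icc 1 X, g n * lz (n + j)‖)).card : ℝ) ≤
      ε / 4 * ((2 * J : ℕ) : ℝ) := by
    refine le_trans ?_ h1
    apply Nat.cast_le.2
    apply card_le_card_of_injOn (fun j : ℤ => (j + J).toNat)
    · intro j hj
      rw [mem_coe, mem_filter, mem_Ioo] at hj
      rw [mem_coe, mem_filter, mem_Icc]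
      refine ⟨by simp only; omega, ?_⟩
      obtain ⟨X, hX, h4⟩ := hj.2
      refine ⟨X, hX, ?_⟩
      have e : (((j + J).toNat : ℕ) : ℤ) - J = j := by omega
      rw [e]
      exact h4
    · intro j hj j' hj' h
      rw [mem_coe, mem_filter, mem_Ioo] at hj hj'
      simp only at h
      omega
  have h4 : (((J : ℤ) - -(J : ℤ) - 1).toNat : ℝ) ≤ 2 * J := by
    have : ((J : ℤ) - -(J : ℤ) - 1).toNat ≤ 2 * J := by omega
    exact_mod_cast this
  have h5 := mul_le_mul_of_nonneg_left h3 hM0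
  have h6 := mul_le_mul_of_nonneg_right h4 (by positivity : 0 ≤ ε / 4 * (M : ℝ))
  push_cast at h5
  have e : ε * J * M = 2 * J * (ε / 4 * M) + M * (ε / 4 * (2 * J)) := by ring
  rw [e]
  linarith

end Pool.Agent.E8helper16.SL
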