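import Mathlib
import Pool.Agent.H49.G.R_pool_sql_team_seeded_b677cdb8.E8helper16.SL.E5
import Pool.Agent.H49.G.R_pool_sql_team_seeded_b677cdb8.E8helper16.SL.F1

set_option autoImplicit false

/-! The mean square of the sums over the multiples of the primes of a block. -/

namespace Pool.Agent.E8helper16.SL
open Finset
open Pool.Agent.H373R2.T7 (Vz Vz_pos pz mem_pz)

/-- the sum over the multiples of `p`, cut at `M` -/
noncomputable def GM (c : ℕ → ℂ) (H p M : ℕ) (n : ℤ) : ℂ :=
  ∑ h ∈ Icc 1 H, if (p : ℤ) ∣ n + h then c h * lM M ((n + h) / p) else 0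

/-- the coefficients on the integers -/
noncomputable def ct (c : ℕ → ℂ) (H : ℕ) (t : ℤ) : ℂ := if 1 ≤ t ∧ t ≤ H then c t.toNat else 0

lemma ct_norm {c : ℕ → ℂ} (hc : ∀ h, ‖c h‖ ≤ 1) (H : ℕ) (t : ℤ) : ‖ct c H t‖ ≤ 1 := by
  unfold ct
  split_ifs
  · exact hc _
  · simp

lemma GM_eq (c : ℕ → ℂ) (H p M J : ℕ) (hp : 1 ≤ p) (hJ : H ≤ p * J) (h : ℕ) (hh : h ∈ Icc 1 H) (m : ℤ) :
    GM c H p M (p * m - h) = ∑ j ∈ Ioo (-(J : ℤ)) J, ct c H (h + p * j) * lM M (m + j) := by
  classical
  rw [mem_Icc] at hh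
  have hp0 : (0 : ℤ) < p := by exact_mod_cast hp
  have hJ' : (H : ℤ) ≤ p * J := by exact_mod_cast hJ
  have h1 : ∑ j ∈ Ioo (-(J : ℤ)) J, ct c H (h + p * j) * lM M (m + j) =
      ∑ j ∈ (Ioo (-(J : ℤ)) J).filter (fun j => 1 ≤ (h : ℤ) + p * j ∧ (h : ℤ) + p * j ≤ H),
        c ((h : ℤ) + p * j).toNat * lM M (m + j) := by
    rw [sum_filter]
    apply sum_congr rfl
    intro j _
    unfold ct
    split_ifs
    · rfl
    · rw [zero_mul]
  rw [h1]
  unfold GM
  symm
  apply sum_of_injOn (fun j : ℤ => ((h : ℤ) + p * j).toNat)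
  · intro j hj j' hj' he
    rw [mem_coe, mem_filter] at hj hj'
    simp only at he
    have : (h : ℤ) + p * j = h + p * j' := by omega
    have h2 : (p : ℤ) * j = p * j' := by omega
    exact mul_left_cancel₀ hp0.ne' h2
  · intro j hj
    rw [mem_coe, mem_filter] at hj
    rw [mem_coe, mem_Icc]
    simp only
    omega
  · intro h' hh' hn
    rw [mem_Icc] at hh'
    rw [if_neg]
    rintro ⟨q, hq⟩
    apply hn
    have e1 : (h' : ℤ) = h + p * (q - m) := by linarith
    refine ⟨q - m, ?_, ?_⟩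
    · rw [mem_coe, mem_filter, mem_Ioo]
      refine ⟨⟨?_, ?_⟩, by omega, by omega⟩
      · by_contra hcon
        push Not at hcon
        have : (p : ℤ) * (q - m) ≤ p * (-(J : ℤ)) := mul_le_mul_of_nonneg_left hcon hp0.le
        have e2 : (p : ℤ) * (-(J : ℤ)) = -(p * J) := by ring
        omega
      · by_contra hcon
        push Not at hcon
        have : (p : ℤ) * (J : ℤ) ≤ p * (q - m) := mul_le_mul_of_nonneg_left hcon hp0.le
        omega
    · simp only
      omega
  · intro j hj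
    rw [mem_filter] at hj
    have e1 : ((((h : ℤ) + p * j).toNat : ℕ) : ℤ) = h + p * j := by omega
    rw [e1]
    have e2 : (p : ℤ) * m - h + (h + p * j) = p * (m + j) := by ring
    rw [e2, if_pos (Dvd.intro _ rfl), Int.mul_ediv_cancel_left _ hp0.ne']

/-- the mean square as a correlation -/
lemma U_eq (c : ℕ → ℂ) (H p M : ℕ) (hp : 1 ≤ p) (ν : ℤ → ℝ) :
    ((∑ n ∈ Icc (-(H : ℤ)) (p * M), ν n * ‖GM c H p M n‖ ^ 2 : ℝ) : ℂ) =
      ∑ h ∈ Icc 1 H, ∑ m ∈ Icc 1 M, (ν (p * m - h) : ℂ) * (c h * lz m * (starRingEnd ℂ) (GM c H p M (p * m - h))) := by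
  classical
  have hp0 : (0 : ℤ) < p := by exact_mod_cast hp
  have h1 : ((∑ n ∈ Icc (-(H : ℤ)) (p * M), ν n * ‖GM c H p M n‖ ^ 2 : ℝ) : ℂ) =
      ∑ n ∈ Icc (-(H : ℤ)) (p * M), ∑ h ∈ Icc 1 H,
        (if (p : ℤ) ∣ n + h then (ν n : ℂ) * (c h * lM M ((n + h) / p) * (starRingEnd ℂ) (GM c H p M n)) else 0) := by
    rw [Complex.ofReal_sum]
    apply sum_congr rfl
    intro n _
    rw [Complex.ofReal_mul, Complex.ofReal_pow, ← Complex.mul_conj']
    have e : GM c H p M n * (starRingEnd ℂ) (GM c H p M n) = ∑ h ∈ Icc 1 H,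
        (if (p : ℤ) ∣ n + h then c h * lM M ((n + h) / p) else 0) * (starRingEnd ℂ) (GM c H p M n) := by
      rw [← sum_mul]
      rfl
    rw [e, mul_sum]
    apply sum_congr rfl
    intro h _
    split_ifs
    · ring
    · ring
  rw [h1, sum_comm]
  apply sum_congr rfl
  intro h hh
  rw [mem_Icc] at hh
  symm
  apply sum_of_injOn (fun m : ℕ => (p : ℤ) * m - h)
  · intro m _ m' _ he
    simp only at he
    have h2 : (p : ℤ) * (m : ℤ) = p * (m' : ℤ) := by omega
    exact_mod_cast mul_left_cancel₀ hp0.ne' h2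
  · intro m hm
    rw [mem_coe, mem_Icc] at hm
    rw [mem_coe, mem_Icc]
    simp only
    have h2 : (p : ℤ) * m ≤ p * M := mul_le_mul_of_nonneg_left (by exact_mod_cast hm.2) hp0.le
    have h3 : (0 : ℤ) ≤ p * m := by positivity
    omega
  · intro n _ hn
    split_ifs with hd
    · obtain ⟨q, hq⟩ := hd
      have e1 : (n + h) / (p : ℤ) = q := by rw [hq, Int.mul_ediv_cancel_left _ hp0.ne']
      rw [e1]
      have hl : lM M q = 0 := by
        by_contra hcon
        apply hn
        have h3 : 1 ≤ q ∧ q ≤ M := by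
          unfold lM at hcon
          by_cases q1 : q ≤ M
          · refine ⟨?_, q1⟩
            rw [if_pos q1] at hcon
            unfold lz Pool.Agent.H373R2.T7.exI at hcon
            by_contra q2
            rw [if_neg q2] at hcon
            exact hcon rfl
          · rw [if_neg q1] at hcon
            exact absurd rfl hcon
        refine ⟨q.toNat, ?_, ?_⟩
        · rw [mem_coe, mem_Icc]
          omega
        · simp only
          have : ((q.toNat : ℕ) : ℤ) = q := by omega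
          rw [this]
          omega
      rw [hl]
      ring
    · rfl
  · intro m hm
    rw [mem_Icc] at hm
    have e1 : (p : ℤ) * m - h + h = p * m := by ring
    rw [e1, if_pos (Dvd.intro _ rfl), Int.mul_ediv_cancel_left _ hp0.ne']
    have e2 : lM M (m : ℤ) = lz m := by
      unfold lM
      rw [if_pos (by exact_mod_cast hm.2)]
    rw [e2]

end Pool.Agent.E8helper16.SL
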