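import Mathlib
import Pool.Agent.H49.G.R_pool_sql_team_seeded_b677cdb8.E8helper16.SL.F2

set_option autoImplicit false

/-! The mean square of the sums over the multiples of the primes of a block: the bound. -/

namespace Pool.Agent.E8helper16.SL
open Finset
open Pool.Agent.H373R2.T7 (Vz Vz_pos pz mem_pz)

lemma noise_sq {ι : Type} (S : Finset ι) (E : ι → ℕ → ℝ) (D : ι → ℂ) (hD : ∀ κ, ‖D κ‖ ≤ 1) (M : ℕ) :
    ∑ m ∈ Icc 1 M, ‖∑ κ ∈ S, (E κ m : ℂ) * D κ‖ ^ 2 ≤ ∑ κ ∈ S, ∑ κ' ∈ S, |∑ m ∈ Icc 1 M, E κ m * E κ' m| := by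
  have h1 : ((∑ m ∈ Icc 1 M, ‖∑ κ ∈ S, (E κ m : ℂ) * D κ‖ ^ 2 : ℝ) : ℂ) =
      ∑ κ ∈ S, ∑ κ' ∈ S, D κ * (starRingEnd ℂ) (D κ') * ((∑ m ∈ Icc 1 M, E κ m * E κ' m : ℝ) : ℂ) := by
    rw [Complex.ofReal_sum]
    have h2 : ∀ m ∈ Icc 1 M, ((‖∑ κ ∈ S, (E κ m : ℂ) * D κ‖ ^ 2 : ℝ) : ℂ) =
        ∑ κ ∈ S, ∑ κ' ∈ S, D κ * (starRingEnd ℂ) (D κ') * ((E κ m : ℂ) * (E κ' m : ℂ)) := by
      intro m _
      rw [Complex.ofReal_pow, ← Complex.mul_conj', map_sum, sum_mul_sum]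
      apply sum_congr rfl
      intro κ _
      apply sum_congr rfl
      intro κ' _
      rw [map_mul, Complex.conj_ofReal]
      ring
    rw [sum_congr rfl h2, sum_comm]
    apply sum_congr rfl
    intro κ _
    rw [sum_comm]
    apply sum_congr rfl
    intro κ' _
    rw [← mul_sum, Complex.ofReal_sum]
    congr 1
    apply sum_congr rfl
    intro m _
    push_cast
    rfl
  have h3 : (0 : ℝ) ≤ ∑ m ∈ Icc 1 M, ‖∑ κ ∈ S, (E κ m : ℂ) * D κ‖ ^ 2 := sum_nonneg fun _ _ => by positivity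
  have h4 : ‖((∑ m ∈ Icc 1 M, ‖∑ κ ∈ S, (E κ m : ℂ) * D κ‖ ^ 2 : ℝ) : ℂ)‖ = ∑ m ∈ Icc 1 M, ‖∑ κ ∈ S, (E κ m : ℂ) * D κ‖ ^ 2 := by
    rw [Complex.norm_real, Real.norm_eq_abs, abs_of_nonneg h3]
  rw [← h4, h1]
  refine (norm_sum_le _ _).trans (sum_le_sum fun κ _ => (norm_sum_le _ _).trans (sum_le_sum fun κ' _ => ?_))
  rw [norm_mul, norm_mul, RCLike.norm_conj, Complex.norm_real, Real.norm_eq_abs]
  have h5 : ‖D κ‖ * ‖D κ'‖ ≤ 1 := mul_le_one₀ (hD κ) (norm_nonneg _) (hD κ')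
  calc ‖D κ‖ * ‖D κ'‖ * |∑ m ∈ Icc 1 M, E κ m * E κ' m| ≤ 1 * |∑ m ∈ Icc 1 M, E κ m * E κ' m| :=
        mul_le_mul_of_nonneg_right h5 (abs_nonneg _)
    _ = _ := one_mul _

lemma l1_le_l2 (M : ℕ) (F : ℕ → ℂ) (B : ℝ) (hB : ∑ m ∈ Icc 1 M, ‖F m‖ ^ 2 ≤ B) :
    ∑ m ∈ Icc 1 M, ‖F m‖ ≤ √(M * B) := by
  apply Real.le_sqrt_of_sq_le
  have h := sum_mul_sq_le_sq_mul_sq (Icc 1 M) (fun _ => (1 : ℝ)) (fun m => ‖F m‖)
  simp only [one_mul, one_pow, sum_const, Nat.card_Icc, Nat.add_sub_cancel, nsmul_eq_mul, mul_one] at h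
  exact h.trans (mul_le_mul_of_nonneg_left hB (Nat.cast_nonneg _))

lemma noise_le {ι : Type} (S : Finset ι) (E : ι → ℕ → ℝ) (D : ι → ℤ → ℂ) (hD : ∀ κ j, ‖D κ j‖ ≤ 1) (M J : ℕ) (B : ℝ)
    (hB : ∑ κ ∈ S, ∑ κ' ∈ S, |∑ m ∈ Icc 1 M, E κ m * E κ' m| ≤ B) :
    ‖∑ κ ∈ S, ∑ m ∈ Icc 1 M, ∑ j ∈ Ioo (-(J : ℤ)) J, (E κ m : ℂ) * (D κ j * (lz m * lM M (m + j)))‖ ≤
      2 * J * √(M * B) := by
  have h1 : ∑ κ ∈ S, ∑ m ∈ Icc 1 M, ∑ j ∈ Ioo (-(J : ℤ)) J, (E κ m : ℂ) * (D κ j * (lz m * lM M (m + j))) =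
      ∑ j ∈ Ioo (-(J : ℤ)) J, ∑ m ∈ Icc 1 M, (∑ κ ∈ S, (E κ m : ℂ) * D κ j) * (lz m * lM M (m + j)) := by
    rw [sum_comm]
    have : ∀ m ∈ Icc 1 M, ∑ κ ∈ S, ∑ j ∈ Ioo (-(J : ℤ)) J, (E κ m : ℂ) * (D κ j * (lz m * lM M (m + j))) =
        ∑ j ∈ Ioo (-(J : ℤ)) J, (∑ κ ∈ S, (E κ m : ℂ) * D κ j) * (lz m * lM M (m + j)) := by
      intro m _
      rw [sum_comm]
      apply sum_congr rfl
      intro j _
      rw [sum_mul]
      apply sum_congr rfl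
      intro κ _
      ring
    rw [sum_congr rfl this, sum_comm]
  rw [h1]
  have h2 : ∀ j ∈ Ioo (-(J : ℤ)) J, ‖∑ m ∈ Icc 1 M, (∑ κ ∈ S, (E κ m : ℂ) * D κ j) * (lz m * lM M (m + j))‖ ≤ √(M * B) := by
    intro j _
    refine le_trans ?_ (l1_le_l2 M (fun m => ∑ κ ∈ S, (E κ m : ℂ) * D κ j) B
      ((noise_sq S E (fun κ => D κ j) (fun κ => hD κ j) M).trans hB))
    refine (norm_sum_le _ _).trans (sum_le_sum fun m _ => ?_)
    rw [norm_mul]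
    have h3 : ‖lz m * lM M (m + j)‖ ≤ 1 := by
      rw [norm_mul]
      exact mul_le_one₀ (lz_norm _) (norm_nonneg _) (lM_norm _ _)
    exact mul_le_of_le_one_right (norm_nonneg _) h3
  refine (norm_sum_le _ _).trans ((sum_le_sum h2).trans ?_)
  rw [sum_const, nsmul_eq_mul, Int.card_Ioo]
  apply mul_le_mul_of_nonneg_right _ (Real.sqrt_nonneg _)
  have : ((J : ℤ) - -(J : ℤ) - 1).toNat ≤ 2 * J := by omega
  exact_mod_cast this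

section block
variable {f : ℕ} (s : Fin f → ℤ)

lemma nu_vanish {z p : ℕ} (hp : p ∈ pz z) {h : ℕ} {k : Fin f} (hk : (p : ℤ) ∣ s k - h) (m : ℤ) : nu s z (p * m - h) = 0 := by
  unfold nu
  rw [if_neg]
  intro hr
  apply hr p hp k
  have e : (p : ℤ) * m - h + s k = p * m + (s k - h) := by ring
  rw [e]
  exact dvd_add (Dvd.intro _ rfl) hk

/-- the mean square over the block -/
theorem U_bound (c : ℕ → ℂ) (hc : ∀ h, ‖c h‖ ≤ 1) {w z H J M : ℕ} (P : Finset ℕ) (hP : ∀ p ∈ P, p ∈ pz z)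
    (hJ : ∀ p ∈ P, H ≤ p * J) (ε₁ B : ℝ) (hε₁ : 0 ≤ ε₁)
    (hmrt : ∀ g : ℕ → ℂ, (∀ n, ‖g n‖ ≤ 1) → ∑ j ∈ Ioo (-(J : ℤ)) J, ‖∑ m ∈ Icc 1 M, g m * lM M (m + j)‖ ≤ ε₁ * J * M)
    (hB : ∑ κ ∈ KK s P H, ∑ κ' ∈ KK s P H, |Cov s κ.1 κ'.1 (κ.2 : ℤ) (κ'.2 : ℤ) M w z| ≤ B) :
    ∑ p ∈ P, ∑ n ∈ Icc (-(H : ℤ)) (p * M), nu s z n * ‖GM c H p M n‖ ^ 2 ≤
      2 * J * √(M * B) + P.card * H * (((Vz w) ^ f)⁻¹ * (ε₁ * J * M)) := by
  classical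
  obtain ⟨D, hDdef⟩ : ∃ D : ℕ × ℕ → ℤ → ℂ, D = fun κ j => c κ.2 * (starRingEnd ℂ) (ct c H (κ.2 + κ.1 * j)) := ⟨_, rfl⟩
  have hD : ∀ κ j, ‖D κ j‖ ≤ 1 := by
    intro κ j
    rw [hDdef]
    simp only
    rw [norm_mul, RCLike.norm_conj]
    exact mul_le_one₀ (hc _) (norm_nonneg _) (ct_norm hc _ _)
  -- the identity
  have h1 : ((∑ p ∈ P, ∑ n ∈ Icc (-(H : ℤ)) (p * M), nu s z n * ‖GM c H p M n‖ ^ 2 : ℝ) : ℂ) =
      ∑ κ ∈ KK s P H, ∑ m ∈ Icc 1 M, ∑ j ∈ Ioo (-(J : ℤ)) J,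
        (nu s z (κ.1 * m - κ.2) : ℂ) * (D κ j * (lz m * lM M (m + j))) := by
    rw [Complex.ofReal_sum]
    have h2 : ∀ p ∈ P, ((∑ n ∈ Icc (-(H : ℤ)) (p * M), nu s z n * ‖GM c H p M n‖ ^ 2 : ℝ) : ℂ) =
        ∑ h ∈ Icc 1 H, ∑ m ∈ Icc 1 M, ∑ j ∈ Ioo (-(J : ℤ)) J,
          (nu s z (p * m - h) : ℂ) * (D (p, h) j * (lz m * lM M (m + j))) := by
      intro p hp
      have hp1 : 1 ≤ p := (mem_pz.1 (hP p hp)).2.one_le
      rw [U_eq c H p M hp1]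
      apply sum_congr rfl
      intro h hh
      apply sum_congr rfl
      intro m _
      rw [GM_eq c H p M J hp1 (hJ p hp) h hh m, map_sum, mul_sum, mul_sum]
      apply sum_congr rfl
      intro j _
      rw [map_mul, lM_conj, hDdef]
      simp only
      ring
    rw [sum_congr rfl h2]
    have h3 := (sum_product' P (Icc 1 H) (fun p h => ∑ m ∈ Icc 1 M, ∑ j ∈ Ioo (-(J : ℤ)) J,
          (nu s z (p * m - h) : ℂ) * (D (p, h) j * (lz m * lM M (m + j))))).symm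
    rw [h3]
    unfold KK
    rw [sum_filter]
    apply sum_congr rfl
    rintro ⟨p, h⟩ hph
    rw [mem_product] at hph
    simp only
    split_ifs with hk
    · rfl
    · push Not at hk
      obtain ⟨k, hk⟩ := hk
      apply sum_eq_zero
      intro m _
      apply sum_eq_zero
      intro j _
      rw [nu_vanish s (hP p hph.1) hk]
      simp
  have h0 : (0 : ℝ) ≤ ∑ p ∈ P, ∑ n ∈ Icc (-(H : ℤ)) (p * M), nu s z n * ‖GM c H p M n‖ ^ 2 :=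
    sum_nonneg fun p _ => sum_nonneg fun n _ => mul_nonneg (nu_nonneg s z n) (by positivity)
  have h4 : ‖((∑ p ∈ P, ∑ n ∈ Icc (-(H : ℤ)) (p * M), nu s z n * ‖GM c H p M n‖ ^ 2 : ℝ) : ℂ)‖ =
      ∑ p ∈ P, ∑ n ∈ Icc (-(H : ℤ)) (p * M), nu s z n * ‖GM c H p M n‖ ^ 2 := by
    rw [Complex.norm_real, Real.norm_eq_abs, abs_of_nonneg h0]
  rw [← h4, h1]
  -- the decomposition
  have h5 : ∑ κ ∈ KK s P H, ∑ m ∈ Icc 1 M, ∑ j ∈ Ioo (-(J : ℤ)) J,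
        (nu s z (κ.1 * m - κ.2) : ℂ) * (D κ j * (lz m * lM M (m + j))) =
      ∑ κ ∈ KK s P H, ∑ m ∈ Icc 1 M, ∑ j ∈ Ioo (-(J : ℤ)) J,
        ((nu s z (κ.1 * m - κ.2) - nu s w (κ.1 * m - κ.2) : ℝ) : ℂ) * (D κ j * (lz m * lM M (m + j))) +
      ∑ κ ∈ KK s P H, ∑ m ∈ Icc 1 M, ∑ j ∈ Ioo (-(J : ℤ)) J,
        (nu s w (κ.1 * m - κ.2) : ℂ) * (D κ j * (lz m * lM M (m + j))) := by
    rw [← sum_add_distrib]
    apply sum_congr rfl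
    intro κ _
    rw [← sum_add_distrib]
    apply sum_congr rfl
    intro m _
    rw [← sum_add_distrib]
    apply sum_congr rfl
    intro j _
    push_cast
    ring
  rw [h5]
  refine (norm_add_le _ _).trans (add_le_add ?_ ?_)
  · exact noise_le (KK s P H) (fun κ m => nu s z (κ.1 * m - κ.2) - nu s w (κ.1 * m - κ.2)) D hD M J B hB
  · have hV : 0 < (Vz w) ^ f := pow_pos (Vz_pos w) f
    have h6 : ∀ κ ∈ KK s P H, ‖∑ m ∈ Icc 1 M, ∑ j ∈ Ioo (-(J : ℤ)) J,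
        (nu s w (κ.1 * m - κ.2) : ℂ) * (D κ j * (lz m * lM M (m + j)))‖ ≤ ((Vz w) ^ f)⁻¹ * (ε₁ * J * M) := by
      intro κ _
      rw [sum_comm]
      have h7 : ∀ j ∈ Ioo (-(J : ℤ)) J, ∑ m ∈ Icc 1 M, (nu s w (κ.1 * m - κ.2) : ℂ) * (D κ j * (lz m * lM M (m + j))) =
          ((((Vz w) ^ f)⁻¹ : ℝ) : ℂ) * (D κ j * ∑ m ∈ Icc 1 M, (((Vz w) ^ f * nu s w (κ.1 * m - κ.2) : ℝ) : ℂ) * lz m * lM M (m + j)) := by
        intro j _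
        rw [mul_sum, mul_sum]
        apply sum_congr rfl
        intro m _
        have e : ((((Vz w) ^ f)⁻¹ : ℝ) : ℂ) * (((Vz w) ^ f : ℝ) : ℂ) = 1 := by
          rw [← Complex.ofReal_mul, inv_mul_cancel₀ hV.ne', Complex.ofReal_one]
        rw [Complex.ofReal_mul]
        calc _ = 1 * ((nu s w (κ.1 * m - κ.2) : ℂ) * (D κ j * (lz m * lM M (m + j)))) := by ring
          _ = _ := by rw [← e]; ring
      rw [sum_congr rfl h7, ← mul_sum, norm_mul, Complex.norm_real, Real.norm_eq_abs, abs_of_pos (inv_pos.2 hV)]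
      apply mul_le_mul_of_nonneg_left _ (inv_pos.2 hV).le
      refine (norm_sum_le _ _).trans ?_
      refine le_trans (sum_le_sum fun j _ => ?_) (hmrt (fun m => (((Vz w) ^ f * nu s w (κ.1 * m - κ.2) : ℝ) : ℂ) * lz m) ?_)
      · rw [norm_mul]
        exact mul_le_of_le_one_left (norm_nonneg _) (hD κ j)
      · intro m
        rw [norm_mul, Complex.norm_real, Real.norm_eq_abs]
        apply mul_le_one₀ _ (norm_nonneg _) (lz_norm _)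
        rw [abs_of_nonneg (mul_nonneg hV.le (nu_nonneg _ _ _))]
        have := mul_le_mul_of_nonneg_left (nu_le s w (κ.1 * m - κ.2)) hV.le
        rw [mul_inv_cancel₀ hV.ne'] at this
        exact this
    refine (norm_sum_le _ _).trans ((sum_le_sum h6).trans ?_)
    rw [sum_const, nsmul_eq_mul]
    apply mul_le_mul_of_nonneg_right (card_KK s P H)
    positivity

end block

end Pool.Agent.E8helper16.SL
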