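import Mathlib
import Pool.Agent.H49.G.R_pool_sql_team_seeded_b677cdb8.E8helper16.SL.F3

set_option autoImplicit false

/-! The block estimate with the sieve weight. -/

namespace Pool.Agent.E8helper16.SL
open Finset
open Pool.Agent.H373R2.T7 (Vz Vz_pos pz mem_pz)

/-- the constant -/
noncomputable def C4 (f : ℕ) : ℝ := 2 * C3 f + 8 * (f : ℝ) ^ 2 + 6

section blockA
variable {f : ℕ} (s : Fin f → ℤ)

lemma inv_ge_one (w k : ℕ) : 1 ≤ ((Vz w) ^ k)⁻¹ := by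
  rw [one_le_inv₀ (pow_pos (Vz_pos w) k)]
  apply pow_le_one₀ (Vz_pos w).le
  rw [show Vz w = Vz w from rfl]
  have := Vz_anti (Nat.zero_le w)
  rw [Vz_zero] at this
  exact this

lemma blockB {D b x w z y K H M : ℕ} (hf : 1 ≤ f) (hs : Sep s D) (hDw : D ≤ w) (hfw : 16 * f ^ 2 ≤ w) (hfw' : 8 * f + 1 ≤ w)
    (hFL : FL f b x z) (hwz : w ≤ z) (hy : 1 ≤ y) (hCw : C2 f ≤ w) (hKy : 4 * f * K * f ^ 2 * w ≤ y) (hwb : w = 2 ^ b)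
    (P : Finset ℕ) (hP : ∀ p ∈ P, p.Prime)
    (hsize : ∀ κ ∈ KK s P H, ∀ κ' ∈ KK s P H, ∀ i j, (Dt s κ.1 κ'.1 (κ.2 : ℤ) (κ'.2 : ℤ) i j).natAbs ≤ 2 ^ K)
    (hW : 6 * (f : ℝ) ^ 2 * W0 f y ≤ H * (1 / 2 : ℝ) ^ b)
    (hR : 4 * (((Vz z) ^ (2 * f))⁻¹ * √(x : ℝ)) ≤ M * (1 / 2 : ℝ) ^ b)
    (hA : 6 * (f : ℝ) ^ 2 * ((Vz z) ^ f)⁻¹ ≤ P.card * H * (1 / 2 : ℝ) ^ b) :
    ∑ κ ∈ KK s P H, ∑ κ' ∈ KK s P H, |Cov s κ.1 κ'.1 (κ.2 : ℤ) (κ'.2 : ℤ) M w z| ≤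
      (P.card * H) ^ 2 * (M * ((C4 f + 3) * ((Vz w) ^ (2 * f))⁻¹ * (1 / 2 : ℝ) ^ b)) := by
  have h1 : ∀ κ ∈ KK s P H, ∑ κ' ∈ KK s P H, |Cov s κ.1 κ'.1 (κ.2 : ℤ) (κ'.2 : ℤ) M w z| ≤
      P.card * H * (M * ((C4 f + 3) * ((Vz w) ^ (2 * f))⁻¹ * (1 / 2 : ℝ) ^ b)) := by
    intro κ hκ
    refine (row s hf hs hDw hfw hfw' hFL hwz hy hCw hKy P hP M κ hκ (fun κ' hκ' => hsize κ hκ κ' hκ')).trans ?_
    obtain ⟨e, he⟩ : ∃ e, e = (1 / 2 : ℝ) ^ b := ⟨_, rfl⟩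
    have hw : (w : ℝ) = e⁻¹ := by rw [hwb, he]; push_cast; rw [one_div, inv_pow, inv_inv]
    have he0 : 0 < e := by rw [he]; positivity
    have he1 : e ≤ 1 := by rw [he]; exact pow_le_one₀ (by norm_num) (by norm_num)
    rw [hw, ← he]
    rw [← he] at hW hR hA
    obtain ⟨V, hV⟩ : ∃ V, V = ((Vz w) ^ f)⁻¹ := ⟨_, rfl⟩
    have hV1 : 1 ≤ V := by rw [hV]; exact inv_ge_one w f
    have hV2 : ((Vz w) ^ (2 * f))⁻¹ = V ^ 2 := by rw [hV, mul_comm 2 f, pow_mul, inv_pow]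
    rw [hV2, ← hV]
    obtain ⟨R, hRd⟩ : ∃ R, R = ((Vz z) ^ (2 * f))⁻¹ * √(x : ℝ) := ⟨_, rfl⟩
    rw [← hRd] at hR ⊢
    obtain ⟨Z, hZ⟩ : ∃ Z, Z = ((Vz z) ^ f)⁻¹ := ⟨_, rfl⟩
    rw [← hZ] at hA ⊢
    have hZ0 : 0 < Z := by rw [hZ]; exact inv_pos.2 (pow_pos (Vz_pos z) f)
    have hM0 : (0 : ℝ) ≤ M := Nat.cast_nonneg _
    have hH0 : (0 : ℝ) ≤ H := Nat.cast_nonneg _
    have hP0 : (0 : ℝ) ≤ P.card := Nat.cast_nonneg _
    obtain ⟨W, hWd⟩ : ∃ W, W = W0 f y := ⟨_, rfl⟩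
    rw [← hWd] at hW ⊢
    have e1 : (2 * C3 f + 8 * (f : ℝ) ^ 2) / e⁻¹ + 6 * e = C4 f * e := by
      unfold C4
      rw [div_inv_eq_mul]
      ring
    rw [e1]
    have hC4 : 0 ≤ C4 f := by
      unfold C4 C3
      have := C2_pos f
      positivity
    have hVV : V ≤ V ^ 2 := by nlinarith
    -- first part
    have g1 : (P.card : ℝ) * (M * V ^ 2 * (H * (C4 f * e) + 6 * (f : ℝ) ^ 2 * W) + H * (4 * R)) ≤
        P.card * (H * (M * (V ^ 2 * ((C4 f + 2) * e)))) := by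
      apply mul_le_mul_of_nonneg_left _ hP0
      have q1 : (M : ℝ) * V ^ 2 * (H * (C4 f * e) + 6 * (f : ℝ) ^ 2 * W) ≤ M * V ^ 2 * (H * (C4 f * e) + H * e) :=
        mul_le_mul_of_nonneg_left (by linarith) (by positivity)
      have q2 : (H : ℝ) * (4 * R) ≤ H * (M * e) := mul_le_mul_of_nonneg_left hR hH0
      have q3 : (H : ℝ) * (M * e) ≤ H * (M * e) * V ^ 2 := le_mul_of_one_le_right (by positivity) (by nlinarith)
      calc _ ≤ M * V ^ 2 * (H * (C4 f * e) + H * e) + H * (M * e) * V ^ 2 := by linarith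
        _ = _ := by ring
    have g2 : (f : ℝ) ^ 2 * (Z * (5 * M * V + R)) ≤ P.card * H * e * (M * V ^ 2) := by
      have q0 : R ≤ M * V := by
        have : R ≤ M * 1 := by
          have : (M : ℝ) * e ≤ M * 1 := mul_le_mul_of_nonneg_left he1 hM0
          have hR0 : 0 ≤ R := by rw [hRd]; have := (Vz_pos z).le; positivity
          linarith
        exact this.trans (mul_le_mul_of_nonneg_left hV1 hM0)
      calc (f : ℝ) ^ 2 * (Z * (5 * M * V + R)) ≤ (f : ℝ) ^ 2 * (Z * (5 * M * V + M * V)) := by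
            apply mul_le_mul_of_nonneg_left _ (by positivity)
            apply mul_le_mul_of_nonneg_left _ hZ0.le
            linarith
        _ = (6 * (f : ℝ) ^ 2 * Z) * (M * V) := by ring
        _ ≤ (P.card * H * e) * (M * V) := mul_le_mul_of_nonneg_right hA (by positivity)
        _ ≤ (P.card * H * e) * (M * V ^ 2) := by
            apply mul_le_mul_of_nonneg_left _ (by positivity)
            exact mul_le_mul_of_nonneg_left hVV hM0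
    calc _ ≤ P.card * (H * (M * (V ^ 2 * ((C4 f + 2) * e)))) + P.card * H * e * (M * V ^ 2) := add_le_add g1 g2
      _ = _ := by ring
  refine (sum_le_sum h1).trans ?_
  rw [sum_const, nsmul_eq_mul]
  have h2 : 0 ≤ (P.card : ℝ) * H * (M * ((C4 f + 3) * ((Vz w) ^ (2 * f))⁻¹ * (1 / 2 : ℝ) ^ b)) := by
    unfold C4 C3
    have := C2_pos f
    have := (Vz_pos w).le
    positivity
  calc _ ≤ (P.card * H : ℝ) * (P.card * H * (M * ((C4 f + 3) * ((Vz w) ^ (2 * f))⁻¹ * (1 / 2 : ℝ) ^ b))) :=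
        mul_le_mul_of_nonneg_right (card_KK s P H) h2
    _ = _ := by ring

/-- the sum over the multiples of `p` -/
noncomputable def Gz (c : ℕ → ℂ) (H p : ℕ) (n : ℤ) : ℂ :=
  ∑ h ∈ Icc 1 H, if (p : ℤ) ∣ n + h then c h * lz ((n + h) / p) else 0

lemma GM_eq_Gz (c : ℕ → ℂ) {H p M N : ℕ} (hp : 1 ≤ p) (hM : N + H ≤ p * M) {n : ℤ} (hn : n ≤ N) :
    GM c H p M n = Gz c H p n := by
  unfold GM Gz
  apply sum_congr rfl
  intro h hh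
  rw [mem_Icc] at hh
  split_ifs with hd
  · unfold lM
    rw [if_pos]
    obtain ⟨t, ht⟩ := hd
    have hp0 : (0 : ℤ) < p := by exact_mod_cast hp
    rw [ht, Int.mul_ediv_cancel_left _ hp0.ne']
    have hMz : (N : ℤ) + H ≤ p * M := by exact_mod_cast hM
    by_contra hc
    push Not at hc
    have h1 : (p : ℤ) * (M + 1) ≤ p * t := mul_le_mul_of_nonneg_left (by omega) hp0.le
    have hh2 : (h : ℤ) ≤ H := by exact_mod_cast hh.2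
    have h3 : (p : ℤ) * (M + 1) = p * M + p := by ring
    linarith
  · rfl

/-- the `L¹` bound over the block -/
theorem block_nu {D b x w z y K H J M N : ℕ} (hf : 1 ≤ f) (hs : Sep s D) (hDw : D ≤ w) (hfw : 16 * f ^ 2 ≤ w) (hfw' : 8 * f + 1 ≤ w)
    (hFL : FL f b x z) (hwz : w ≤ z) (hy : 1 ≤ y) (hCw : C2 f ≤ w) (hKy : 4 * f * K * f ^ 2 * w ≤ y) (hwb : w = 2 ^ b)
    (P : Finset ℕ) (hP : ∀ p ∈ P, p ∈ pz z)
    (hsize : ∀ κ ∈ KK s P H, ∀ κ' ∈ KK s P H, ∀ i j, (Dt s κ.1 κ'.1 (κ.2 : ℤ) (κ'.2 : ℤ) i j).natAbs ≤ 2 ^ K)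
    (hW : 6 * (f : ℝ) ^ 2 * W0 f y ≤ H * (1 / 2 : ℝ) ^ b)
    (hR : 4 * (((Vz z) ^ (2 * f))⁻¹ * √(x : ℝ)) ≤ M * (1 / 2 : ℝ) ^ b)
    (hA : 6 * (f : ℝ) ^ 2 * ((Vz z) ^ f)⁻¹ ≤ P.card * H * (1 / 2 : ℝ) ^ b)
    (c : ℕ → ℂ) (hc : ∀ h, ‖c h‖ ≤ 1) (hJ : ∀ p ∈ P, H ≤ p * J)
    (hmrt : ∀ g : ℕ → ℂ, (∀ n, ‖g n‖ ≤ 1) → ∑ j ∈ Ioo (-(J : ℤ)) J, ‖∑ m ∈ Icc 1 M, g m * lM M (m + j)‖ ≤ (1 / 2 : ℝ) ^ b * J * M)
    (hMN : ∀ p ∈ P, N + H ≤ p * M) (hRN : ((Vz z) ^ (2 * f))⁻¹ * √(x : ℝ) ≤ N) (T : ℝ)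
    (hT : (H : ℝ) * J * M ≤ 4 * N * T ^ 2) (hT0 : 0 ≤ T) :
    ∑ p ∈ P, ∑ n ∈ Icc 1 N, nu s z n * ‖Gz c H p n‖ ≤
      P.card * (T * N) * √(20 * ((Vz w) ^ f)⁻¹ * (2 * √((C4 f + 3) * ((Vz w) ^ (2 * f))⁻¹ * (1 / 2 : ℝ) ^ b) +
        ((Vz w) ^ f)⁻¹ * (1 / 2 : ℝ) ^ b)) := by
  classical
  obtain ⟨β, hβ⟩ : ∃ β, β = (C4 f + 3) * ((Vz w) ^ (2 * f))⁻¹ * (1 / 2 : ℝ) ^ b := ⟨_, rfl⟩
  have hC4 : 0 ≤ C4 f := by
    unfold C4 C3
    have := C2_pos f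
    positivity
  have hVw := (Vz_pos w).le
  have hβ0 : 0 ≤ β := by rw [hβ]; positivity
  have hB := blockB s hf hs hDw hfw hfw' hFL hwz hy hCw hKy hwb P (fun p hp => (mem_pz.1 (hP p hp)).2) hsize hW hR hA
  rw [← hβ] at hB ⊢
  have hU := U_bound s c hc (w := w) (z := z) (J := J) (M := M) P hP hJ ((1 / 2 : ℝ) ^ b) _ (by positivity) hmrt hB
  obtain ⟨V, hV⟩ : ∃ V, V = ((Vz w) ^ f)⁻¹ := ⟨_, rfl⟩
  obtain ⟨e, he⟩ : ∃ e, e = (1 / 2 : ℝ) ^ b := ⟨_, rfl⟩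
  rw [← hV, ← he] at hU ⊢
  have hV1 : 1 ≤ V := by rw [hV]; exact inv_ge_one w f
  have he0 : 0 < e := by rw [he]; positivity
  have hM0 : (0 : ℝ) ≤ M := Nat.cast_nonneg _
  have hJ0 : (0 : ℝ) ≤ J := Nat.cast_nonneg _
  have hN0 : (0 : ℝ) ≤ N := Nat.cast_nonneg _
  have hH0 : (0 : ℝ) ≤ H := Nat.cast_nonneg _
  have hP0 : (0 : ℝ) ≤ P.card := Nat.cast_nonneg _
  have e1 : √(M * ((P.card * H) ^ 2 * (M * β))) = P.card * H * (M * √β) := by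
    have : (M : ℝ) * ((P.card * H) ^ 2 * (M * β)) = (P.card * H * M) ^ 2 * β := by ring
    rw [this, Real.sqrt_mul (sq_nonneg _), Real.sqrt_sq (by positivity)]
    ring
  rw [e1] at hU
  have hU2 : ∑ p ∈ P, ∑ n ∈ Icc (-(H : ℤ)) (p * M), nu s z n * ‖GM c H p M n‖ ^ 2 ≤
      P.card * (4 * N * T ^ 2) * (2 * √β + V * e) := by
    have q : (0 : ℝ) ≤ 2 * √β + V * e := by positivity
    calc _ ≤ _ := hU
      _ = P.card * (H * J * M) * (2 * √β + V * e) := by ring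
      _ ≤ _ := by
        apply mul_le_mul_of_nonneg_right _ q
        exact mul_le_mul_of_nonneg_left hT hP0
  -- restriction to `1 ≤ n ≤ N`
  have h1 : ∀ p ∈ P, ∑ n ∈ Icc 1 N, nu s z n * ‖Gz c H p n‖ ^ 2 ≤
      ∑ n ∈ Icc (-(H : ℤ)) (p * M), nu s z n * ‖GM c H p M n‖ ^ 2 := by
    intro p hp
    have hMp := hMN p hp
    have h2 : ∑ n ∈ Icc 1 N, nu s z (n : ℤ) * ‖Gz c H p (n : ℤ)‖ ^ 2 =
        ∑ n ∈ (Icc 1 N).image (fun n : ℕ => (n : ℤ)), nu s z n * ‖GM c H p M n‖ ^ 2 := by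
      rw [sum_image (fun a _ b _ h => by exact_mod_cast h)]
      apply sum_congr rfl
      intro n hn
      rw [mem_Icc] at hn
      rw [GM_eq_Gz c (mem_pz.1 (hP p hp)).2.one_le hMp (by exact_mod_cast hn.2)]
    rw [h2]
    apply sum_le_sum_of_subset_of_nonneg
    · intro n hn
      rw [mem_image] at hn
      obtain ⟨m, hm, rfl⟩ := hn
      rw [mem_Icc] at hm ⊢
      constructor
      · have : (0 : ℤ) ≤ (m : ℤ) := Int.natCast_nonneg _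
        have : (0 : ℤ) ≤ (H : ℤ) := Int.natCast_nonneg _
        linarith
      · have h3 : m ≤ p * M := by omega
        exact_mod_cast h3
    · intro n _ _
      exact mul_nonneg (nu_nonneg s z n) (by positivity)
  have h3 : ∑ p ∈ P, ∑ n ∈ Icc 1 N, nu s z n * ‖Gz c H p n‖ ^ 2 ≤ P.card * (4 * N * T ^ 2) * (2 * √β + V * e) :=
    (sum_le_sum h1).trans hU2
  -- the sum of the weights
  have h4 : ∑ n ∈ Icc 1 N, nu s z (n : ℤ) ≤ 5 * N * V := by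
    have q := single_le s 1 0 hf hs hDw hfw hFL hwz (nd_one s 0) (Or.inl rfl) N
    have q2 : ∑ m ∈ Icc 1 N, nu s z (((1 : ℕ) : ℤ) * m - 0) = ∑ n ∈ Icc 1 N, nu s z (n : ℤ) := by
      apply sum_congr rfl
      intro m _
      congr 1
      push_cast
      ring
    rw [q2, ← hV] at q
    have q3 : (N : ℝ) ≤ N * V := le_mul_of_one_le_right hN0 hV1
    linarith
  have h5 : ∑ p ∈ P, ∑ n ∈ Icc 1 N, nu s z (n : ℤ) ≤ P.card * (5 * N * V) := by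
    rw [sum_const, nsmul_eq_mul]
    exact mul_le_mul_of_nonneg_left h4 hP0
  -- Cauchy-Schwarz
  have h6 : (∑ p ∈ P, ∑ n ∈ Icc 1 N, nu s z n * ‖Gz c H p n‖) ^ 2 ≤
      (∑ p ∈ P, ∑ n ∈ Icc 1 N, nu s z (n : ℤ)) * (∑ p ∈ P, ∑ n ∈ Icc 1 N, nu s z n * ‖Gz c H p n‖ ^ 2) := by
    have q := sum_mul_sq_le_sq_mul_sq (P ×ˢ Icc 1 N) (fun r => √(nu s z (r.2 : ℤ))) (fun r => √(nu s z (r.2 : ℤ)) * ‖Gz c H r.1 (r.2 : ℤ)‖)
    rw [sum_product, sum_product, sum_product] at q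
    have q1 : ∀ p n : ℕ, √(nu s z (n : ℤ)) * (√(nu s z (n : ℤ)) * ‖Gz c H p (n : ℤ)‖) = nu s z n * ‖Gz c H p n‖ := by
      intro p n
      rw [← mul_assoc, Real.mul_self_sqrt (nu_nonneg s z n)]
    have q2 : ∀ n : ℕ, √(nu s z (n : ℤ)) ^ 2 = nu s z n := fun n => Real.sq_sqrt (nu_nonneg s z n)
    simp only [q1, mul_pow, q2] at q
    exact q
  have h7 : (∑ p ∈ P, ∑ n ∈ Icc 1 N, nu s z n * ‖Gz c H p n‖) ^ 2 ≤
      (P.card * (T * N) * √(20 * V * (2 * √β + V * e))) ^ 2 := by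
    refine h6.trans ?_
    have q0 : (0 : ℝ) ≤ 20 * V * (2 * √β + V * e) := by positivity
    rw [mul_pow, Real.sq_sqrt q0]
    have q1 : 0 ≤ ∑ p ∈ P, ∑ n ∈ Icc 1 N, nu s z n * ‖Gz c H p n‖ ^ 2 :=
      sum_nonneg fun p _ => sum_nonneg fun n _ => mul_nonneg (nu_nonneg s z n) (by positivity)
    calc _ ≤ (P.card * (5 * N * V)) * (P.card * (4 * N * T ^ 2) * (2 * √β + V * e)) :=
          mul_le_mul h5 h3 q1 (by positivity)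
      _ = _ := by ring
  exact le_of_sq_le_sq' h7 (by positivity)
where
  le_of_sq_le_sq' {a b : ℝ} (h : a ^ 2 ≤ b ^ 2) (hb : 0 ≤ b) : a ≤ b := abs_le_of_sq_le_sq' h hb |>.2

end blockA

end Pool.Agent.E8helper16.SL
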