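import Mathlib
import Pool.Agent.H49.G.R_pool_sql_team_seeded_b677cdb8.E8helper16.SL.G3

set_option autoImplicit false

/-! From the sieve weight to the von Mangoldt function. -/

namespace Pool.Agent.E8helper16.SL
open Finset
open Pool.Agent.H373R2.T7 (Vz Vz_pos pz mem_pz)

/-- the von Mangoldt function on the integers -/
noncomputable def vz (m : ℤ) : ℝ := ArithmeticFunction.vonMangoldt m.toNat

lemma vz_nonneg (m : ℤ) : 0 ≤ vz m := ArithmeticFunction.vonMangoldt_nonneg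

lemma vz_le {m : ℤ} {B : ℝ} (hB : 1 ≤ B) (hm : (m : ℝ) ≤ B) : vz m ≤ Real.log B := by
  unfold vz
  rcases Nat.eq_zero_or_pos m.toNat with h | h
  · rw [h, ArithmeticFunction.map_zero]
    exact Real.log_nonneg hB
  · refine ArithmeticFunction.vonMangoldt_le_log.trans (Real.log_le_log (by exact_mod_cast h) ?_)
    have h1 : ((m.toNat : ℤ) : ℝ) = (m : ℝ) := by
      rw [Int.toNat_of_nonneg (by omega)]
    have h2 : ((m.toNat : ℕ) : ℝ) = (m : ℝ) := by rw [← h1]; norm_cast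
    rw [h2]
    exact hm

/-- the product of the von Mangoldt functions -/
noncomputable def LL {f : ℕ} (s : Fin f → ℤ) (n : ℤ) : ℝ := ∏ i, vz (n + s i)

section lam
variable {f : ℕ} (s : Fin f → ℤ)

lemma LL_nonneg (n : ℤ) : 0 ≤ LL s n := prod_nonneg fun i _ => vz_nonneg _

lemma LL_le_log {N : ℕ} (hN : 1 ≤ N) (hs : ∀ i, |s i| ≤ 2 * N) {n : ℕ} (hn : n ≤ N) : LL s n ≤ Real.log (3 * N) ^ f := by
  unfold LL
  have h1 : ∀ i ∈ (univ : Finset (Fin f)), vz (n + s i) ≤ Real.log (3 * N) := by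
    intro i _
    have hN1 : (1 : ℝ) ≤ N := by exact_mod_cast hN
    apply vz_le (by linarith)
    have h2 : (n : ℤ) + s i ≤ 3 * N := by
      have := abs_le.1 (hs i)
      have h3 : (n : ℤ) ≤ N := by exact_mod_cast hn
      omega
    exact_mod_cast h2
  refine (prod_le_prod (fun i _ => vz_nonneg _) h1).trans ?_
  rw [prod_const, card_univ, Fintype.card_fin]

open Classical in
/-- the exceptional integers -/
noncomputable def EE (z N : ℕ) : Finset ℕ := (Icc 1 N).filter (fun n => LL s n ≠ 0 ∧ ¬ Rough s z n)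

lemma card_EE {N : ℕ} (hs : ∀ i, |s i| ≤ 2 * N) (z : ℕ) : (EE s z N).card ≤ f * (z * (Nat.log 2 (3 * N) + 1)) := by
  classical
  have h1 : EE s z N ⊆ ((univ : Finset (Fin f)) ×ˢ (pz z ×ˢ range (Nat.log 2 (3 * N) + 1))).image
      (fun r => (((r.2.1 ^ r.2.2 : ℕ) : ℤ) - s r.1).toNat) := by
    intro n hn
    unfold EE at hn
    rw [mem_filter] at hn
    obtain ⟨hn1, hn2, hn3⟩ := hn
    rw [mem_Icc] at hn1
    unfold Rough at hn3
    push Not at hn3
    obtain ⟨l, hl, i, hli⟩ := hn3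
    unfold LL at hn2
    rw [prod_ne_zero_iff] at hn2
    have h2 := hn2 i (mem_univ i)
    unfold vz at h2
    rw [ArithmeticFunction.vonMangoldt_ne_zero_iff] at h2
    rw [isPrimePow_nat_iff] at h2
    obtain ⟨p, k, hp, hk, hpk⟩ := h2
    have hpos : 0 < p ^ k := pow_pos hp.pos _
    have h3 : (n : ℤ) + s i = ((p ^ k : ℕ) : ℤ) := by
      rw [hpk]
      rw [Int.toNat_of_nonneg (by omega)]
    have hlp := (mem_pz.1 hl).2
    rw [h3] at hli
    have h4 : l ∣ p ^ k := Int.natCast_dvd_natCast.1 hli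
    have h5 : l = p := (Nat.prime_dvd_prime_iff_eq hlp hp).1 (hlp.dvd_of_dvd_pow h4)
    rw [mem_image]
    refine ⟨(i, (l, k)), ?_, ?_⟩
    · rw [mem_product, mem_product, mem_range]
      refine ⟨mem_univ _, hl, ?_⟩
      rw [Nat.lt_succ_iff]
      apply Nat.le_log_of_pow_le (by norm_num)
      have h6 : p ^ k ≤ 3 * N := by
        have := abs_le.1 (hs i)
        have h7 : ((p ^ k : ℕ) : ℤ) ≤ 3 * N := by
          rw [← h3]
          omega
        exact_mod_cast h7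
      exact (Nat.pow_le_pow_left hp.two_le k).trans h6
    · simp only
      rw [h5, ← h3]
      simp
  refine (card_le_card h1).trans (card_image_le.trans ?_)
  rw [card_product, card_product, card_univ, Fintype.card_fin, card_range]
  apply Nat.mul_le_mul_left
  apply Nat.mul_le_mul_right
  unfold pz
  refine (card_filter_le _ _).trans ?_
  rw [Nat.card_Icc, Nat.add_sub_cancel]

lemma LL_le_nu {N : ℕ} (hN : 1 ≤ N) (hs : ∀ i, |s i| ≤ 2 * N) (z : ℕ) {n : ℕ} (hn : n ∈ Icc 1 N) (hE : n ∉ EE s z N) :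
    LL s n ≤ Real.log (3 * N) ^ f * (Vz z) ^ f * nu s z n := by
  classical
  have hN1 : (1 : ℝ) ≤ N := by exact_mod_cast hN
  have hlog : 0 ≤ Real.log (3 * N) := Real.log_nonneg (by linarith)
  unfold EE at hE
  rw [mem_filter] at hE
  push Not at hE
  by_cases h0 : LL s n = 0
  · rw [h0]
    have := nu_nonneg s z n
    have := (Vz_pos z).le
    positivity
  · have h1 := hE hn h0
    unfold nu
    rw [if_pos h1, mul_assoc, mul_inv_cancel₀ (pow_pos (Vz_pos z) f).ne', mul_one]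
    exact LL_le_log s hN hs (mem_Icc.1 hn).2

lemma Gz_norm (c : ℕ → ℂ) (hc : ∀ h, ‖c h‖ ≤ 1) (H p : ℕ) (n : ℤ) : ‖Gz c H p n‖ ≤ H := by
  unfold Gz
  refine (norm_sum_le _ _).trans ?_
  have h1 : ∀ h ∈ Icc 1 H, ‖(if (p : ℤ) ∣ n + h then c h * lz ((n + h) / p) else 0 : ℂ)‖ ≤ 1 := by
    intro h _
    split_ifs
    · rw [norm_mul]
      exact mul_le_one₀ (hc h) (norm_nonneg _) (lz_norm _)
    · simp
  refine (sum_le_sum h1).trans ?_
  rw [sum_const, Nat.card_Icc, Nat.add_sub_cancel, nsmul_eq_mul, mul_one]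

/-- the transfer -/
lemma transfer {N : ℕ} (hN : 1 ≤ N) (hs : ∀ i, |s i| ≤ 2 * N) (z H : ℕ) (P : Finset ℕ) (c : ℕ → ℂ) (hc : ∀ h, ‖c h‖ ≤ 1) :
    ∑ p ∈ P, ∑ n ∈ Icc 1 N, LL s n * ‖Gz c H p n‖ ≤
      (Real.log (3 * N) * Vz z) ^ f * ∑ p ∈ P, ∑ n ∈ Icc 1 N, nu s z n * ‖Gz c H p n‖ +
        P.card * (Real.log (3 * N) ^ f * (f * (z * (Nat.log 2 (3 * N) + 1)) : ℕ) * H) := by
  classical
  have hN1 : (1 : ℝ) ≤ N := by exact_mod_cast hN
  have hlog : 0 ≤ Real.log (3 * N) := Real.log_nonneg (by linarith)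
  have h1 : ∀ p ∈ P, ∑ n ∈ Icc 1 N, LL s n * ‖Gz c H p n‖ ≤
      (Real.log (3 * N) * Vz z) ^ f * ∑ n ∈ Icc 1 N, nu s z n * ‖Gz c H p n‖ +
        Real.log (3 * N) ^ f * (f * (z * (Nat.log 2 (3 * N) + 1)) : ℕ) * H := by
    intro p _
    have h2 : ∀ n ∈ Icc 1 N, LL s (n : ℤ) * ‖Gz c H p n‖ ≤ (Real.log (3 * N) * Vz z) ^ f * (nu s z n * ‖Gz c H p n‖) +
        (if n ∈ EE s z N then Real.log (3 * N) ^ f * H else 0) := by
      intro n hn
      have q0 := norm_nonneg (Gz c H p (n : ℤ))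
      have q1 := nu_nonneg s z (n : ℤ)
      have q2 := (Vz_pos z).le
      split_ifs with hE
      · have q3 : LL s (n : ℤ) * ‖Gz c H p n‖ ≤ Real.log (3 * N) ^ f * H :=
          mul_le_mul (LL_le_log s hN hs (mem_Icc.1 hn).2) (Gz_norm c hc H p n) q0 (by positivity)
        have q4 : 0 ≤ (Real.log (3 * N) * Vz z) ^ f * (nu s z n * ‖Gz c H p n‖) := by positivity
        linarith
      · rw [add_zero, mul_pow, ← mul_assoc]
        exact mul_le_mul_of_nonneg_right (LL_le_nu s hN hs z hn hE) q0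
    refine (sum_le_sum h2).trans ?_
    rw [sum_add_distrib, ← mul_sum]
    apply add_le_add le_rfl
    rw [← sum_filter, sum_const, nsmul_eq_mul]
    have h3 : (((Icc 1 N).filter (fun n => n ∈ EE s z N)).card : ℝ) ≤ (f * (z * (Nat.log 2 (3 * N) + 1)) : ℕ) := by
      have h4 : (Icc 1 N).filter (fun n => n ∈ EE s z N) ⊆ EE s z N := fun n hn => (mem_filter.1 hn).2
      exact_mod_cast (card_le_card h4).trans (card_EE s hs z)
    calc _ ≤ ((f * (z * (Nat.log 2 (3 * N) + 1)) : ℕ) : ℝ) * (Real.log (3 * N) ^ f * H) :=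
          mul_le_mul_of_nonneg_right h3 (by positivity)
      _ = _ := by ring
  refine (sum_le_sum h1).trans (le_of_eq ?_)
  rw [sum_add_distrib, ← mul_sum, sum_const, nsmul_eq_mul]

end lam

end Pool.Agent.E8helper16.SL
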