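import Mathlib
import Pool.Agent.H49.G.R_pool_sql_team_seeded_b677cdb8.E8helper16.SL.E5
import Pool.Agent.H49.G.R_seed8.H305R2.MertensE

set_option autoImplicit false

/-! Mertens bounds. -/

namespace Pool.Agent.E8helper16.SL
open Finset Filter Topology
open Pool.Agent.H373R2.T7

lemma Vz_inv_eq (N : ℕ) : ∏ p ∈ (Finset.Icc 1 N).filter Nat.Prime, (1 - (p : ℝ)⁻¹)⁻¹ = (Vz N)⁻¹ := by
  unfold Vz pz
  rw [← prod_inv_distrib]
  apply prod_congr rfl
  intro p _
  rw [one_div]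

lemma one_le_Vz_inv (N : ℕ) : 1 ≤ (Vz N)⁻¹ := (one_le_inv₀ (Vz_pos N)).2 (Vz_le_one N)

theorem mert : ∃ C : ℝ, 1 ≤ C ∧ ∀ N : ℕ, 2 ≤ N → (Vz N)⁻¹ ≤ C * Real.log N ∧ Real.log N ≤ C * (Vz N)⁻¹ := by
  have h := Pool.Agent.H305R2.mertens_three
  obtain ⟨g, hg⟩ : ∃ g, g = Real.exp Real.eulerMascheroniConstant := ⟨_, rfl⟩
  rw [← hg] at h
  have hg0 : 0 < g := by rw [hg]; exact Real.exp_pos _
  have h1 := h.eventually (Ioo_mem_nhds (show g / 2 < g by linarith) (show g < 2 * g by linarith))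
  rw [eventually_atTop] at h1
  obtain ⟨N0, h0⟩ := h1
  have hl2 : 0 < Real.log 2 := Real.log_pos (by norm_num)
  refine ⟨max (max 1 (2 * g)) (max (2 / g) (N0 / Real.log 2 + N0)), le_trans (le_max_left _ _) (le_max_left _ _), fun N hN => ?_⟩
  obtain ⟨C, hC⟩ : ∃ C, C = max (max 1 (2 * g)) (max (2 / g) (N0 / Real.log 2 + N0)) := ⟨_, rfl⟩
  rw [← hC]
  have c1 : 2 * g ≤ C := by rw [hC]; exact le_trans (le_max_right _ _) (le_max_left _ _)
  have c2 : 2 / g ≤ C := by rw [hC]; exact le_trans (le_max_left _ _) (le_max_right _ _)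
  have c3 : N0 / Real.log 2 + N0 ≤ C := by rw [hC]; exact le_trans (le_max_right _ _) (le_max_right _ _)
  have hN2 : (2 : ℝ) ≤ N := by exact_mod_cast hN
  have hlog : Real.log 2 ≤ Real.log N := Real.log_le_log (by norm_num) hN2
  have hlog0 : 0 < Real.log N := by linarith
  have hV1 := one_le_Vz_inv N
  rcases le_or_gt N0 N with h2 | h2
  · have h3 := h0 N h2
    obtain ⟨h4, h5⟩ := h3
    rw [Vz_inv_eq, lt_div_iff₀ hlog0] at h4
    rw [Vz_inv_eq, div_lt_iff₀ hlog0] at h5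
    constructor
    · refine h5.le.trans (mul_le_mul_of_nonneg_right c1 hlog0.le)
    · have h6 : Real.log N ≤ 2 / g * (Vz N)⁻¹ := by
        rw [div_mul_eq_mul_div, le_div_iff₀ hg0]
        linarith
      exact h6.trans (mul_le_mul_of_nonneg_right c2 (by linarith))
  · have hNr : (N : ℝ) ≤ N0 := by exact_mod_cast h2.le
    have hN00 : (0 : ℝ) ≤ N0 := Nat.cast_nonneg _
    constructor
    · have h3 := Vz_inv_le N (by omega)
      have h4 : (N0 : ℝ) ≤ N0 / Real.log 2 * Real.log N := by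
        rw [div_mul_eq_mul_div, le_div_iff₀ hl2]
        exact mul_le_mul_of_nonneg_left hlog hN00
      have h5 : (N0 : ℝ) / Real.log 2 * Real.log N ≤ C * Real.log N := by
        apply mul_le_mul_of_nonneg_right _ hlog0.le
        linarith
      linarith
    · have h3 : Real.log N ≤ N := (Real.log_le_sub_one_of_pos (by linarith)).trans (by linarith)
      have h4 : (N0 : ℝ) ≤ C := by
        have : (0 : ℝ) ≤ N0 / Real.log 2 := by positivity
        linarith
      nlinarith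

/-- `W0` is at most a power of `1 / Vz` -/
lemma W0_le (f : ℕ) : ∃ k : ℕ, ∀ y : ℕ, W0 f y ≤ ((Vz y)⁻¹) ^ k := by
  obtain ⟨k, hk⟩ := exists_nat_ge (C2 f)
  refine ⟨k, fun y => ?_⟩
  unfold W0 Vz
  rw [← prod_inv_distrib, ← prod_pow]
  have hC := C2_pos f
  apply Finset.prod_le_prod
  · intro l _
    positivity
  · intro l hl
    have hl2 : (2 : ℝ) ≤ l := by exact_mod_cast (mem_pz.1 hl).2.two_le
    have hx0 : 0 < 1 / (l : ℝ) := by positivity
    have hx1 : 1 / (l : ℝ) ≤ 1 / 2 := one_div_le_one_div_of_le (by norm_num) hl2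
    have h1 : 1 + 1 / (l : ℝ) ≤ (1 - 1 / (l : ℝ))⁻¹ := by
      rw [le_inv_comm₀ (by linarith) (by linarith), inv_eq_one_div, le_div_iff₀ (by linarith)]
      nlinarith
    have h2 : 1 + (k : ℝ) * (1 / l) ≤ (1 + 1 / (l : ℝ)) ^ k := one_add_mul_le_pow (by linarith) k
    calc 1 + C2 f / (l : ℝ) = 1 + C2 f * (1 / l) := by ring
      _ ≤ 1 + (k : ℝ) * (1 / l) := by
          have := mul_le_mul_of_nonneg_right hk hx0.le
          linarith
      _ ≤ (1 + 1 / (l : ℝ)) ^ k := h2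
      _ ≤ ((1 - 1 / (l : ℝ))⁻¹) ^ k := pow_le_pow_left₀ (by linarith) h1 k

end Pool.Agent.E8helper16.SL
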