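import Mathlib
import Pool.Agent.H49.G.R_pool_sql_team_seeded_b677cdb8.E8helper16.SL.G1
import Pool.Agent.H49.G.R_pool_sql_team_seeded_b677cdb8.E8helper16.SL.G2

set_option autoImplicit false

/-! The conditions of the block estimate for large `N`. -/

namespace Pool.Agent.E8helper16.SL
open Finset Filter Topology
open Pool.Agent.H373R2.T7 (Vz Vz_pos pz mem_pz)

lemma zN_ge (c0 : ℕ) (hc : 1 ≤ c0) : ∀ᶠ N : ℕ in atTop, (N : ℝ) ^ (1 / (4 * (c0 : ℝ))) ≤ zN c0 N := by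
  have hc0 : (0 : ℝ) < c0 := by exact_mod_cast (by omega : 0 < c0)
  filter_upwards [zN_log c0 hc, (zN_tendsto c0 hc).eventually_ge_atTop 1, eventually_ge_atTop 1] with N h1 h2 h3
  have hN0 : (0 : ℝ) < N := by exact_mod_cast h3
  have hz0 : (0 : ℝ) < zN c0 N := by exact_mod_cast h2
  rw [← Real.log_le_log_iff (by positivity) hz0, Real.log_rpow hN0, one_div, inv_mul_le_iff₀ (by positivity)]
  exact h1

lemma two_log_le_z (c0 : ℕ) (hc : 1 ≤ c0) (k : ℕ) : ∀ᶠ N : ℕ in atTop, 2 * Real.log N ^ k ≤ zN c0 N := by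
  have hc0 : (0 : ℝ) < c0 := by exact_mod_cast (by omega : 0 < c0)
  filter_upwards [zN_ge c0 hc, log_pow_le 2 k (1 / (4 * (c0 : ℝ))) (by positivity)] with N h1 h2
  exact h2.trans h1

lemma natlog_le {N : ℕ} (hN : 1 ≤ N) : (Nat.log 2 N : ℝ) ≤ 2 * Real.log N := by
  have hN1 : (1 : ℝ) ≤ N := by exact_mod_cast hN
  have h1 : (2 : ℝ) ^ (Nat.log 2 N) ≤ N := by exact_mod_cast Nat.pow_log_le_self 2 (by omega)
  have h2 := Real.log_le_log (by positivity) h1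
  rw [Real.log_pow] at h2
  have h3 : (1 : ℝ) / 2 ≤ Real.log 2 := by
    have := Real.log_two_gt_d9
    linarith
  have h4 : (0 : ℝ) ≤ (Nat.log 2 N : ℝ) := Nat.cast_nonneg _
  nlinarith

lemma two_pow_K (N : ℕ) (hN : 1 ≤ N) : N ^ 2 ≤ 2 ^ (2 * (Nat.log 2 N + 1)) := by
  have h1 : N < 2 ^ (Nat.log 2 N + 1) := Nat.lt_pow_succ_log_self (by norm_num) N
  calc N ^ 2 ≤ (2 ^ (Nat.log 2 N + 1)) ^ 2 := Nat.pow_le_pow_left h1.le 2
    _ = _ := by rw [← pow_mul, mul_comm]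

/-- the level of the small primes in the products -/
def yN (f b N : ℕ) : ℕ := 4 * f * (2 * (Nat.log 2 N + 1)) * f ^ 2 * 2 ^ b

lemma W0_small (f b : ℕ) (hf : 1 ≤ f) : ∀ᶠ N : ℕ in atTop,
    6 * (f : ℝ) ^ 2 * W0 f (yN f b N) ≤ √(Real.log N / 2) * (1 / 2 : ℝ) ^ b := by
  obtain ⟨C, hC1, hC⟩ := mert
  obtain ⟨k, hk⟩ := W0_le f
  filter_upwards [log_tendsto.eventually_ge_atTop (24 * (f : ℝ) ^ 3 * 2 ^ b + 3), eventually_ge_atTop 1,
    loglog_pow_le (6 * (f : ℝ) ^ 2 * (2 * C) ^ k * 2 ^ b * √2) k (1 / 2) (by norm_num)] with N h1 h2 h3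
  have hL : 24 * (f : ℝ) ^ 3 * 2 ^ b + 3 ≤ Real.log N := h1
  have hff : (0 : ℝ) ≤ 24 * (f : ℝ) ^ 3 * 2 ^ b := by positivity
  have hL3 : 3 ≤ Real.log N := by linarith
  have hy2 : 2 ≤ yN f b N := by
    unfold yN
    have : 1 ≤ f ^ 2 := Nat.one_le_pow _ _ hf
    have q : 1 ≤ 2 ^ b := Nat.one_le_pow _ _ (by norm_num)
    calc 2 ≤ 4 * 1 * (2 * (0 + 1)) * 1 * 1 := by norm_num
      _ ≤ 4 * f * (2 * (Nat.log 2 N + 1)) * f ^ 2 * 2 ^ b := by gcongr; omega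
  have hy2r : (2 : ℝ) ≤ yN f b N := by exact_mod_cast hy2
  have hyL : (yN f b N : ℝ) ≤ Real.log N ^ 2 := by
    have q1 := natlog_le h2
    have q2 : (yN f b N : ℝ) = 4 * f * (2 * ((Nat.log 2 N : ℝ) + 1)) * f ^ 2 * 2 ^ b := by unfold yN; push_cast; ring
    rw [q2]
    have q3 : 4 * (f : ℝ) * (2 * ((Nat.log 2 N : ℝ) + 1)) * f ^ 2 * 2 ^ b ≤ 4 * f * (2 * (3 * Real.log N)) * f ^ 2 * 2 ^ b := by
      gcongr
      linarith
    have q4 : 4 * (f : ℝ) * (2 * (3 * Real.log N)) * f ^ 2 * 2 ^ b = (24 * (f : ℝ) ^ 3 * 2 ^ b) * Real.log N := by ring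
    rw [q4] at q3
    nlinarith
  have hlogy : Real.log (yN f b N) ≤ 2 * Real.log (Real.log N) := by
    have := Real.log_le_log (by linarith) hyL
    rw [Real.log_pow] at this
    exact_mod_cast this
  have hV := (hC _ hy2).1
  have hV0 := one_le_Vz_inv (yN f b N)
  have hlogy0 : 0 ≤ Real.log (yN f b N) := Real.log_nonneg (by linarith)
  have h4 : W0 f (yN f b N) ≤ (2 * C) ^ k * Real.log (Real.log N) ^ k := by
    refine (hk _).trans ?_
    rw [← mul_pow]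
    apply pow_le_pow_left₀ (by linarith)
    calc _ ≤ C * Real.log (yN f b N) := hV
      _ ≤ C * (2 * Real.log (Real.log N)) := mul_le_mul_of_nonneg_left hlogy (by linarith)
      _ = _ := by ring
  have h5 : √(Real.log N / 2) = Real.log N ^ (1 / 2 : ℝ) / √2 := by
    rw [Real.sqrt_div (by linarith), Real.sqrt_eq_rpow]
  rw [h5]
  have hs2 : 0 < √(2 : ℝ) := by positivity
  have hb : (0 : ℝ) < 2 ^ b := by positivity
  have e1 : Real.log N ^ (1 / 2 : ℝ) / √2 * (1 / 2 : ℝ) ^ b = Real.log N ^ (1 / 2 : ℝ) / (√2 * 2 ^ b) := by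
    rw [one_div, inv_pow]
    field_simp
  rw [e1, le_div_iff₀ (by positivity)]
  calc 6 * (f : ℝ) ^ 2 * W0 f (yN f b N) * (√2 * 2 ^ b) ≤ 6 * (f : ℝ) ^ 2 * ((2 * C) ^ k * Real.log (Real.log N) ^ k) * (√2 * 2 ^ b) := by
        gcongr
    _ = 6 * (f : ℝ) ^ 2 * (2 * C) ^ k * 2 ^ b * √2 * Real.log (Real.log N) ^ k := by ring
    _ ≤ _ := h3

/-- the passage from the sieve weight to the von Mangoldt function costs a constant -/
lemma lam_cost (c0 : ℕ) (hc : 1 ≤ c0) {C : ℝ} (hC1 : 1 ≤ C) (hC : ∀ N : ℕ, 2 ≤ N → (Vz N)⁻¹ ≤ C * Real.log N ∧ Real.log N ≤ C * (Vz N)⁻¹) :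
    ∀ᶠ N : ℕ in atTop, Real.log (3 * N) * Vz (zN c0 N) ≤ 8 * c0 * C := by
  filter_upwards [zN_log c0 hc, (zN_tendsto c0 hc).eventually_ge_atTop 2, eventually_ge_atTop 3] with N h1 h2 h3
  have hN3 : (3 : ℝ) ≤ N := by exact_mod_cast h3
  have hVp := Vz_pos (zN c0 N)
  have h4 := (hC _ h2).2
  have h5 : Vz (zN c0 N) * Real.log (zN c0 N) ≤ C := by
    calc Vz (zN c0 N) * Real.log (zN c0 N) ≤ Vz (zN c0 N) * (C * (Vz (zN c0 N))⁻¹) := mul_le_mul_of_nonneg_left h4 hVp.le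
      _ = C := by field_simp
  have h6 : Real.log (3 * N) ≤ 2 * Real.log N := by
    have : Real.log (3 * N) ≤ Real.log (N ^ 2) := Real.log_le_log (by linarith) (by nlinarith)
    rw [Real.log_pow] at this
    exact_mod_cast this
  have hc0 : (0 : ℝ) < c0 := by exact_mod_cast (by omega : 0 < c0)
  calc Real.log (3 * N) * Vz (zN c0 N) ≤ (2 * (4 * c0 * Real.log (zN c0 N))) * Vz (zN c0 N) :=
        mul_le_mul_of_nonneg_right (by linarith) hVp.le
    _ = 8 * c0 * (Vz (zN c0 N) * Real.log (zN c0 N)) := by ring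
    _ ≤ 8 * c0 * C := mul_le_mul_of_nonneg_left h5 (by positivity)

lemma zN_sq (c0 N : ℕ) (hc : 1 ≤ c0) (hN : 1 ≤ N) : (zN c0 N : ℝ) ≤ √(N : ℝ) := by
  apply Real.le_sqrt_of_sq_le
  have h1 := zN_pow c0 N hc
  rcases Nat.eq_zero_or_pos (zN c0 N) with h0 | h0
  · rw [h0]
    have : (0 : ℝ) ≤ N := Nat.cast_nonneg _
    simpa using this
  · have h2 : (zN c0 N) ^ 2 ≤ (zN c0 N) ^ (2 * c0) := Nat.pow_le_pow_right h0 (by omega)
    exact_mod_cast h2.trans h1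

/-- the error terms -/
lemma err_cond (f b c0 M₀ : ℕ) (hf : 1 ≤ f) (hc : 1 ≤ c0) {C : ℝ} (hC1 : 1 ≤ C)
    (hC : ∀ N : ℕ, 2 ≤ N → (Vz N)⁻¹ ≤ C * Real.log N ∧ Real.log N ≤ C * (Vz N)⁻¹) :
    ∀ᶠ N : ℕ in atTop, 4 * (((Vz (zN c0 N)) ^ (2 * f))⁻¹ * √((Nat.sqrt N : ℕ) : ℝ)) * Real.log N ^ (f + 1) ≤ N * (1 / 2 : ℝ) ^ b ∧
      (Real.log (3 * N) ^ f * (f * (zN c0 N * (Nat.log 2 (3 * N) + 1)) : ℕ)) * Real.log N ^ (f + 1) ≤ N * (1 / 2 : ℝ) ^ b ∧
      (M₀ + 12 + 4 * Real.log N ^ (f + 1)) * Real.log N ^ (f + 1) ≤ N := by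
  obtain ⟨A, hA⟩ : ∃ A : ℝ, A = 4 * C ^ (2 * f) * 2 ^ b + 2 ^ f * (f * 5) * 2 ^ b + M₀ + 16 := ⟨_, rfl⟩
  filter_upwards [log_pow_le A (4 * f + 4) (1 / 2) (by norm_num), (zN_tendsto c0 hc).eventually_ge_atTop 2,
    log_tendsto.eventually_ge_atTop 1, eventually_ge_atTop 3] with N h1 h2 h3 h4
  have hL1 : 1 ≤ Real.log N := h3
  have hN3 : (3 : ℝ) ≤ N := by exact_mod_cast h4
  rw [← Real.sqrt_eq_rpow] at h1
  have hf1 : (1 : ℝ) ≤ f := by exact_mod_cast hf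
  have hM0 : (0 : ℝ) ≤ M₀ := Nat.cast_nonneg _
  have hb : (0 : ℝ) < 2 ^ b := by positivity
  have hCp : 0 ≤ C ^ (2 * f) := by positivity
  have hNs : √(N : ℝ) * √(N : ℝ) = N := Real.mul_self_sqrt (by linarith)
  have hs0 : 0 ≤ √(N : ℝ) := Real.sqrt_nonneg _
  have hs1 : 1 ≤ √(N : ℝ) := by rw [Real.one_le_sqrt]; linarith
  have hzs := zN_sq c0 N hc (by omega)
  have hz2 : (2 : ℝ) ≤ zN c0 N := by exact_mod_cast h2
  have hlogz : Real.log (zN c0 N) ≤ Real.log N := by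
    apply Real.log_le_log (by linarith)
    refine hzs.trans ?_
    nlinarith
  have hV := (hC _ h2).1
  have hVp := Vz_pos (zN c0 N)
  have hVi : 0 < (Vz (zN c0 N))⁻¹ := inv_pos.2 hVp
  have e1 : (1 / 2 : ℝ) ^ b = (2 ^ b)⁻¹ := by rw [one_div, inv_pow]
  have hLk : ∀ k ≤ 4 * f + 4, Real.log N ^ k ≤ Real.log N ^ (4 * f + 4) := fun k hk => pow_le_pow_right₀ hL1 hk
  refine ⟨?_, ?_, ?_⟩
  · have q1 : ((Vz (zN c0 N)) ^ (2 * f))⁻¹ ≤ (C * Real.log N) ^ (2 * f) := by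
      rw [← inv_pow]
      apply pow_le_pow_left₀ hVi.le
      exact hV.trans (mul_le_mul_of_nonneg_left hlogz (by linarith))
    have q2 : √((Nat.sqrt N : ℕ) : ℝ) ≤ √(N : ℝ) := by
      apply Real.sqrt_le_sqrt
      exact_mod_cast Nat.sqrt_le_self N
    rw [e1, ← div_eq_mul_inv, le_div_iff₀ hb]
    calc 4 * (((Vz (zN c0 N)) ^ (2 * f))⁻¹ * √((Nat.sqrt N : ℕ) : ℝ)) * Real.log N ^ (f + 1) * 2 ^ b ≤
          4 * ((C * Real.log N) ^ (2 * f) * √(N : ℝ)) * Real.log N ^ (f + 1) * 2 ^ b := by gcongr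
      _ = (4 * C ^ (2 * f) * 2 ^ b * Real.log N ^ (3 * f + 1)) * √(N : ℝ) := by
          rw [mul_pow, show 3 * f + 1 = 2 * f + (f + 1) by ring, pow_add]
          ring
      _ ≤ (A * Real.log N ^ (4 * f + 4)) * √(N : ℝ) := by
          apply mul_le_mul_of_nonneg_right _ hs0
          apply mul_le_mul _ (hLk _ (by omega)) (by positivity) (by rw [hA]; positivity)
          rw [hA]
          have : (0 : ℝ) ≤ 2 ^ f * (f * 5) * 2 ^ b := by positivity
          linarith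
      _ ≤ √(N : ℝ) * √(N : ℝ) := mul_le_mul_of_nonneg_right h1 hs0
      _ = N := hNs
  · have q1 : Real.log (3 * N) ≤ 2 * Real.log N := by
      have : Real.log (3 * N) ≤ Real.log (N ^ 2) := Real.log_le_log (by linarith) (by nlinarith)
      rw [Real.log_pow] at this
      exact_mod_cast this
    have q10 : 0 ≤ Real.log (3 * N) := Real.log_nonneg (by linarith)
    have q2 : (Nat.log 2 (3 * N) : ℝ) + 1 ≤ 5 * Real.log N := by
      have := natlog_le (N := 3 * N) (by omega)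
      push_cast at this
      linarith
    rw [e1, ← div_eq_mul_inv, le_div_iff₀ hb]
    push_cast
    calc Real.log (3 * N) ^ f * (f * (zN c0 N * ((Nat.log 2 (3 * N) : ℝ) + 1))) * Real.log N ^ (f + 1) * 2 ^ b ≤
          (2 * Real.log N) ^ f * (f * (√(N : ℝ) * (5 * Real.log N))) * Real.log N ^ (f + 1) * 2 ^ b := by gcongr
      _ = (2 ^ f * (f * 5) * 2 ^ b * Real.log N ^ (2 * f + 2)) * √(N : ℝ) := by
          have e2 : Real.log N ^ (2 * f + 2) = Real.log N ^ f * (Real.log N ^ (f + 1) * Real.log N) := by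
            rw [← pow_succ, ← pow_add]
            congr 1
            ring
          rw [mul_pow, e2]
          ring
      _ ≤ (A * Real.log N ^ (4 * f + 4)) * √(N : ℝ) := by
          apply mul_le_mul_of_nonneg_right _ hs0
          apply mul_le_mul _ (hLk _ (by omega)) (by positivity) (by rw [hA]; positivity)
          rw [hA]
          have : (0 : ℝ) ≤ 4 * C ^ (2 * f) * 2 ^ b := by positivity
          linarith
      _ ≤ √(N : ℝ) * √(N : ℝ) := mul_le_mul_of_nonneg_right h1 hs0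
      _ = N := hNs
  · have q1 : 1 ≤ Real.log N ^ (f + 1) := one_le_pow₀ hL1
    calc (M₀ + 12 + 4 * Real.log N ^ (f + 1)) * Real.log N ^ (f + 1) ≤
          (M₀ * Real.log N ^ (f + 1) + 12 * Real.log N ^ (f + 1) + 4 * Real.log N ^ (f + 1)) * Real.log N ^ (f + 1) := by
            gcongr
            · exact le_mul_of_one_le_right hM0 q1
            · linarith
      _ = (M₀ + 16) * Real.log N ^ (2 * f + 2) := by
            rw [show 2 * f + 2 = (f + 1) + (f + 1) by ring, pow_add]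
            ring
      _ ≤ A * Real.log N ^ (4 * f + 4) := by
          apply mul_le_mul _ (hLk _ (by omega)) (by positivity) (by rw [hA]; positivity)
          rw [hA]
          have : (0 : ℝ) ≤ 4 * C ^ (2 * f) * 2 ^ b + 2 ^ f * (f * 5) * 2 ^ b := by positivity
          linarith
      _ ≤ √(N : ℝ) := h1
      _ ≤ √(N : ℝ) * √(N : ℝ) := le_mul_of_one_le_left hs0 hs1
      _ = N := hNs

end Pool.Agent.E8helper16.SL
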