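import Mathlib
import Pool.Agent.H49.G.R_pool_sql_team_seeded_b677cdb8.E8helper16.SL.G4
import Pool.Agent.H49.G.R_pool_sql_team_seeded_b677cdb8.E8helper16.SL.G5

set_option autoImplicit false

/-! The block estimate. -/

namespace Pool.Agent.E8helper16.SL
open Finset Filter Topology
open Pool.Agent.H373R2.T7 (Vz Vz_pos pz mem_pz)

theorem block (f : ℕ) (hf : 1 ≤ f) (D : ℕ) (ε : ℝ) (hε : 0 < ε) : ∃ A : ℝ, 1 ≤ A ∧ ∃ N₀ J₀ : ℕ, ∀ N : ℕ, N₀ ≤ N →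
    ∀ (H q J : ℕ) (P : Finset ℕ), 1 ≤ q → q ≤ H → (H : ℝ) ≤ Real.log N ^ (f + 1) →
      (∀ p ∈ P, p.Prime ∧ q ≤ p ∧ p ≤ 2 * q) → H ≤ q * J → q * J ≤ 2 * H → J₀ ≤ J →
      A * Real.log N ^ f ≤ P.card * H →
      ∀ s : Fin f → ℤ, Sep s D → (∀ i, |s i| ≤ 2 * N) → ∀ c : ℕ → ℂ, (∀ h, ‖c h‖ ≤ 1) →
      ∑ p ∈ P, ∑ n ∈ Icc 1 N, LL s n * ‖Gz c H p n‖ ≤ ε * (P.card * ((H : ℝ) / q * N)) := by
  classical
  obtain ⟨C0, hC01, hFLex⟩ := fl_exists f hf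
  obtain ⟨C, hC1, hC⟩ := mert
  have hC4 : 0 ≤ C4 f := by
    unfold C4 C3
    have := C2_pos f
    positivity
  have hC0r : (0 : ℝ) ≤ C0 := Nat.cast_nonneg _
  have herr := err_tendsto f (128 * C0 * C) C (C4 f + 3) (by positivity) (by positivity) (by positivity)
  have h2b : Tendsto (fun b : ℕ => (2 : ℝ) ^ b) atTop atTop := tendsto_pow_atTop_atTop_of_one_lt (by norm_num)
  obtain ⟨b, hberr, hbC0, hb1, hb2⟩ := ((herr.eventually (gt_mem_nhds hε)).and ((eventually_ge_atTop C0).and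
    ((eventually_ge_atTop 1).and (h2b.eventually_ge_atTop (D + 16 * (f : ℝ) ^ 2 + (8 * f + 1) + C2 f))))).exists
  obtain ⟨x0, hx0⟩ := hFLex b hbC0
  obtain ⟨J₀, M₀, hmrt⟩ := mrt ((1 / 2 : ℝ) ^ b) (by positivity)
  obtain ⟨c0, hc0⟩ : ∃ c0, c0 = 16 * (C0 * b) := ⟨_, rfl⟩
  have hc01 : 1 ≤ c0 := by
    rw [hc0]
    have : 1 ≤ C0 * b := Nat.mul_pos hC01 hb1
    omega
  have hC2 := C2_pos f
  have hff0 : (0 : ℝ) ≤ (f : ℝ) ^ 2 := by positivity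
  have hf0 : (0 : ℝ) ≤ f := Nat.cast_nonneg _
  have hf1 : (1 : ℝ) ≤ f := by exact_mod_cast hf
  have hD0 : (0 : ℝ) ≤ D := Nat.cast_nonneg _
  have hb2' : (D : ℝ) + 16 * (f : ℝ) ^ 2 + (8 * f + 1) + C2 f ≤ 2 ^ b := hb2
  have w1 : D ≤ 2 ^ b := by
    have : (D : ℝ) ≤ ((2 ^ b : ℕ) : ℝ) := by push_cast; linarith
    exact_mod_cast this
  have w2 : 16 * f ^ 2 ≤ 2 ^ b := by
    have : ((16 * f ^ 2 : ℕ) : ℝ) ≤ ((2 ^ b : ℕ) : ℝ) := by push_cast; linarith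
    exact_mod_cast this
  have w3 : 8 * f + 1 ≤ 2 ^ b := by
    have : ((8 * f + 1 : ℕ) : ℝ) ≤ ((2 ^ b : ℕ) : ℝ) := by push_cast; linarith
    exact_mod_cast this
  have w4 : C2 f ≤ ((2 ^ b : ℕ) : ℝ) := by push_cast; linarith
  refine ⟨6 * (f : ℝ) ^ 2 * C ^ f * 2 ^ b + 1, by
    have : (0 : ℝ) ≤ 6 * (f : ℝ) ^ 2 * C ^ f * 2 ^ b := by positivity
    linarith, ?_⟩
  have hall := (((zN_tendsto c0 hc01).eventually_ge_atTop (x0 + 2 ^ b + 2)).and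
    ((two_log_le_z c0 hc01 (f + 1)).and ((W0_small f b hf).and ((lam_cost c0 hc01 hC1 hC).and
    ((err_cond f b c0 M₀ hf hc01 hC1 hC).and ((log_tendsto.eventually_ge_atTop 1).and (eventually_ge_atTop 3)))))))
  rw [eventually_atTop] at hall
  obtain ⟨N₀, hall⟩ := hall
  refine ⟨N₀, J₀, fun N hN H q J P hq hqH hHL hP hJ1 hJ2 hJ0 hAP s hs hsN c hc => ?_⟩
  obtain ⟨hz, h2, h3, h4, ⟨h5a, h5b, h5c⟩, hL1, hN3⟩ := hall N hN
  obtain ⟨z, hzd⟩ : ∃ z, z = zN c0 N := ⟨_, rfl⟩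
  rw [← hzd] at hz h2 h4 h5a h5b
  obtain ⟨L, hL⟩ : ∃ L, L = Real.log N := ⟨_, rfl⟩
  rw [← hL] at hHL hAP h2 h3 h5a h5b h5c hL1
  have hN3r : (3 : ℝ) ≤ N := by exact_mod_cast hN3
  have hN0 : (0 : ℝ) < N := by linarith
  have hLf : 1 ≤ L ^ (f + 1) := one_le_pow₀ hL1
  have hLf0 : 0 < L ^ (f + 1) := by linarith
  have hM0c : (0 : ℝ) ≤ M₀ := Nat.cast_nonneg _
  have hqr : (1 : ℝ) ≤ q := by exact_mod_cast hq
  have hq0 : (0 : ℝ) < q := by linarith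
  have hqHr : (q : ℝ) ≤ H := by exact_mod_cast hqH
  have hqL : (q : ℝ) ≤ L ^ (f + 1) := hqHr.trans hHL
  -- bounds for L^(f+1)
  have h12 : 12 * L ^ (f + 1) ≤ N := by
    have : 12 * L ^ (f + 1) ≤ (M₀ + 12 + 4 * L ^ (f + 1)) * L ^ (f + 1) := by
      apply mul_le_mul_of_nonneg_right _ hLf0.le
      linarith
    linarith
  have h12H : 12 * H ≤ N := by
    have : ((12 * H : ℕ) : ℝ) ≤ N := by push_cast; linarith
    exact_mod_cast this
  have h12q : 12 * q ≤ N := by omega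
  obtain ⟨M, hM⟩ : ∃ M, M = (N + H) / q + 1 := ⟨_, rfl⟩
  have hqM : N + H < q * M := by rw [hM]; exact Nat.lt_mul_div_succ _ (by omega)
  have hqM2 : q * M ≤ 2 * N := by
    have : q * ((N + H) / q) ≤ N + H := Nat.mul_div_le _ _
    have h6 : q * M = q * ((N + H) / q) + q := by rw [hM]; ring
    omega
  have hqMr : (N : ℝ) ≤ q * M := by
    have : N ≤ q * M := by omega
    exact_mod_cast this
  have hqM2r : (q : ℝ) * M ≤ 2 * N := by exact_mod_cast hqM2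
  have hM0 : (0 : ℝ) ≤ M := Nat.cast_nonneg _
  have hNLM : (N : ℝ) ≤ L ^ (f + 1) * M := hqMr.trans (mul_le_mul_of_nonneg_right hqL hM0)
  have hMlow : M₀ + 12 + 4 * L ^ (f + 1) ≤ M := by
    have : (M₀ + 12 + 4 * L ^ (f + 1)) * L ^ (f + 1) ≤ M * L ^ (f + 1) := by
      rw [mul_comm (M : ℝ)]
      exact h5c.trans hNLM
    exact le_of_mul_le_mul_right this hLf0
  have hM₀ : M₀ ≤ M := by
    have : (M₀ : ℝ) ≤ M := by linarith
    exact_mod_cast this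
  have hJM : 2 * J ≤ M := by
    have g1 : J ≤ q * J := Nat.le_mul_of_pos_left J (by omega)
    have g2 : ((2 * J : ℕ) : ℝ) ≤ M := by
      have : ((2 * J : ℕ) : ℝ) ≤ ((4 * H : ℕ) : ℝ) := by exact_mod_cast (by omega : 2 * J ≤ 4 * H)
      push_cast at this ⊢
      linarith
    exact_mod_cast g2
  -- the fundamental lemma
  have hzx : z ^ c0 ≤ Nat.sqrt N := by
    rw [Nat.le_sqrt, ← pow_add, ← two_mul, hzd]
    exact zN_pow c0 N hc01
  rw [hc0] at hzx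
  have hFL : FL f b (Nat.sqrt N) z := hx0 (Nat.sqrt N) z (by omega) hzx
  have hwz : 2 ^ b ≤ z := by omega
  have hPz : ∀ p ∈ P, p ∈ pz z := by
    intro p hp
    obtain ⟨g1, g2, g3⟩ := hP p hp
    rw [mem_pz]
    refine ⟨?_, g1⟩
    have : (p : ℝ) ≤ z := by
      have : ((p : ℕ) : ℝ) ≤ ((2 * q : ℕ) : ℝ) := by exact_mod_cast g3
      push_cast at this
      linarith
    exact_mod_cast this
  have hpcard : P.card ≤ 2 * H := by
    have : P ⊆ Icc q (2 * q) := fun p hp => mem_Icc.2 ⟨(hP p hp).2.1, (hP p hp).2.2⟩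
    have := card_le_card this
    rw [Nat.card_Icc] at this
    omega
  have hHlow : √(L / 2) ≤ H := by
    have g1 : L / 2 ≤ (H : ℝ) ^ 2 := by
      have g2 : L ≤ L ^ f := le_self_pow₀ hL1 (by omega)
      have g3 : (1 : ℝ) * L ^ f ≤ (6 * (f : ℝ) ^ 2 * C ^ f * 2 ^ b + 1) * L ^ f := by
        apply mul_le_mul_of_nonneg_right _ (by positivity)
        have : (0 : ℝ) ≤ 6 * (f : ℝ) ^ 2 * C ^ f * 2 ^ b := by positivity
        linarith
      have g4 : (P.card : ℝ) * H ≤ 2 * H * H := by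
        apply mul_le_mul_of_nonneg_right _ (Nat.cast_nonneg _)
        exact_mod_cast hpcard
      nlinarith
    calc √(L / 2) ≤ √((H : ℝ) ^ 2) := Real.sqrt_le_sqrt g1
      _ = H := Real.sqrt_sq (Nat.cast_nonneg _)
  have he0 : (0 : ℝ) < (1 / 2 : ℝ) ^ b := by positivity
  have he1 : (1 / 2 : ℝ) ^ b ≤ 1 := pow_le_one₀ (by norm_num) (by norm_num)
  have heb : (1 / 2 : ℝ) ^ b * 2 ^ b = 1 := by rw [← mul_pow]; norm_num
  have hR : 4 * (((Vz z) ^ (2 * f))⁻¹ * √((Nat.sqrt N : ℕ) : ℝ)) ≤ M * (1 / 2 : ℝ) ^ b := by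
    have g1 : 4 * (((Vz z) ^ (2 * f))⁻¹ * √((Nat.sqrt N : ℕ) : ℝ)) * L ^ (f + 1) ≤ (M * (1 / 2 : ℝ) ^ b) * L ^ (f + 1) := by
      refine h5a.trans ?_
      calc (N : ℝ) * (1 / 2 : ℝ) ^ b ≤ (L ^ (f + 1) * M) * (1 / 2 : ℝ) ^ b := mul_le_mul_of_nonneg_right hNLM he0.le
        _ = _ := by ring
    exact le_of_mul_le_mul_right g1 hLf0
  have hR0 : 0 ≤ ((Vz z) ^ (2 * f))⁻¹ * √((Nat.sqrt N : ℕ) : ℝ) := by
    have := (Vz_pos z).le
    positivity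
  have hRN : ((Vz z) ^ (2 * f))⁻¹ * √((Nat.sqrt N : ℕ) : ℝ) ≤ N := by
    have g1 : (N : ℝ) * (1 / 2 : ℝ) ^ b ≤ N := mul_le_of_le_one_right hN0.le he1
    have g2 : 4 * (((Vz z) ^ (2 * f))⁻¹ * √((Nat.sqrt N : ℕ) : ℝ)) * 1 ≤
        4 * (((Vz z) ^ (2 * f))⁻¹ * √((Nat.sqrt N : ℕ) : ℝ)) * L ^ (f + 1) := mul_le_mul_of_nonneg_left hLf (by positivity)
    linarith
  have hzN : (z : ℝ) ≤ N := by
    have g1 := zN_sq c0 N hc01 (by omega)
    rw [← hzd] at g1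
    refine g1.trans ?_
    rw [Real.sqrt_le_left (by linarith)]
    nlinarith
  have hz2 : 2 ≤ z := by omega
  have hVzL : (Vz z)⁻¹ ≤ C * L := by
    refine (hC z hz2).1.trans ?_
    apply mul_le_mul_of_nonneg_left _ (by linarith)
    rw [hL]
    apply Real.log_le_log _ hzN
    exact_mod_cast (by omega : 0 < z)
  have hA : 6 * (f : ℝ) ^ 2 * ((Vz z) ^ f)⁻¹ ≤ P.card * H * (1 / 2 : ℝ) ^ b := by
    have g1 : ((Vz z) ^ f)⁻¹ ≤ (C * L) ^ f := by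
      rw [← inv_pow]
      exact pow_le_pow_left₀ (inv_pos.2 (Vz_pos z)).le hVzL f
    calc 6 * (f : ℝ) ^ 2 * ((Vz z) ^ f)⁻¹ ≤ 6 * (f : ℝ) ^ 2 * (C * L) ^ f := mul_le_mul_of_nonneg_left g1 (by positivity)
      _ = (6 * (f : ℝ) ^ 2 * C ^ f * 2 ^ b * L ^ f) * (1 / 2 : ℝ) ^ b := by
          rw [mul_pow]
          calc _ = 6 * (f : ℝ) ^ 2 * (C ^ f * L ^ f) * ((1 / 2 : ℝ) ^ b * 2 ^ b) := by rw [heb]; ring
            _ = _ := by ring
      _ ≤ (P.card * H) * (1 / 2 : ℝ) ^ b := by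
          apply mul_le_mul_of_nonneg_right _ he0.le
          refine le_trans ?_ hAP
          have : 0 ≤ L ^ f := by positivity
          linarith
  have hsize : ∀ κ ∈ KK s P H, ∀ κ' ∈ KK s P H, ∀ i j,
      (Dt s κ.1 κ'.1 (κ.2 : ℤ) (κ'.2 : ℤ) i j).natAbs ≤ 2 ^ (2 * (Nat.log 2 N + 1)) := by
    intro κ hκ κ' hκ' i j
    refine le_trans ?_ (two_pow_K N (by omega))
    rw [mem_KK] at hκ hκ'
    obtain ⟨⟨a1, a2⟩, _⟩ := hκ
    obtain ⟨⟨b1, b2⟩, _⟩ := hκ'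
    rw [mem_Icc] at a2 b2
    have a3 := (hP _ a1).2.2
    have b3 := (hP _ b1).2.2
    have si := abs_le.1 (hsN i)
    have sj := abs_le.1 (hsN j)
    have key : |Dt s κ.1 κ'.1 (κ.2 : ℤ) (κ'.2 : ℤ) i j| ≤ (N : ℤ) ^ 2 := by
      unfold Dt
      refine (abs_sub _ _).trans ?_
      rw [abs_mul, abs_mul, Nat.abs_cast, Nat.abs_cast]
      have c1 : |s j - (κ'.2 : ℤ)| ≤ 3 * N := by
        rw [abs_le]
        constructor <;> omega
      have c2 : |s i - (κ.2 : ℤ)| ≤ 3 * N := by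
        rw [abs_le]
        constructor <;> omega
      have c3 : (κ.1 : ℤ) ≤ 2 * q := by exact_mod_cast a3
      have c4 : (κ'.1 : ℤ) ≤ 2 * q := by exact_mod_cast b3
      calc (κ.1 : ℤ) * |s j - (κ'.2 : ℤ)| + κ'.1 * |s i - (κ.2 : ℤ)| ≤ (2 * q) * (3 * N) + (2 * q) * (3 * N) := by
            apply add_le_add
            · exact mul_le_mul c3 c1 (abs_nonneg _) (by positivity)
            · exact mul_le_mul c4 c2 (abs_nonneg _) (by positivity)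
        _ = (12 * q) * N := by ring
        _ ≤ N * N := by
            apply mul_le_mul_of_nonneg_right _ (by positivity)
            exact_mod_cast h12q
        _ = (N : ℤ) ^ 2 := by ring
    have : ((Dt s κ.1 κ'.1 (κ.2 : ℤ) (κ'.2 : ℤ) i j).natAbs : ℤ) ≤ ((N ^ 2 : ℕ) : ℤ) := by
      rw [Int.natCast_natAbs]
      push_cast
      exact key
    exact_mod_cast this
  have hW : 6 * (f : ℝ) ^ 2 * W0 f (yN f b N) ≤ H * (1 / 2 : ℝ) ^ b :=
    h3.trans (mul_le_mul_of_nonneg_right hHlow he0.le)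
  have hy : 1 ≤ yN f b N := by
    unfold yN
    have : 0 < f ^ 2 := by positivity
    have : 0 < 4 * f * (2 * (Nat.log 2 N + 1)) * f ^ 2 * 2 ^ b := by positivity
    omega
  obtain ⟨T, hTd⟩ : ∃ T : ℝ, T = (H : ℝ) / q := ⟨_, rfl⟩
  have hH0 : (0 : ℝ) ≤ H := Nat.cast_nonneg _
  have hT0 : 0 ≤ T := by rw [hTd]; positivity
  have hTq : T * q = H := by rw [hTd]; field_simp
  have hT : (H : ℝ) * J * M ≤ 4 * N * T ^ 2 := by
    have g1 : (q : ℝ) * J ≤ 2 * H := by exact_mod_cast hJ2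
    have g2 : (H : ℝ) * J * M * q ^ 2 ≤ (4 * N * T ^ 2) * q ^ 2 := by
      calc (H : ℝ) * J * M * q ^ 2 = H * (q * J) * (q * M) := by ring
        _ ≤ H * (2 * H) * (2 * N) := by gcongr
        _ = 4 * N * (T * q) ^ 2 := by rw [hTq]; ring
        _ = _ := by ring
    exact le_of_mul_le_mul_right g2 (by positivity)
  have main := block_nu s (x := Nat.sqrt N) (z := z) (y := yN f b N) (K := 2 * (Nat.log 2 N + 1)) (M := M) (J := J) (N := N) (H := H)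
    (w := 2 ^ b) hf hs w1 w2 w3 hFL hwz hy w4 (le_of_eq rfl) rfl P hPz hsize hW hR hA c hc
    (fun p hp => hJ1.trans (Nat.mul_le_mul_right _ (hP p hp).2.1)) (fun g hg => hmrt M J hM₀ hJ0 hJM g hg)
    (fun p hp => hqM.le.trans (Nat.mul_le_mul_right _ (hP p hp).2.1)) hRN T hT hT0
  have tr := transfer s (N := N) (by omega) hsN z H P c hc
  -- the numerical bound
  obtain ⟨V, hV⟩ : ∃ V, V = ((Vz (2 ^ b)) ^ f)⁻¹ := ⟨_, rfl⟩
  have hVV : ((Vz (2 ^ b)) ^ (2 * f))⁻¹ = V ^ 2 := by rw [hV, mul_comm 2 f, pow_mul, inv_pow]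
  have hV1 : 1 ≤ V := by rw [hV]; exact inv_ge_one _ f
  have hVb : V ≤ (C * b) ^ f := by
    rw [hV, ← inv_pow]
    apply pow_le_pow_left₀ (inv_pos.2 (Vz_pos _)).le
    have g1 : 2 ≤ 2 ^ b := by
      calc 2 = 2 ^ 1 := by norm_num
        _ ≤ 2 ^ b := Nat.pow_le_pow_right (by norm_num) hb1
    refine (hC _ g1).1.trans ?_
    apply mul_le_mul_of_nonneg_left _ (by linarith)
    push_cast
    rw [Real.log_pow]
    have : Real.log 2 ≤ 1 := by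
      have := Real.log_two_lt_d9
      linarith
    exact mul_le_of_le_one_right (Nat.cast_nonneg _) this
  rw [hVV, ← hV] at main
  have hCb : (0 : ℝ) ≤ (C * b) ^ f := by positivity
  have hsq : √(20 * V * (2 * √((C4 f + 3) * V ^ 2 * (1 / 2 : ℝ) ^ b) + V * (1 / 2 : ℝ) ^ b)) ≤
      √(20 * (C * b) ^ f * (2 * √((C4 f + 3) * (C * b) ^ (2 * f) * (1 / 2 : ℝ) ^ b) + (C * b) ^ f * (1 / 2 : ℝ) ^ b)) := by
    apply Real.sqrt_le_sqrt
    have g1 : V ^ 2 ≤ (C * b) ^ (2 * f) := by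
      rw [mul_comm 2 f, pow_mul]
      exact pow_le_pow_left₀ (by linarith) hVb 2
    have g2 : √((C4 f + 3) * V ^ 2 * (1 / 2 : ℝ) ^ b) ≤ √((C4 f + 3) * (C * b) ^ (2 * f) * (1 / 2 : ℝ) ^ b) := by
      apply Real.sqrt_le_sqrt
      gcongr
    gcongr
  obtain ⟨S, hSd⟩ : ∃ S, S = √(20 * (C * b) ^ f * (2 * √((C4 f + 3) * (C * b) ^ (2 * f) * (1 / 2 : ℝ) ^ b) + (C * b) ^ f * (1 / 2 : ℝ) ^ b)) := ⟨_, rfl⟩
  rw [← hSd] at hsq
  have hS0 : 0 ≤ S := by rw [hSd]; exact Real.sqrt_nonneg _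
  have hberr' : (128 * C0 * C * b) ^ f * S + (1 / 2 : ℝ) ^ b < ε := by rw [hSd]; exact hberr
  have hP0 : (0 : ℝ) ≤ P.card := Nat.cast_nonneg _
  have main2 : ∑ p ∈ P, ∑ n ∈ Icc 1 N, nu s z n * ‖Gz c H p n‖ ≤ P.card * (T * N) * S :=
    main.trans (mul_le_mul_of_nonneg_left hsq (by positivity))
  have hcost : (Real.log (3 * N) * Vz z) ^ f ≤ (128 * C0 * C * b) ^ f := by
    apply pow_le_pow_left₀
    · have : 0 ≤ Real.log (3 * N) := Real.log_nonneg (by linarith)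
      have := (Vz_pos z).le
      positivity
    · refine h4.trans (le_of_eq ?_)
      rw [hc0]
      push_cast
      ring
  have hnu0 : 0 ≤ ∑ p ∈ P, ∑ n ∈ Icc 1 N, nu s z n * ‖Gz c H p n‖ :=
    sum_nonneg fun p _ => sum_nonneg fun n _ => mul_nonneg (nu_nonneg s z n) (norm_nonneg _)
  obtain ⟨E, hE⟩ : ∃ E, E = Real.log (3 * N) ^ f * (f * (z * (Nat.log 2 (3 * N) + 1)) : ℕ) := ⟨_, rfl⟩
  rw [← hE] at tr h5b
  have hE0 : 0 ≤ E := by
    rw [hE]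
    have : 0 ≤ Real.log (3 * N) := Real.log_nonneg (by linarith)
    positivity
  have hEH : E * H ≤ T * N * (1 / 2 : ℝ) ^ b := by
    calc E * H = E * q * T := by rw [← hTq]; ring
      _ ≤ E * L ^ (f + 1) * T := by gcongr
      _ ≤ (N * (1 / 2 : ℝ) ^ b) * T := mul_le_mul_of_nonneg_right h5b hT0
      _ = _ := by ring
  have hTN : 0 ≤ T * N := by positivity
  rw [← hTd]
  calc _ ≤ _ := tr
    _ ≤ (128 * C0 * C * b) ^ f * (P.card * (T * N) * S) + P.card * (T * N * (1 / 2 : ℝ) ^ b) := by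
        apply add_le_add
        · exact mul_le_mul hcost main2 hnu0 (by positivity)
        · exact mul_le_mul_of_nonneg_left hEH hP0
    _ = (P.card * (T * N)) * ((128 * C0 * C * b) ^ f * S + (1 / 2 : ℝ) ^ b) := by ring
    _ ≤ (P.card * (T * N)) * ε := mul_le_mul_of_nonneg_left hberr'.le (by positivity)
    _ = _ := by ring

end Pool.Agent.E8helper16.SL
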