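import Mathlib
import Pool.Agent.H49.G.R_pool_sql_team_seeded_b677cdb8.E8helper16.SL.G3

set_option autoImplicit false

/-! The Turan-Kubilius inequality on short intervals. -/

namespace Pool.Agent.E8helper16.SL
open Finset

lemma cnt_dvd (d n H : ℕ) (hd : 1 ≤ d) :
    |((((Icc 1 H).filter (fun h => d ∣ n + h)).card : ℕ) : ℝ) - H / d| ≤ 1 := by
  have h1 : ((Icc 1 H).filter (fun h => d ∣ n + h)).card = (n + H) / d - n / d := by
    have h2 : ((Icc 1 H).filter (fun h => d ∣ n + h)).card + n / d = (n + H) / d := by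
      rw [← Nat.Ioc_filter_dvd_card_eq_div n d, ← Nat.Ioc_filter_dvd_card_eq_div (n + H) d]
      have h3 : ((Ioc 0 (n + H)).filter (fun x => d ∣ x)) =
          ((Icc 1 H).filter (fun h => d ∣ n + h)).image (fun h => n + h) ∪ (Ioc 0 n).filter (fun x => d ∣ x) := by
        ext x
        simp only [mem_union, mem_image, mem_filter, mem_Ioc, mem_Icc]
        constructor
        · rintro ⟨⟨a1, a2⟩, a3⟩
          rcases Nat.lt_or_ge n x with h | h
          · left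
            exact ⟨x - n, ⟨⟨by omega, by omega⟩, by rw [Nat.add_sub_cancel' h.le]; exact a3⟩, Nat.add_sub_cancel' h.le⟩
          · right
            exact ⟨⟨a1, h⟩, a3⟩
        · rintro (⟨h, ⟨⟨a1, a2⟩, a3⟩, rfl⟩ | ⟨⟨a1, a2⟩, a3⟩)
          · exact ⟨⟨by omega, by omega⟩, a3⟩
          · exact ⟨⟨a1, by omega⟩, a3⟩
      have hdis : Disjoint (((Icc 1 H).filter (fun h => d ∣ n + h)).image (fun h => n + h)) ((Ioc 0 n).filter (fun x => d ∣ x)) := by
        rw [disjoint_left]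
        intro x
        simp only [mem_image, mem_filter, mem_Ioc, mem_Icc]
        rintro ⟨h, ⟨⟨a1, a2⟩, a3⟩, rfl⟩ ⟨⟨b1, b2⟩, b3⟩
        omega
      rw [h3, card_union_of_disjoint hdis, card_image_of_injective _ (fun a b h => by simpa using h)]
    omega
  rw [h1]
  have hd0 : (0 : ℝ) < d := by exact_mod_cast hd
  have h4 : n / d ≤ (n + H) / d := Nat.div_le_div_right (by omega)
  rw [Nat.cast_sub h4]
  have a1 : (((n + H) / d : ℕ) : ℝ) ≤ ((n + H : ℕ) : ℝ) / d := Nat.cast_div_le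
  have a2 : ((n / d : ℕ) : ℝ) ≤ (n : ℝ) / d := Nat.cast_div_le
  have a3 : ((n + H : ℕ) : ℝ) / d < (((n + H) / d : ℕ) : ℝ) + 1 := by
    rw [div_lt_iff₀ hd0]
    have := Nat.lt_mul_div_succ (n + H) hd
    have h5 : ((n + H : ℕ) : ℝ) < ((d * ((n + H) / d + 1) : ℕ) : ℝ) := by exact_mod_cast this
    push_cast at h5 ⊢
    linarith
  have a4 : (n : ℝ) / d < ((n / d : ℕ) : ℝ) + 1 := by
    rw [div_lt_iff₀ hd0]
    have := Nat.lt_mul_div_succ n hd
    have h5 : ((n : ℕ) : ℝ) < ((d * (n / d + 1) : ℕ) : ℝ) := by exact_mod_cast this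
    push_cast at h5 ⊢
    linarith
  have e : ((n + H : ℕ) : ℝ) / d = (n : ℝ) / d + H / d := by push_cast; ring
  rw [e] at a1 a3
  rw [abs_le]
  constructor <;> linarith

/-- the number of the prime divisors in `P` -/
noncomputable def om (P : Finset ℕ) (m : ℕ) : ℝ := ∑ p ∈ P, if p ∣ m then 1 else 0

/-- the sum of the reciprocals -/
noncomputable def RP (P : Finset ℕ) : ℝ := ∑ p ∈ P, 1 / (p : ℝ)

lemma RP_nonneg (P : Finset ℕ) : 0 ≤ RP P := sum_nonneg fun p _ => by positivity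

lemma RP_le (P : Finset ℕ) (hP : ∀ p ∈ P, 1 ≤ p) : RP P ≤ P.card := by
  unfold RP
  have h1 : ∀ p ∈ P, 1 / (p : ℝ) ≤ 1 := by
    intro p hp
    have : (1 : ℝ) ≤ p := by exact_mod_cast hP p hp
    rw [div_le_one (by linarith)]
    exact this
  refine (sum_le_sum h1).trans ?_
  rw [sum_const, nsmul_eq_mul, mul_one]

lemma sum_ind (n H d : ℕ) : ∑ h ∈ Icc 1 H, (if d ∣ n + h then (1 : ℝ) else 0) =
    ((((Icc 1 H).filter (fun h => d ∣ n + h)).card : ℕ) : ℝ) := by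
  rw [← sum_filter, sum_const, nsmul_eq_mul, mul_one]

theorem tk (P : Finset ℕ) (hP : ∀ p ∈ P, p.Prime) (n H : ℕ) :
    ∑ h ∈ Icc 1 H, (om P (n + h) - RP P) ^ 2 ≤ H * RP P + 3 * (P.card : ℝ) ^ 2 := by
  classical
  have hP1 : ∀ p ∈ P, 1 ≤ p := fun p hp => (hP p hp).one_le
  have hR0 := RP_nonneg P
  have hRc := RP_le P hP1
  have hc0 : (0 : ℝ) ≤ P.card := Nat.cast_nonneg _
  have hH0 : (0 : ℝ) ≤ H := Nat.cast_nonneg _
  -- the first moment
  have m1 : H * RP P - P.card ≤ ∑ h ∈ Icc 1 H, om P (n + h) := by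
    unfold om
    rw [sum_comm]
    have h1 : ∀ p ∈ P, H * (1 / (p : ℝ)) - 1 ≤ ∑ h ∈ Icc 1 H, (if p ∣ n + h then (1 : ℝ) else 0) := by
      intro p hp
      rw [sum_ind]
      have := (abs_le.1 (cnt_dvd p n H (hP1 p hp))).1
      have e : (H : ℝ) * (1 / p) = H / p := by ring
      rw [e]
      linarith
    refine le_trans (le_of_eq ?_) (sum_le_sum h1)
    rw [sum_sub_distrib, ← mul_sum, sum_const, nsmul_eq_mul, mul_one]
    rfl
  -- the second moment
  have m2 : ∑ h ∈ Icc 1 H, om P (n + h) ^ 2 ≤ H * RP P ^ 2 + H * RP P + (P.card : ℝ) ^ 2 := by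
    have h1 : ∑ h ∈ Icc 1 H, om P (n + h) ^ 2 = ∑ p ∈ P, ∑ p' ∈ P, ∑ h ∈ Icc 1 H,
        ((if p ∣ n + h then (1 : ℝ) else 0) * (if p' ∣ n + h then 1 else 0)) := by
      unfold om
      have h2 : ∀ h ∈ Icc 1 H, (∑ p ∈ P, if p ∣ n + h then (1 : ℝ) else 0) ^ 2 =
          ∑ p ∈ P, ∑ p' ∈ P, ((if p ∣ n + h then (1 : ℝ) else 0) * (if p' ∣ n + h then 1 else 0)) := by
        intro h _
        rw [pow_two, sum_mul_sum]
      rw [sum_congr rfl h2, sum_comm]
      apply sum_congr rfl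
      intro p _
      rw [sum_comm]
    rw [h1]
    have h3 : ∀ p ∈ P, ∀ p' ∈ P, ∑ h ∈ Icc 1 H, ((if p ∣ n + h then (1 : ℝ) else 0) * (if p' ∣ n + h then 1 else 0)) ≤
        H * (1 / (p : ℝ)) * (1 / p') + 1 + (if p = p' then H * (1 / (p : ℝ)) else 0) := by
      intro p hp p' hp'
      have hp0 : (0 : ℝ) < p := by exact_mod_cast (hP1 p hp)
      have hp0' : (0 : ℝ) < p' := by exact_mod_cast (hP1 p' hp')
      by_cases hpp : p = p'
      · rw [if_pos hpp, ← hpp]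
        have h4 : ∀ h ∈ Icc 1 H, ((if p ∣ n + h then (1 : ℝ) else 0) * (if p ∣ n + h then 1 else 0)) = if p ∣ n + h then (1 : ℝ) else 0 := by
          intro h _
          split_ifs <;> simp
        rw [sum_congr rfl h4, sum_ind]
        have := (abs_le.1 (cnt_dvd p n H (hP1 p hp))).2
        have e : (H : ℝ) * (1 / p) = H / p := by ring
        have e2 : 0 ≤ H * (1 / (p : ℝ)) * (1 / p) := by positivity
        rw [e] at e2 ⊢
        linarith
      · rw [if_neg hpp, add_zero]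
        have h4 : ∀ h ∈ Icc 1 H, ((if p ∣ n + h then (1 : ℝ) else 0) * (if p' ∣ n + h then 1 else 0)) =
            if p * p' ∣ n + h then (1 : ℝ) else 0 := by
          intro h _
          have hcop : Nat.Coprime p p' := (Nat.coprime_primes (hP p hp) (hP p' hp')).2 hpp
          by_cases q1 : p ∣ n + h
          · by_cases q2 : p' ∣ n + h
            · rw [if_pos q1, if_pos q2, if_pos (hcop.mul_dvd_of_dvd_of_dvd q1 q2), mul_one]
            · rw [if_pos q1, if_neg q2, if_neg (fun q => q2 ((dvd_mul_left _ _).trans q)), mul_zero]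
          · rw [if_neg q1, if_neg (fun q => q1 ((dvd_mul_right _ _).trans q)), zero_mul]
        rw [sum_congr rfl h4, sum_ind]
        have := (abs_le.1 (cnt_dvd (p * p') n H (Nat.mul_pos (hP1 p hp) (hP1 p' hp')))).2
        have e : (H : ℝ) * (1 / p) * (1 / p') = H / ((p * p' : ℕ) : ℝ) := by
          push_cast
          field_simp
        rw [e]
        linarith
    refine (sum_le_sum fun p hp => sum_le_sum fun p' hp' => h3 p hp p' hp').trans (le_of_eq ?_)
    have h5 : ∀ p ∈ P, ∑ p' ∈ P, (H * (1 / (p : ℝ)) * (1 / p') + 1 + (if p = p' then H * (1 / (p : ℝ)) else 0)) =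
        H * (1 / (p : ℝ)) * RP P + P.card + H * (1 / (p : ℝ)) := by
      intro p hp
      rw [sum_add_distrib, sum_add_distrib, ← mul_sum, sum_const, nsmul_eq_mul, mul_one, sum_ite_eq, if_pos hp]
      rfl
    rw [sum_congr rfl h5, sum_add_distrib, sum_add_distrib, ← sum_mul, ← mul_sum, sum_const, nsmul_eq_mul]
    unfold RP
    ring
  have h6 : ∑ h ∈ Icc 1 H, (om P (n + h) - RP P) ^ 2 =
      ∑ h ∈ Icc 1 H, om P (n + h) ^ 2 - 2 * RP P * ∑ h ∈ Icc 1 H, om P (n + h) + H * RP P ^ 2 := by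
    rw [mul_sum, ← sum_sub_distrib]
    have : (H : ℝ) * RP P ^ 2 = ∑ h ∈ Icc 1 H, RP P ^ 2 := by
      rw [sum_const, Nat.card_Icc, Nat.add_sub_cancel, nsmul_eq_mul]
    rw [this, ← sum_add_distrib]
    apply sum_congr rfl
    intro h _
    ring
  rw [h6]
  have h7 : 2 * RP P * (H * RP P - P.card) ≤ 2 * RP P * ∑ h ∈ Icc 1 H, om P (n + h) :=
    mul_le_mul_of_nonneg_left m1 (by linarith)
  nlinarith

lemma lz_nat (m : ℕ) (hm : 1 ≤ m) : lz (m : ℤ) = (-1 : ℂ) ^ (ArithmeticFunction.cardFactors m) := by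
  unfold lz Pool.Agent.H373R2.T7.exI Pool.Agent.H373R2.T7.liR
  rw [if_pos (by exact_mod_cast hm), Int.toNat_natCast]

lemma lz_mul {p m : ℕ} (hp : p.Prime) (hm : 1 ≤ m) : lz ((p * m : ℕ) : ℤ) = - lz (m : ℤ) := by
  rw [lz_nat _ (Nat.mul_pos hp.pos hm), lz_nat _ hm, ArithmeticFunction.cardFactors_mul hp.ne_zero (by omega),
    ArithmeticFunction.cardFactors_apply_prime hp, pow_add, pow_one, neg_one_mul]

lemma Gz_eq (c : ℕ → ℂ) {p : ℕ} (hp : p.Prime) (H n : ℕ) :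
    Gz c H p n = - ∑ h ∈ Icc 1 H, (if p ∣ n + h then (1 : ℂ) else 0) * (c h * lz ((n + h : ℕ) : ℤ)) := by
  unfold Gz
  rw [← sum_neg_distrib]
  apply sum_congr rfl
  intro h hh
  rw [mem_Icc] at hh
  have e : ((p : ℤ) ∣ (n : ℤ) + h) ↔ p ∣ n + h := by exact_mod_cast Int.natCast_dvd_natCast
  by_cases hd : p ∣ n + h
  · rw [if_pos (e.2 hd), if_pos hd, one_mul]
    obtain ⟨m, hm⟩ := hd
    have hm1 : 1 ≤ m := by
      rcases Nat.eq_zero_or_pos m with h0 | h0
      · rw [h0, mul_zero] at hm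
        omega
      · exact h0
    have hp0 : (p : ℤ) ≠ 0 := by exact_mod_cast hp.ne_zero
    have e2 : ((n : ℤ) + h) / p = (m : ℤ) := by
      have : (n : ℤ) + h = p * m := by exact_mod_cast hm
      rw [this, Int.mul_ediv_cancel_left _ hp0]
    rw [e2, hm, lz_mul hp hm1]
    ring
  · rw [if_neg (fun q => hd (e.1 q)), if_neg hd, zero_mul, neg_zero]

/-- the sum over a window is controlled by the sums over the multiples of the primes of `P` -/
theorem S_le (c : ℕ → ℂ) (hc : ∀ h, ‖c h‖ ≤ 1) (P : Finset ℕ) (hP : ∀ p ∈ P, p.Prime) (n H : ℕ) :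
    RP P * ‖∑ h ∈ Icc 1 H, c h * lz ((n + h : ℕ) : ℤ)‖ ≤ √(H * (H * RP P + 3 * (P.card : ℝ) ^ 2)) + ∑ p ∈ P, ‖Gz c H p n‖ := by
  classical
  have hR0 := RP_nonneg P
  have h1 : (RP P : ℂ) * ∑ h ∈ Icc 1 H, c h * lz ((n + h : ℕ) : ℤ) =
      ∑ h ∈ Icc 1 H, ((RP P - om P (n + h) : ℝ) : ℂ) * (c h * lz ((n + h : ℕ) : ℤ)) - ∑ p ∈ P, Gz c H p n := by
    have h2 : ∑ p ∈ P, Gz c H p n = - ∑ h ∈ Icc 1 H, ((om P (n + h) : ℝ) : ℂ) * (c h * lz ((n + h : ℕ) : ℤ)) := by
      rw [sum_congr rfl (fun p hp => Gz_eq c (hP p hp) H n), sum_neg_distrib, sum_comm]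
      congr 1
      apply sum_congr rfl
      intro h _
      rw [← sum_mul]
      congr 1
      unfold om
      rw [Complex.ofReal_sum]
      apply sum_congr rfl
      intro p _
      split_ifs <;> simp
    rw [h2, sub_neg_eq_add, ← sum_add_distrib, mul_sum]
    apply sum_congr rfl
    intro h _
    push_cast
    ring
  have h3 : RP P * ‖∑ h ∈ Icc 1 H, c h * lz ((n + h : ℕ) : ℤ)‖ = ‖(RP P : ℂ) * ∑ h ∈ Icc 1 H, c h * lz ((n + h : ℕ) : ℤ)‖ := by
    rw [norm_mul, Complex.norm_real, Real.norm_eq_abs, abs_of_nonneg hR0]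
  rw [h3, h1]
  refine (norm_sub_le _ _).trans (add_le_add ?_ (norm_sum_le _ _))
  have h4 : ‖∑ h ∈ Icc 1 H, ((RP P - om P (n + h) : ℝ) : ℂ) * (c h * lz ((n + h : ℕ) : ℤ))‖ ≤
      ∑ h ∈ Icc 1 H, |om P (n + h) - RP P| := by
    refine (norm_sum_le _ _).trans (sum_le_sum fun h _ => ?_)
    rw [norm_mul, Complex.norm_real, Real.norm_eq_abs, abs_sub_comm, norm_mul]
    exact mul_le_of_le_one_right (abs_nonneg _) (mul_le_one₀ (hc h) (norm_nonneg _) (lz_norm _))
  refine h4.trans ?_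
  apply Real.le_sqrt_of_sq_le
  have h5 := sum_mul_sq_le_sq_mul_sq (Icc 1 H) (fun _ => (1 : ℝ)) (fun h => |om P (n + h) - RP P|)
  simp only [one_mul, one_pow, sum_const, Nat.card_Icc, Nat.add_sub_cancel, nsmul_eq_mul, mul_one, sq_abs] at h5
  exact h5.trans (mul_le_mul_of_nonneg_left (tk P hP n H) (Nat.cast_nonneg _))

end Pool.Agent.E8helper16.SL
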