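import Mathlib
import Pool.Agent.H49.G.R_pool_sql_team_seeded_b677cdb8.E8helper16.SL.H3

set_option autoImplicit false

/-! The `L¹` bound for sums over windows: the theorem. -/

namespace Pool.Agent.E8helper16.SL
open Finset Filter Topology
open Pool.Agent.H373R2.T7 (Vz Vz_pos pz mem_pz)

/-- the sum over the blocks -/
lemma blocks_sum (P : Finset ℕ) (i0 i1 : ℕ) (hi0 : 2 ≤ i0) (hP : ∀ p ∈ P, p.Prime ∧ i0 ≤ Nat.log 2 p ∧ Nat.log 2 p ≤ i1)
    (F : ℕ → ℝ) (a b : ℝ) (ha : 0 ≤ a) (hb : 0 ≤ b)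
    (hF : ∀ i ∈ Icc i0 i1, ∑ p ∈ P with Nat.log 2 p = i, F p ≤ a * (((P.filter (fun p => Nat.log 2 p = i)).card : ℝ) / 2 ^ i) + b / (i : ℝ) ^ 2) :
    ∑ p ∈ P, F p ≤ a * (2 * RP P) + b / ((i0 : ℝ) - 1) := by
  have hmaps : ∀ p ∈ P, Nat.log 2 p ∈ Icc i0 i1 := fun p hp => mem_Icc.2 (hP p hp).2
  rw [← sum_fiberwise_of_maps_to hmaps]
  refine (sum_le_sum hF).trans ?_
  rw [sum_add_distrib, ← mul_sum]
  apply add_le_add
  · apply mul_le_mul_of_nonneg_left _ ha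
    unfold RP
    rw [← sum_fiberwise_of_maps_to hmaps, mul_sum]
    apply sum_le_sum
    intro i _
    rw [mul_sum, div_eq_mul_one_div, ← nsmul_eq_mul, ← sum_const]
    apply sum_le_sum
    intro p hp
    rw [mem_filter] at hp
    have hp0 := (hP p hp.1).1.pos
    have h1 : p < 2 ^ (i + 1) := by
      rw [← hp.2]
      exact Nat.lt_pow_succ_log_self (by norm_num) p
    have h2 : (p : ℝ) ≤ 2 * 2 ^ i := by
      have : (p : ℝ) ≤ ((2 ^ (i + 1) : ℕ) : ℝ) := by exact_mod_cast h1.le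
      push_cast at this
      rw [pow_succ] at this
      linarith
    have hp0r : (0 : ℝ) < p := by exact_mod_cast hp0
    rw [mul_one_div, div_le_div_iff₀ (by positivity) hp0r]
    linarith
  · have h3 : ∀ i ∈ Icc i0 i1, b / (i : ℝ) ^ 2 = b * (1 / (i : ℝ) ^ 2) := fun i _ => by ring
    rw [sum_congr rfl h3, ← mul_sum]
    have h4 := sum_inv_sq (s := Icc i0 i1) (w := i0 - 1) (by omega) (fun l hl => by rw [mem_Icc] at hl; omega)
    have h5 : (((i0 - 1 : ℕ)) : ℝ) = (i0 : ℝ) - 1 := by rw [Nat.cast_sub (by omega)]; norm_num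
    rw [h5] at h4
    rw [div_eq_mul_one_div]
    exact mul_le_mul_of_nonneg_left h4 hb

theorem core (f : ℕ) (hf : 1 ≤ f) (D : ℕ) (ε : ℝ) (hε : 0 < ε) : ∃ η : ℝ, 0 < η ∧ η ≤ 1 / 2 ∧ ∃ N₀ : ℕ, ∀ N : ℕ, N₀ ≤ N →
    ∀ H : ℕ, Real.log N ^ ((f : ℝ) - η) ≤ H → (H : ℝ) ≤ Real.log N ^ (f + 1) →
      ∀ s : Fin f → ℤ, Sep s D → (∀ i, |s i| ≤ 2 * N) → ∀ c : ℕ → ℂ, (∀ h, ‖c h‖ ≤ 1) →
      ∑ n ∈ Icc 1 N, LL s n * ‖∑ h ∈ Icc 1 H, c h * lz ((n + h : ℕ) : ℤ)‖ ≤ ε * (H * N) := by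
  classical
  obtain ⟨C6, hC6, hsum⟩ := LL_sum f hf D
  obtain ⟨N₁, hsum⟩ := hsum 1 one_pos
  obtain ⟨C, hC1, hC⟩ := mert
  obtain ⟨A, hA1, N₂, J₀, hblock⟩ := block f hf D (ε / 6) (by positivity)
  obtain ⟨Lm, hLm⟩ : ∃ Lm : ℝ, Lm = 18 * C6 ^ 2 / ε ^ 2 + 1 := ⟨_, rfl⟩
  have hLm1 : 1 ≤ Lm := by rw [hLm]; have : 0 ≤ 18 * C6 ^ 2 / ε ^ 2 := by positivity
                           linarith
  obtain ⟨R, hR⟩ := exists_nat_ge (C ^ 2 * Real.exp (2 * Lm) + 1)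
  have hCe : 0 < C ^ 2 * Real.exp (2 * Lm) := by positivity
  have hR1 : 1 ≤ R := by
    have : (1 : ℝ) ≤ R := by linarith
    exact_mod_cast this
  have hR0 : (0 : ℝ) < R := by exact_mod_cast (by omega : 0 < R)
  obtain ⟨I₁, hI₁⟩ := quad_exp A
  obtain ⟨I₂, hI₂⟩ := exists_nat_ge (6 * C6 / ε + 3)
  obtain ⟨N₃, hN₃⟩ := eventually_atTop.1 (params R (I₁ + I₂ + 2) hR1 (J₀ : ℝ))
  obtain ⟨N₄, hN₄⟩ := eventually_atTop.1 (log_tendsto.eventually_ge_atTop 1)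
  have hη0 : (0 : ℝ) < 1 / (10 * (R : ℝ)) := by positivity
  have hη2 : 1 / (10 * (R : ℝ)) ≤ 1 / 2 := by
    apply one_div_le_one_div_of_le (by norm_num)
    have : (1 : ℝ) ≤ R := by exact_mod_cast hR1
    linarith
  refine ⟨1 / (10 * (R : ℝ)), hη0, hη2, N₁ + N₂ + N₃ + N₄ + 3, fun N hN H hH1 hH2 s hs hsN c hc => ?_⟩
  obtain ⟨i0, i1, p1, p2, p3, p4, p5, p6, p7⟩ := hN₃ N (by omega)
  obtain ⟨x, hx⟩ : ∃ x, x = Real.log N := ⟨_, rfl⟩
  have hx1 : 1 ≤ x := by rw [hx]; exact hN₄ N (by omega)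
  rw [← hx] at hH1 hH2 p3 p4 p5 p6 p7
  have hx0 : 0 < x := by linarith
  have hf1 : (1 : ℝ) ≤ f := by exact_mod_cast hf
  have hHx : x ^ (1 / 2 : ℝ) ≤ H := by
    refine le_trans ?_ hH1
    apply Real.rpow_le_rpow_of_exponent_le hx1
    linarith
  have hH0 : (0 : ℝ) < H := lt_of_lt_of_le (by positivity) hHx
  have hN0 : (0 : ℝ) < N := by exact_mod_cast (by omega : 0 < N)
  obtain ⟨P, hPd⟩ : ∃ P, P = mid (2 ^ i0) (2 ^ i1) := ⟨_, rfl⟩
  have hi01 : i0 ≤ i1 := (Nat.le_mul_of_pos_right i0 (by omega)).trans p2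
  have hPp : ∀ p ∈ P, p.Prime := fun p hp => by
    rw [hPd, mem_mid] at hp
    exact hp.2.2
  have hPlog : ∀ p ∈ P, i0 ≤ Nat.log 2 p ∧ Nat.log 2 p ≤ i1 := by
    intro p hp
    rw [hPd, mem_mid] at hp
    constructor
    · exact Nat.le_log_of_pow_le (by norm_num) hp.1.le
    · have := Nat.log_mono_right (b := 2) hp.2.1
      rwa [Nat.log_pow (by norm_num)] at this
  -- the sum of the reciprocals
  obtain ⟨RPP, hRPP⟩ : ∃ RPP, RPP = RP P := ⟨_, rfl⟩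
  have hRP : Lm ≤ RPP := by
    have h1 := RP_mid hC1 hC (X := 2 ^ i0) (Y := 2 ^ i1) (by
      calc 2 = 2 ^ 1 := by norm_num
        _ ≤ 2 ^ i0 := Nat.pow_le_pow_right (by norm_num) (by omega)) (Nat.pow_le_pow_right (by norm_num) hi01)
    rw [← hPd, ← hRPP] at h1
    push_cast at h1
    rw [Real.log_pow, Real.log_pow] at h1
    have hi0r : (0 : ℝ) < i0 := by exact_mod_cast (by omega : 0 < i0)
    have hl2 : 0 < Real.log 2 := Real.log_pos (by norm_num)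
    have h2 : Real.exp (2 * Lm) ≤ (i1 : ℝ) * Real.log 2 / (C ^ 2 * (i0 * Real.log 2)) := by
      rw [le_div_iff₀ (by positivity)]
      have h3 : (i0 : ℝ) * R ≤ i1 := by exact_mod_cast p2
      calc Real.exp (2 * Lm) * (C ^ 2 * (i0 * Real.log 2)) = (i0 * (C ^ 2 * Real.exp (2 * Lm))) * Real.log 2 := by ring
        _ ≤ (i0 * R) * Real.log 2 := by
            apply mul_le_mul_of_nonneg_right _ hl2.le
            apply mul_le_mul_of_nonneg_left _ hi0r.le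
            linarith
        _ ≤ i1 * Real.log 2 := mul_le_mul_of_nonneg_right h3 hl2.le
    have h4 := Real.log_le_log (Real.exp_pos _) h2
    rw [Real.log_exp] at h4
    linarith
  have hRP1 : 1 ≤ RPP := hLm1.trans hRP
  -- the number of the primes
  have hcard : (P.card : ℝ) ≤ x ^ (1 / 5 : ℝ) := by
    refine le_trans ?_ p4
    have h1 : P ⊆ Icc 1 (2 ^ i1) := fun p hp => by
      rw [hPd, mem_mid] at hp
      exact mem_Icc.2 ⟨hp.2.2.one_le, hp.2.1⟩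
    have h2 := card_le_card h1
    rw [Nat.card_Icc, Nat.add_sub_cancel] at h2
    exact_mod_cast h2
  have hcard2 : 3 * (P.card : ℝ) ^ 2 ≤ H * RPP := by
    calc 3 * (P.card : ℝ) ^ 2 ≤ 3 * (x ^ (1 / 5 : ℝ)) ^ 2 := by gcongr
      _ ≤ x ^ (1 / 2 : ℝ) := p5
      _ ≤ H := hHx
      _ ≤ H * RPP := le_mul_of_one_le_right hH0.le hRP1
  -- the pointwise bound
  have hpt : ∀ n ∈ Icc 1 N, RPP * (LL s n * ‖∑ h ∈ Icc 1 H, c h * lz ((n + h : ℕ) : ℤ)‖) ≤
      H * √(2 * RPP) * LL s n + ∑ p ∈ P, LL s n * ‖Gz c H p n‖ := by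
    intro n _
    have h1 := S_le c hc P hPp n H
    rw [← hRPP] at h1
    have h2 : √(H * (H * RPP + 3 * (P.card : ℝ) ^ 2)) ≤ H * √(2 * RPP) := by
      have : H * √(2 * RPP) = √((H : ℝ) ^ 2 * (2 * RPP)) := by
        rw [Real.sqrt_mul (sq_nonneg (H : ℝ)) (2 * RPP), Real.sqrt_sq hH0.le]
      rw [this]
      apply Real.sqrt_le_sqrt
      have := mul_le_mul_of_nonneg_left hcard2 hH0.le
      calc (H : ℝ) * (H * RPP + 3 * (P.card : ℝ) ^ 2) = H * (H * RPP) + H * (3 * (P.card : ℝ) ^ 2) := by ring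
        _ ≤ H * (H * RPP) + H * (H * RPP) := by linarith
        _ = _ := by ring
    have h3 := mul_le_mul_of_nonneg_left (h1.trans (add_le_add h2 le_rfl)) (LL_nonneg s (n : ℤ))
    rw [← mul_sum]
    calc RPP * (LL s n * ‖∑ h ∈ Icc 1 H, c h * lz ((n + h : ℕ) : ℤ)‖) =
          LL s n * (RPP * ‖∑ h ∈ Icc 1 H, c h * lz ((n + h : ℕ) : ℤ)‖) := by ring
      _ ≤ _ := h3
      _ = _ := by ring
  have hLLN : ∑ n ∈ Icc 1 N, LL s n ≤ C6 * N := hsum N (by omega) N (by rw [one_mul]) le_rfl s hs hsN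
  have hLL0 : 0 ≤ ∑ n ∈ Icc 1 N, LL s n := sum_nonneg fun n _ => LL_nonneg s n
  -- the blocks
  have hJ0r : (0 : ℝ) ≤ J₀ := Nat.cast_nonneg _
  have hbl : ∀ i ∈ Icc i0 i1, ∑ p ∈ P with Nat.log 2 p = i, ∑ n ∈ Icc 1 N, LL s n * ‖Gz c H p n‖ ≤
      (ε / 6 * (H * N)) * (((P.filter (fun p => Nat.log 2 p = i)).card : ℝ) / 2 ^ i) + (2 * C6 * (H * N)) / (i : ℝ) ^ 2 := by
    intro i hi
    rw [mem_Icc] at hi
    obtain ⟨Q, hQ⟩ : ∃ Q, Q = P.filter (fun p => Nat.log 2 p = i) := ⟨_, rfl⟩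
    rw [← hQ]
    have hi0r : (0 : ℝ) < i := by exact_mod_cast (by omega : 0 < i)
    have h2i : (2 : ℝ) ^ i ≤ x ^ (1 / 5 : ℝ) := (pow_le_pow_right₀ (by norm_num) hi.2).trans p4
    have h2iH : ((2 ^ i : ℕ) : ℝ) ≤ H := by push_cast; exact h2i.trans (p7.trans hHx)
    have h2iHn : 2 ^ i ≤ H := by exact_mod_cast h2iH
    have hQp : ∀ p ∈ Q, p.Prime ∧ 2 ^ i ≤ p ∧ p ≤ 2 * 2 ^ i := by
      intro p hp
      rw [hQ, mem_filter] at hp
      refine ⟨hPp p hp.1, ?_, ?_⟩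
      · rw [← hp.2]
        exact Nat.pow_log_le_self 2 (hPp p hp.1).ne_zero
      · rw [← pow_succ', ← hp.2]
        exact (Nat.lt_pow_succ_log_self (by norm_num) p).le
    have hc0 : (0 : ℝ) ≤ Q.card := Nat.cast_nonneg _
    by_cases hrich : (2 : ℝ) ^ i ≤ Q.card * (i : ℝ) ^ 2
    · -- a rich block
      have hJ1 : H < 2 ^ i * (H / 2 ^ i + 1) := Nat.lt_mul_div_succ _ (by positivity)
      have hJ2 : 2 ^ i * (H / 2 ^ i + 1) ≤ 2 * H := by
        have := Nat.mul_div_le H (2 ^ i)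
        rw [mul_add, mul_one]
        omega
      have hJ0 : J₀ ≤ H / 2 ^ i + 1 := by
        have g1 : (J₀ : ℝ) * 2 ^ i ≤ H := by
          calc (J₀ : ℝ) * 2 ^ i ≤ J₀ * x ^ (1 / 5 : ℝ) := mul_le_mul_of_nonneg_left h2i hJ0r
            _ ≤ x ^ (1 / 2 : ℝ) := p6
            _ ≤ H := hHx
        have g2 : J₀ * 2 ^ i ≤ H := by exact_mod_cast g1
        have g3 : J₀ ≤ H / 2 ^ i := (Nat.le_div_iff_mul_le (by positivity)).2 g2
        omega
      have hAx : A * x ^ f ≤ Q.card * H := by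
        -- `2 ^ i ≥ A i ^ 2 x ^ η`
        have g1 := hI₁ i (by omega)
        have g2 : x ^ (1 / (5 * (R : ℝ))) ≤ 2 * 2 ^ i :=
          p3.trans (mul_le_mul_of_nonneg_left (pow_le_pow_right₀ (by norm_num) hi.1) (by norm_num))
        have g3 : x ^ (1 / (5 * (R : ℝ))) = (x ^ (1 / (10 * (R : ℝ)))) ^ 2 := by
          rw [← Real.rpow_natCast, ← Real.rpow_mul hx0.le]
          congr 1
          push_cast
          field_simp
          norm_num
        obtain ⟨u, hu⟩ : ∃ u, u = x ^ (1 / (10 * (R : ℝ))) := ⟨_, rfl⟩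
        have hu0 : 0 < u := by rw [hu]; positivity
        rw [g3, ← hu] at g2
        have g4 : (A * (i : ℝ) ^ 2 * u) ^ 2 ≤ (2 ^ i) ^ 2 := by
          calc (A * (i : ℝ) ^ 2 * u) ^ 2 = (A * (i : ℝ) ^ 2) ^ 2 * u ^ 2 := by ring
            _ ≤ (A * (i : ℝ) ^ 2) ^ 2 * (2 * 2 ^ i) := mul_le_mul_of_nonneg_left g2 (by positivity)
            _ = (2 * (A * (i : ℝ) ^ 2) ^ 2) * 2 ^ i := by ring
            _ ≤ 2 ^ i * 2 ^ i := mul_le_mul_of_nonneg_right g1 (by positivity)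
            _ = _ := by ring
        have g5 : A * (i : ℝ) ^ 2 * u ≤ 2 ^ i := (abs_le_of_sq_le_sq' g4 (by positivity)).2
        have g6 : A * u ≤ Q.card := by
          have : (A * u) * (i : ℝ) ^ 2 ≤ Q.card * (i : ℝ) ^ 2 := by
            calc (A * u) * (i : ℝ) ^ 2 = A * (i : ℝ) ^ 2 * u := by ring
              _ ≤ _ := g5.trans hrich
          exact le_of_mul_le_mul_right this (by positivity)
        have g7 : x ^ f = u * x ^ ((f : ℝ) - 1 / (10 * (R : ℝ))) := by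
          rw [hu, ← Real.rpow_add hx0, ← Real.rpow_natCast]
          congr 1
          ring
        rw [g7]
        calc A * (u * x ^ ((f : ℝ) - 1 / (10 * (R : ℝ)))) = (A * u) * x ^ ((f : ℝ) - 1 / (10 * (R : ℝ))) := by ring
          _ ≤ Q.card * H := mul_le_mul g6 hH1 (by positivity) hc0
      have key := hblock N (by omega) H (2 ^ i) (H / 2 ^ i + 1) Q (Nat.one_le_two_pow) h2iHn (by rw [← hx]; exact hH2) hQp hJ1.le hJ2 hJ0
        (by rw [← hx]; exact hAx) s hs hsN c hc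
      refine key.trans ?_
      have e1 : ε / 6 * (Q.card * ((H : ℝ) / ((2 ^ i : ℕ) : ℝ) * N)) = ε / 6 * (H * N) * (Q.card / 2 ^ i) := by
        push_cast
        ring
      rw [e1]
      have : (0 : ℝ) ≤ 2 * C6 * (H * N) / (i : ℝ) ^ 2 := by positivity
      linarith
    · -- a poor block
      push Not at hrich
      have h1 : ∀ p ∈ Q, ∑ n ∈ Icc 1 N, LL s n * ‖Gz c H p n‖ ≤ (2 * ((H : ℝ) / 2 ^ i)) * (C6 * N) := by
        intro p hp
        obtain ⟨a1, a2, a3⟩ := hQp p hp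
        have h2 : ∀ n ∈ Icc 1 N, LL s (n : ℤ) * ‖Gz c H p n‖ ≤ (2 * ((H : ℝ) / 2 ^ i)) * LL s n := by
          intro n _
          rw [mul_comm]
          apply mul_le_mul_of_nonneg_right _ (LL_nonneg s _)
          have := Gz_norm2 c hc a1 (Nat.one_le_two_pow (n := i)) a2 h2iHn n
          push_cast at this
          exact this
        refine (sum_le_sum h2).trans ?_
        rw [← mul_sum]
        exact mul_le_mul_of_nonneg_left hLLN (by positivity)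
      refine (sum_le_sum h1).trans ?_
      rw [sum_const, nsmul_eq_mul]
      have h3 : (Q.card : ℝ) * (2 * ((H : ℝ) / 2 ^ i) * (C6 * N)) ≤ 2 * C6 * (H * N) / (i : ℝ) ^ 2 := by
        rw [le_div_iff₀ (by positivity)]
        have e1 : (Q.card : ℝ) * (2 * ((H : ℝ) / 2 ^ i) * (C6 * N)) * (i : ℝ) ^ 2 = (2 * C6 * (H * N)) * ((Q.card * (i : ℝ) ^ 2) / 2 ^ i) := by
          ring
        rw [e1]
        apply mul_le_of_le_one_right (by positivity)
        rw [div_le_one (by positivity)]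
        exact hrich.le
      have : (0 : ℝ) ≤ ε / 6 * (H * N) * (Q.card / 2 ^ i) := by positivity
      linarith
  have hall := blocks_sum P i0 i1 (by omega) (fun p hp => ⟨hPp p hp, hPlog p hp⟩) (fun p => ∑ n ∈ Icc 1 N, LL s n * ‖Gz c H p n‖)
    (ε / 6 * (H * N)) (2 * C6 * (H * N)) (by positivity) (by positivity) hbl
  rw [← hRPP] at hall
  -- the conclusion
  have hfin : RPP * ∑ n ∈ Icc 1 N, LL s n * ‖∑ h ∈ Icc 1 H, c h * lz ((n + h : ℕ) : ℤ)‖ ≤ RPP * (ε * (H * N)) := by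
    rw [mul_sum]
    refine (sum_le_sum hpt).trans ?_
    rw [sum_add_distrib, ← mul_sum, sum_comm]
    have hHN : (0 : ℝ) < H * N := by positivity
    have g1 : (H : ℝ) * √(2 * RPP) * ∑ n ∈ Icc 1 N, LL s n ≤ (ε / 3 * RPP) * (H * N) := by
      have g2 : √(2 * RPP) * C6 ≤ ε / 3 * RPP := by
        have g3 : (√(2 * RPP) * C6) ^ 2 ≤ (ε / 3 * RPP) ^ 2 := by
          rw [mul_pow, Real.sq_sqrt (by positivity)]
          have g4 : 18 * C6 ^ 2 / ε ^ 2 ≤ RPP := by linarith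
          rw [div_le_iff₀ (by positivity)] at g4
          have g5 := mul_le_mul_of_nonneg_left g4 (show 0 ≤ RPP / 9 by positivity)
          calc 2 * RPP * C6 ^ 2 = RPP / 9 * (18 * C6 ^ 2) := by ring
            _ ≤ RPP / 9 * (RPP * ε ^ 2) := g5
            _ = _ := by ring
        exact (abs_le_of_sq_le_sq' g3 (by positivity)).2
      calc (H : ℝ) * √(2 * RPP) * ∑ n ∈ Icc 1 N, LL s n ≤ H * √(2 * RPP) * (C6 * N) :=
            mul_le_mul_of_nonneg_left hLLN (by positivity)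
        _ = (√(2 * RPP) * C6) * (H * N) := by ring
        _ ≤ _ := mul_le_mul_of_nonneg_right g2 hHN.le
    have g2 : 2 * C6 * (H * N) / ((i0 : ℝ) - 1) ≤ (ε / 3 * RPP) * (H * N) := by
      have hI2 : (I₂ : ℝ) + 2 ≤ i0 := by exact_mod_cast (by omega : I₂ + 2 ≤ i0)
      have hpos : (0 : ℝ) < (i0 : ℝ) - 1 := by
        have : 0 ≤ 6 * C6 / ε := by positivity
        linarith
      rw [div_le_iff₀ hpos]
      have g3 : 6 * C6 ≤ ε * ((i0 : ℝ) - 1) := by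
        have : 6 * C6 / ε ≤ (i0 : ℝ) - 1 := by linarith
        rw [div_le_iff₀ hε] at this
        linarith
      calc 2 * C6 * (H * N) = (1 / 3) * (6 * C6) * (H * N) := by ring
        _ ≤ (1 / 3) * (ε * ((i0 : ℝ) - 1)) * (H * N) := by gcongr
        _ = (1 / 3) * (ε * ((i0 : ℝ) - 1)) * 1 * (H * N) := by ring
        _ ≤ (1 / 3) * (ε * ((i0 : ℝ) - 1)) * RPP * (H * N) := by gcongr
        _ = _ := by ring
    calc _ ≤ (ε / 3 * RPP) * (H * N) + (ε / 6 * (H * N) * (2 * RPP) + 2 * C6 * (H * N) / ((i0 : ℝ) - 1)) := add_le_add g1 hall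
      _ ≤ (ε / 3 * RPP) * (H * N) + (ε / 6 * (H * N) * (2 * RPP) + (ε / 3 * RPP) * (H * N)) := by linarith
      _ = _ := by ring
  exact le_of_mul_le_mul_left hfin (by linarith)

end Pool.Agent.E8helper16.SL
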