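import Mathlib
import Pool.Agent.H49.G.R_pool_sql_team_seeded_b677cdb8.E8helper16.SL.I1

set_option autoImplicit false

/-! The exceptional shifts: the theorem. -/

namespace Pool.Agent.E8helper16.SL
open Finset Filter Topology

lemma sep_of {f : ℕ} {a : Fin f → ℕ} (ha : Function.Injective a) {D : ℕ} (hD : ∀ i l, a i ≤ a l + D) (t : ℤ) :
    Sep (fun i => (a i : ℤ) + t) D := by
  intro i j hij
  simp only
  constructor
  · intro h
    apply hij
    apply ha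
    have : (a i : ℤ) = a j := by linarith
    exact_mod_cast this
  · have h1 := hD i j
    have h2 := hD j i
    rw [abs_le]
    constructor <;> omega

open Classical in
theorem window (f : ℕ) (hf : 1 ≤ f) (D : ℕ) (ε : ℝ) (hε : 0 < ε) : ∃ η : ℝ, 0 < η ∧ η ≤ 1 / 4 ∧ ∃ N₀ : ℕ, ∀ N : ℕ, N₀ ≤ N →
    ∀ H : ℕ, Real.log N ^ ((f : ℝ) - η) ≤ H → (H : ℝ) ≤ Real.log N ^ (f + 1) →
      ∀ a : Fin f → ℕ, Function.Injective a → (∀ i, a i ≤ N) → (∀ i l, a i ≤ a l + D) →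
      ∀ B : ℕ, B ≤ 2 * N → ∀ b : ℕ → ℂ, (∀ n, ‖b n‖ ≤ 1) →
      (((Icc 1 H).filter (fun h => ∃ X : ℕ, X ≤ N ∧ ε * N < ‖SX a b X (B + h)‖)).card : ℝ) ≤ ε * H := by
  obtain ⟨C6, hC6, hsum⟩ := LL_sum f hf D
  obtain ⟨m, hm⟩ := exists_nat_ge (4 * C6 / ε + 2)
  have hCε : 0 ≤ 4 * C6 / ε := by positivity
  have hm2 : 2 ≤ m := by
    have : (2 : ℝ) ≤ m := by linarith
    exact_mod_cast this
  have hm0 : (0 : ℝ) < m := by exact_mod_cast (by omega : 0 < m)
  obtain ⟨N₁, hsum⟩ := hsum (1 / m) (by positivity)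
  obtain ⟨η, hη0, hη2, N₂, hcore⟩ := core f hf D (ε ^ 2 / (6 * m)) (by positivity)
  have hlp := (log_tendsto.eventually_ge_atTop ((2 : ℝ) ^ ((f : ℝ) * (2 / η)) + 1))
  obtain ⟨N₃, hN₃⟩ := eventually_atTop.1 hlp
  refine ⟨η / 2, by positivity, by linarith, N₁ + N₂ + N₃ + m + 3, fun N hN H hH1 hH2 a ha haN haD B hB b hb => ?_⟩
  have hN3 : 3 ≤ N := by omega
  have hN3r : (3 : ℝ) ≤ N := by exact_mod_cast hN3
  have hN0 : (0 : ℝ) < N := by linarith
  have hL := hN₃ N (by omega)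
  obtain ⟨x, hx⟩ : ∃ x, x = Real.log N := ⟨_, rfl⟩
  rw [← hx] at hL hH1 hH2
  have hp2 : (0 : ℝ) < (2 : ℝ) ^ ((f : ℝ) * (2 / η)) := by positivity
  have hx1 : 1 ≤ x := by linarith
  have hx0 : 0 < x := by linarith
  have hf1 : (1 : ℝ) ≤ f := by exact_mod_cast hf
  have hlog3 : Real.log ((3 * N : ℕ) : ℝ) ≤ 2 * x := by
    have h1 : Real.log ((3 * N : ℕ) : ℝ) ≤ Real.log ((N : ℝ) ^ 2) := by
      apply Real.log_le_log
      · push_cast; linarith
      · push_cast; nlinarith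
    rw [Real.log_pow, ← hx] at h1
    exact_mod_cast h1
  have hlog3' : x ≤ Real.log ((3 * N : ℕ) : ℝ) := by
    rw [hx]
    apply Real.log_le_log hN0
    push_cast
    linarith
  -- the size of the window
  have hHlow : Real.log ((3 * N : ℕ) : ℝ) ^ ((f : ℝ) - η) ≤ H := by
    have g1 : Real.log ((3 * N : ℕ) : ℝ) ^ ((f : ℝ) - η) ≤ (2 * x) ^ ((f : ℝ) - η) :=
      Real.rpow_le_rpow (by linarith) hlog3 (by linarith)
    have g2 : (2 : ℝ) ^ ((f : ℝ) - η) ≤ x ^ (η / 2) := by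
      calc (2 : ℝ) ^ ((f : ℝ) - η) ≤ (2 : ℝ) ^ (f : ℝ) := Real.rpow_le_rpow_of_exponent_le (by norm_num) (by linarith)
        _ = ((2 : ℝ) ^ ((f : ℝ) * (2 / η))) ^ (η / 2) := by
            rw [← Real.rpow_mul (by norm_num)]
            congr 1
            field_simp
        _ ≤ x ^ (η / 2) := Real.rpow_le_rpow hp2.le (by linarith) (by positivity)
    calc _ ≤ _ := g1
      _ = (2 : ℝ) ^ ((f : ℝ) - η) * x ^ ((f : ℝ) - η) := Real.mul_rpow (by norm_num) hx0.le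
      _ ≤ x ^ (η / 2) * x ^ ((f : ℝ) - η) := mul_le_mul_of_nonneg_right g2 (by positivity)
      _ = x ^ ((f : ℝ) - η / 2) := by rw [← Real.rpow_add hx0]; congr 1; ring
      _ ≤ H := hH1
  have hHup : (H : ℝ) ≤ Real.log ((3 * N : ℕ) : ℝ) ^ (f + 1) := hH2.trans (pow_le_pow_left₀ hx0.le hlog3' _)
  -- the grid
  obtain ⟨Y, hY⟩ : ∃ Y, Y = N / m + 1 := ⟨_, rfl⟩
  have hY1 : N < m * Y := by rw [hY]; exact Nat.lt_mul_div_succ _ (by omega)
  have hY2 : Y ≤ N := by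
    have : N / m ≤ N / 2 := Nat.div_le_div_left hm2 (by norm_num)
    omega
  have hY3 : m * Y ≤ 2 * N := by
    have := Nat.mul_div_le N m
    have : m * Y = m * (N / m) + m := by rw [hY]; ring
    omega
  have hYlow : 1 / (m : ℝ) * N ≤ Y := by
    rw [one_div, inv_mul_le_iff₀ hm0]
    exact_mod_cast hY1.le
  have hYC : C6 * Y ≤ ε / 2 * N := by
    have g1 : (m : ℝ) * Y ≤ 2 * N := by exact_mod_cast hY3
    have g2 : 4 * C6 ≤ ε * m := by
      have : 4 * C6 / ε ≤ m := by linarith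
      rw [div_le_iff₀ hε] at this
      linarith
    have g3 : 4 * C6 * Y ≤ ε * m * Y := mul_le_mul_of_nonneg_right g2 (Nat.cast_nonneg _)
    nlinarith
  have hY0 : 0 < Y := by rw [hY]; exact Nat.succ_pos _
  -- the exceptional set
  have hsub : (Icc 1 H).filter (fun h => ∃ X : ℕ, X ≤ N ∧ ε * N < ‖SX a b X (B + h)‖) ⊆
      (range m).biUnion (fun k => if Y * k ≤ N then (Icc 1 H).filter (fun h => ε / 2 * N < ‖SX a b (Y * k) (B + h)‖) else ∅) := by
    intro h hh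
    rw [mem_filter] at hh
    obtain ⟨hh1, X, hX, hlt⟩ := hh
    rw [mem_biUnion]
    have hk1 : Y * (X / Y) ≤ X := Nat.mul_div_le _ _
    have hk2 : X < Y * (X / Y + 1) := Nat.lt_mul_div_succ _ hY0
    refine ⟨X / Y, ?_, ?_⟩
    · rw [mem_range, Nat.div_lt_iff_lt_mul hY0]
      omega
    · rw [if_pos (hk1.trans hX), mem_filter]
      refine ⟨hh1, ?_⟩
      have d1 := SX_diff a b hb X (Y * (X / Y)) Y (B + h) hk1 (by rw [mul_add, mul_one] at hk2; omega)
      have d2 := hsum N (by omega) Y hYlow hY2 (fun i => (a i : ℤ) + ((Y * (X / Y) : ℕ) : ℤ)) (sep_of ha haD _) (by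
        intro i
        have q1 : (0 : ℤ) ≤ (a i : ℤ) + ((Y * (X / Y) : ℕ) : ℤ) := by positivity
        rw [abs_of_nonneg q1]
        have q2 := haN i
        have q3 : Y * (X / Y) ≤ N := hk1.trans hX
        have q4 : a i + Y * (X / Y) ≤ 2 * N := by omega
        exact_mod_cast q4)
      linarith
  have hcard : ∀ k ∈ range m, (((if Y * k ≤ N then (Icc 1 H).filter (fun h => ε / 2 * N < ‖SX a b (Y * k) (B + h)‖) else ∅ : Finset ℕ).card : ℕ) : ℝ) ≤
      ε / m * H := by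
    intro k _
    split_ifs with hk
    · have key := exc_X a b hb B (Y * k) (3 * N) H (by omega) (ε ^ 2 / (6 * m) * (H * (3 * N : ℕ))) (by
        intro c hc
        refine hcore (3 * N) (by omega) H hHlow hHup (fun i => (a i : ℤ) - B) ?_ ?_ c hc
        · have := sep_of ha haD (-(B : ℤ))
          simpa only [← sub_eq_add_neg] using this
        · intro i
          have := haN i
          rw [abs_le]
          constructor <;> push_cast <;> omega) (ε / 2 * N)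
      push_cast at key
      have hεN : 0 < ε / 2 * N := by positivity
      have e1 : ε ^ 2 / (6 * m) * (H * (3 * (N : ℝ))) = (ε / m * H) * (ε / 2 * N) := by
        field_simp
        ring
      rw [e1] at key
      exact le_of_mul_le_mul_right key hεN
    · simp only [card_empty, Nat.cast_zero]
      positivity
  have h1 := card_le_card hsub
  have h2 : (((Icc 1 H).filter (fun h => ∃ X : ℕ, X ≤ N ∧ ε * N < ‖SX a b X (B + h)‖)).card : ℝ) ≤
      ∑ k ∈ range m, (((if Y * k ≤ N then (Icc 1 H).filter (fun h => ε / 2 * N < ‖SX a b (Y * k) (B + h)‖) else ∅ : Finset ℕ).card : ℕ) : ℝ) := by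
    exact_mod_cast h1.trans card_biUnion_le
  refine h2.trans ((sum_le_sum hcard).trans (le_of_eq ?_))
  rw [sum_const, card_range, nsmul_eq_mul]
  field_simp

open Classical in
theorem final (f : ℕ) (hf : 1 ≤ f) (D : ℕ) (ε : ℝ) (hε : 0 < ε) : ∃ η : ℝ, 0 < η ∧ ∃ N₀ : ℕ, ∀ N : ℕ, N₀ ≤ N →
    ∀ H : ℕ, Real.log N ^ ((f : ℝ) - η) ≤ H → H ≤ N →
      ∀ a : Fin f → ℕ, Function.Injective a → (∀ i, a i ≤ N) → (∀ i l, a i ≤ a l + D) →
      ∀ B : ℕ, B ≤ N → ∀ b : ℕ → ℂ, (∀ n, ‖b n‖ ≤ 1) →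
      (((Icc 1 H).filter (fun h => ∃ X : ℕ, X ≤ N ∧ ε * N < ‖SX a b X (B + h)‖)).card : ℝ) ≤ ε * H := by
  obtain ⟨ε', hε'⟩ : ∃ ε', ε' = ε / 2 := ⟨_, rfl⟩
  have hε'0 : 0 < ε' := by rw [hε']; positivity
  obtain ⟨η, hη0, hη4, N₁, hw⟩ := window f hf D ε' hε'0
  obtain ⟨N₂, hN₂⟩ := eventually_atTop.1 (log_tendsto.eventually_ge_atTop 2)
  refine ⟨η, hη0, N₁ + N₂ + 1, fun N hN H hH1 hH2 a ha haN haD B hB b hb => ?_⟩
  have hx2 := hN₂ N (by omega)
  obtain ⟨x, hx⟩ : ∃ x, x = Real.log N := ⟨_, rfl⟩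
  rw [← hx] at hx2 hH1
  have hx0 : 0 < x := by linarith
  have hf1 : (1 : ℝ) ≤ f := by exact_mod_cast hf
  have hN0 : (0 : ℝ) < N := by exact_mod_cast (by omega : 0 < N)
  obtain ⟨G, hG⟩ : ∃ G, G = ⌈x ^ ((f : ℝ) - η)⌉₊ := ⟨_, rfl⟩
  have hG1 : x ^ ((f : ℝ) - η) ≤ G := by rw [hG]; exact Nat.le_ceil _
  have hGH : G ≤ H := by rw [hG]; exact Nat.ceil_le.2 hH1
  have hxp : 0 < x ^ ((f : ℝ) - η) := by positivity
  have hG0 : 0 < G := by rw [hG]; exact Nat.ceil_pos.2 hxp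
  have hG2 : (G : ℝ) ≤ x ^ (f + 1) := by
    have g1 : (G : ℝ) ≤ x ^ ((f : ℝ) - η) + 1 := by rw [hG]; exact (Nat.ceil_lt_add_one hxp.le).le
    have g2 : x ^ ((f : ℝ) - η) ≤ x ^ f := by
      rw [← Real.rpow_natCast]
      exact Real.rpow_le_rpow_of_exponent_le (by linarith) (by linarith)
    have g3 : 1 ≤ x ^ f := one_le_pow₀ (by linarith)
    rw [pow_succ]
    nlinarith
  -- the windows
  have hsub : (Icc 1 H).filter (fun h => ∃ X : ℕ, X ≤ N ∧ ε * N < ‖SX a b X (B + h)‖) ⊆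
      (range (H / G + 1)).biUnion (fun j => if G * j ≤ H then ((Icc 1 G).filter (fun h => ∃ X : ℕ, X ≤ N ∧ ε' * N < ‖SX a b X ((B + G * j) + h)‖)).image (fun h => G * j + h) else ∅) := by
    intro h hh
    rw [mem_filter, mem_Icc] at hh
    obtain ⟨⟨hh1, hh2⟩, X, hX, hlt⟩ := hh
    rw [mem_biUnion]
    have hj1 : G * ((h - 1) / G) ≤ h - 1 := Nat.mul_div_le _ _
    have hj2 : h - 1 < G * ((h - 1) / G + 1) := Nat.lt_mul_div_succ _ hG0
    rw [mul_add, mul_one] at hj2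
    refine ⟨(h - 1) / G, ?_, ?_⟩
    · rw [mem_range, Nat.lt_succ_iff]
      exact Nat.div_le_div_right (by omega)
    · rw [if_pos (by omega), mem_image]
      refine ⟨h - G * ((h - 1) / G), ?_, by omega⟩
      rw [mem_filter, mem_Icc]
      refine ⟨⟨by omega, by omega⟩, X, hX, ?_⟩
      have e : B + G * ((h - 1) / G) + (h - G * ((h - 1) / G)) = B + h := by omega
      rw [e]
      have : ε' * N ≤ ε * N := by
        rw [hε']
        have : 0 < ε * N := by positivity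
        linarith
      linarith
  have hcard : ∀ j ∈ range (H / G + 1), (((if G * j ≤ H then ((Icc 1 G).filter (fun h => ∃ X : ℕ, X ≤ N ∧ ε' * N < ‖SX a b X ((B + G * j) + h)‖)).image (fun h => G * j + h) else ∅ : Finset ℕ).card : ℕ) : ℝ) ≤
      ε' * G := by
    intro j _
    split_ifs with hj
    · refine le_trans ?_ (hw N (by omega) G (by rw [← hx]; exact hG1) (by rw [← hx]; exact hG2) a ha haN haD (B + G * j) (by omega) b hb)
      exact_mod_cast card_image_le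
    · simp only [card_empty, Nat.cast_zero]
      positivity
  have h1 := card_le_card hsub
  have h2 : (((Icc 1 H).filter (fun h => ∃ X : ℕ, X ≤ N ∧ ε * N < ‖SX a b X (B + h)‖)).card : ℝ) ≤
      ∑ j ∈ range (H / G + 1), (((if G * j ≤ H then ((Icc 1 G).filter (fun h => ∃ X : ℕ, X ≤ N ∧ ε' * N < ‖SX a b X ((B + G * j) + h)‖)).image (fun h => G * j + h) else ∅ : Finset ℕ).card : ℕ) : ℝ) := by
    exact_mod_cast h1.trans card_biUnion_le
  refine h2.trans ((sum_le_sum hcard).trans ?_)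
  rw [sum_const, card_range, nsmul_eq_mul]
  have h3 : ((H / G + 1 : ℕ) : ℝ) * G ≤ 2 * H := by
    have g1 : (H / G + 1) * G ≤ 2 * H := by
      have := Nat.div_mul_le_self H G
      rw [add_mul, one_mul]
      omega
    exact_mod_cast g1
  calc ((H / G + 1 : ℕ) : ℝ) * (ε' * G) = ε' * (((H / G + 1 : ℕ) : ℝ) * G) := by ring
    _ ≤ ε' * (2 * H) := mul_le_mul_of_nonneg_left h3 hε'0.le
    _ = ε * H := by rw [hε']; ring

end Pool.Agent.E8helper16.SL
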