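import Mathlib
import Pool.Agent.H49.G.R_pool_sql_team_seeded_b677cdb8.E8helper16.SL.I2

set_option autoImplicit false

/-! The `L¹` form for all the lengths. -/

namespace Pool.Agent.E8helper16.SL
open Finset Filter Topology

lemma split_windows (H G : ℕ) (hG : 0 < G) (F : ℕ → ℂ) :
    ∑ h ∈ Icc 1 H, F h = ∑ j ∈ range (H / G + 1), ∑ h ∈ Icc 1 G, if G * j + h ≤ H then F (G * j + h) else 0 := by
  classical
  have h1 : ∑ j ∈ range (H / G + 1), ∑ h ∈ Icc 1 G, (if G * j + h ≤ H then F (G * j + h) else 0) =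
      ∑ r ∈ (range (H / G + 1)) ×ˢ (Icc 1 G), (if G * r.1 + r.2 ≤ H then F (G * r.1 + r.2) else 0) := by
    rw [sum_product]
  rw [h1, ← sum_filter]
  symm
  apply sum_bij' (fun r _ => G * r.1 + r.2) (fun h _ => ((h - 1) / G, h - G * ((h - 1) / G)))
  · intro r hr
    rw [mem_filter, mem_product, mem_Icc] at hr
    rw [mem_Icc]
    omega
  · intro h hh
    rw [mem_Icc] at hh
    have hj1 : G * ((h - 1) / G) ≤ h - 1 := Nat.mul_div_le _ _
    have hj2 : h - 1 < G * ((h - 1) / G + 1) := Nat.lt_mul_div_succ _ hG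
    rw [mul_add, mul_one] at hj2
    rw [mem_filter, mem_product, mem_range, mem_Icc, Nat.lt_succ_iff]
    refine ⟨⟨Nat.div_le_div_right (by omega), by omega, by omega⟩, ?_⟩
    simp only
    omega
  · rintro ⟨j, h⟩ hr
    rw [mem_filter, mem_product, mem_Icc] at hr
    simp only at hr ⊢
    have e : (G * j + h - 1) / G = j := by
      rw [Nat.div_eq_iff hG]
      constructor <;> [rw [mul_comm]; rw [mul_comm j G]] <;> omega
    rw [e]
    simp
  · intro h hh
    rw [mem_Icc] at hh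
    have hj1 : G * ((h - 1) / G) ≤ h - 1 := Nat.mul_div_le _ _
    simp only
    omega
  · intro r _
    rfl

theorem finalL1 (f : ℕ) (hf : 1 ≤ f) (D : ℕ) (ε : ℝ) (hε : 0 < ε) : ∃ η : ℝ, 0 < η ∧ ∃ N₀ : ℕ, ∀ N : ℕ, N₀ ≤ N →
    ∀ H : ℕ, Real.log N ^ ((f : ℝ) - η) ≤ H → H ≤ N →
      ∀ a : Fin f → ℕ, Function.Injective a → (∀ i, a i ≤ N) → (∀ i l, a i ≤ a l + D) →
      ∀ B : ℕ, B ≤ N → ∀ c : ℕ → ℂ, (∀ h, ‖c h‖ ≤ 1) →
      ∑ n ∈ Icc 1 N, (∏ i, ArithmeticFunction.vonMangoldt (n + a i)) * ‖∑ h ∈ Icc 1 H, c h * lz ((n + (B + h) : ℕ) : ℤ)‖ ≤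
        ε * H * N := by
  obtain ⟨η, hη0, hη2, N₁, hcore⟩ := core f hf D (ε / 6) (by positivity)
  obtain ⟨N₃, hN₃⟩ := eventually_atTop.1 (log_tendsto.eventually_ge_atTop ((2 : ℝ) ^ ((f : ℝ) * (2 / η)) + 2))
  refine ⟨η / 2, by positivity, N₁ + N₃ + 3, fun N hN H hH1 hH2 a ha haN haD B hB c hc => ?_⟩
  have hN3r : (3 : ℝ) ≤ N := by exact_mod_cast (by omega : 3 ≤ N)
  have hN0 : (0 : ℝ) < N := by linarith
  have hL := hN₃ N (by omega)
  obtain ⟨x, hx⟩ : ∃ x, x = Real.log N := ⟨_, rfl⟩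
  rw [← hx] at hL hH1
  have hp2 : (0 : ℝ) < (2 : ℝ) ^ ((f : ℝ) * (2 / η)) := by positivity
  have hx2 : 2 ≤ x := by linarith
  have hx0 : 0 < x := by linarith
  have hf1 : (1 : ℝ) ≤ f := by exact_mod_cast hf
  have hlog3 : Real.log ((3 * N : ℕ) : ℝ) ≤ 2 * x := by
    have h1 : Real.log ((3 * N : ℕ) : ℝ) ≤ Real.log ((N : ℝ) ^ 2) := by
      apply Real.log_le_log
      · push_cast; linarith
      · push_cast; nlinarith
    rw [Real.log_pow, ← hx] at h1
    exact_mod_cast h1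
  have hlog3' : x ≤ Real.log ((3 * N : ℕ) : ℝ) := by
    rw [hx]
    apply Real.log_le_log hN0
    push_cast
    linarith
  obtain ⟨G, hG⟩ : ∃ G, G = ⌈x ^ ((f : ℝ) - η / 2)⌉₊ := ⟨_, rfl⟩
  have hG1 : x ^ ((f : ℝ) - η / 2) ≤ G := by rw [hG]; exact Nat.le_ceil _
  have hGH : G ≤ H := by rw [hG]; exact Nat.ceil_le.2 hH1
  have hxp : 0 < x ^ ((f : ℝ) - η / 2) := by positivity
  have hG0 : 0 < G := by rw [hG]; exact Nat.ceil_pos.2 hxp
  have hG2 : (G : ℝ) ≤ x ^ (f + 1) := by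
    have g1 : (G : ℝ) ≤ x ^ ((f : ℝ) - η / 2) + 1 := by rw [hG]; exact (Nat.ceil_lt_add_one hxp.le).le
    have g2 : x ^ ((f : ℝ) - η / 2) ≤ x ^ f := by
      rw [← Real.rpow_natCast]
      exact Real.rpow_le_rpow_of_exponent_le (by linarith) (by linarith)
    have g3 : 1 ≤ x ^ f := one_le_pow₀ (by linarith)
    rw [pow_succ]
    nlinarith
  have hHlow : Real.log ((3 * N : ℕ) : ℝ) ^ ((f : ℝ) - η) ≤ G := by
    have g1 : Real.log ((3 * N : ℕ) : ℝ) ^ ((f : ℝ) - η) ≤ (2 * x) ^ ((f : ℝ) - η) :=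
      Real.rpow_le_rpow (by linarith) hlog3 (by linarith)
    have g2 : (2 : ℝ) ^ ((f : ℝ) - η) ≤ x ^ (η / 2) := by
      calc (2 : ℝ) ^ ((f : ℝ) - η) ≤ (2 : ℝ) ^ (f : ℝ) := Real.rpow_le_rpow_of_exponent_le (by norm_num) (by linarith)
        _ = ((2 : ℝ) ^ ((f : ℝ) * (2 / η))) ^ (η / 2) := by
            rw [← Real.rpow_mul (by norm_num)]
            congr 1
            field_simp
        _ ≤ x ^ (η / 2) := Real.rpow_le_rpow hp2.le (by linarith) (by positivity)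
    calc _ ≤ _ := g1
      _ = (2 : ℝ) ^ ((f : ℝ) - η) * x ^ ((f : ℝ) - η) := Real.mul_rpow (by norm_num) hx0.le
      _ ≤ x ^ (η / 2) * x ^ ((f : ℝ) - η) := mul_le_mul_of_nonneg_right g2 (by positivity)
      _ = x ^ ((f : ℝ) - η / 2) := by rw [← Real.rpow_add hx0]; congr 1; ring
      _ ≤ G := hG1
  have hHup : (G : ℝ) ≤ Real.log ((3 * N : ℕ) : ℝ) ^ (f + 1) := hG2.trans (pow_le_pow_left₀ hx0.le hlog3' _)
  have hL0 : ∀ n : ℕ, 0 ≤ ∏ i, ArithmeticFunction.vonMangoldt (n + a i) := fun n =>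
    prod_nonneg fun i _ => ArithmeticFunction.vonMangoldt_nonneg
  -- the windows
  have h1 : ∀ n ∈ Icc 1 N, (∏ i, ArithmeticFunction.vonMangoldt (n + a i)) * ‖∑ h ∈ Icc 1 H, c h * lz ((n + (B + h) : ℕ) : ℤ)‖ ≤
      ∑ j ∈ range (H / G + 1), (if G * j ≤ H then (∏ i, ArithmeticFunction.vonMangoldt (n + a i)) *
        ‖∑ h ∈ Icc 1 G, (if G * j + h ≤ H then c (G * j + h) else 0) * lz ((n + (B + G * j) + h : ℕ) : ℤ)‖ else 0) := by
    intro n _
    rw [split_windows H G hG0]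
    have h2 : ∀ j ∈ range (H / G + 1), (if G * j ≤ H then (∏ i, ArithmeticFunction.vonMangoldt (n + a i)) *
        ‖∑ h ∈ Icc 1 G, (if G * j + h ≤ H then c (G * j + h) else 0) * lz ((n + (B + G * j) + h : ℕ) : ℤ)‖ else 0) =
        (∏ i, ArithmeticFunction.vonMangoldt (n + a i)) *
        ‖∑ h ∈ Icc 1 G, (if G * j + h ≤ H then c (G * j + h) * lz ((n + (B + (G * j + h)) : ℕ) : ℤ) else 0)‖ := by
      intro j _
      have e : ∑ h ∈ Icc 1 G, (if G * j + h ≤ H then c (G * j + h) * lz ((n + (B + (G * j + h)) : ℕ) : ℤ) else 0) =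
          ∑ h ∈ Icc 1 G, (if G * j + h ≤ H then c (G * j + h) else 0) * lz ((n + (B + G * j) + h : ℕ) : ℤ) := by
        apply sum_congr rfl
        intro h _
        split_ifs
        · congr 3
          ring
        · rw [zero_mul]
      rw [e]
      split_ifs with hj
      · rfl
      · have e2 : ∑ h ∈ Icc 1 G, (if G * j + h ≤ H then c (G * j + h) else 0) * lz ((n + (B + G * j) + h : ℕ) : ℤ) = 0 := by
          apply sum_eq_zero
          intro h _
          rw [if_neg (by omega), zero_mul]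
        rw [e2, norm_zero, mul_zero]
    rw [sum_congr rfl h2, ← mul_sum]
    exact mul_le_mul_of_nonneg_left (norm_sum_le _ _) (hL0 n)
  refine (sum_le_sum h1).trans ?_
  rw [sum_comm]
  have h3 : ∀ j ∈ range (H / G + 1), ∑ n ∈ Icc 1 N, (if G * j ≤ H then (∏ i, ArithmeticFunction.vonMangoldt (n + a i)) *
        ‖∑ h ∈ Icc 1 G, (if G * j + h ≤ H then c (G * j + h) else 0) * lz ((n + (B + G * j) + h : ℕ) : ℤ)‖ else 0) ≤ ε / 6 * (G * (3 * N : ℕ)) := by
    intro j _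
    by_cases hj : G * j ≤ H
    · have e1 : ∀ n ∈ Icc 1 N, (if G * j ≤ H then (∏ i, ArithmeticFunction.vonMangoldt (n + a i)) *
        ‖∑ h ∈ Icc 1 G, (if G * j + h ≤ H then c (G * j + h) else 0) * lz ((n + (B + G * j) + h : ℕ) : ℤ)‖ else 0) =
          LL (fun i => (a i : ℤ) - ((B + G * j : ℕ) : ℤ)) ((n + (B + G * j) : ℕ) : ℤ) *
        ‖∑ h ∈ Icc 1 G, (if G * j + h ≤ H then c (G * j + h) else 0) * lz ((n + (B + G * j) + h : ℕ) : ℤ)‖ := by
        intro n _
        rw [if_pos hj, LL_nat]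
      rw [sum_congr rfl e1]
      have e2 := hcore (3 * N) (by omega) G hHlow hHup (fun i => (a i : ℤ) - ((B + G * j : ℕ) : ℤ)) (by
          have := sep_of ha haD (-((B + G * j : ℕ) : ℤ))
          simpa only [← sub_eq_add_neg] using this) (by
          intro i
          have := haN i
          have : B + G * j ≤ 2 * N := by omega
          have : ((B + G * j : ℕ) : ℤ) ≤ 2 * N := by exact_mod_cast this
          rw [abs_le]
          constructor <;> push_cast at * <;> omega) (fun h => if G * j + h ≤ H then c (G * j + h) else 0) (by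
          intro h
          split_ifs
          · exact hc _
          · simp)
      refine le_trans ?_ e2
      have e3 : ∑ n ∈ Icc 1 N, LL (fun i => (a i : ℤ) - ((B + G * j : ℕ) : ℤ)) ((n + (B + G * j) : ℕ) : ℤ) *
        ‖∑ h ∈ Icc 1 G, (if G * j + h ≤ H then c (G * j + h) else 0) * lz ((n + (B + G * j) + h : ℕ) : ℤ)‖ =
        ∑ n ∈ (Icc 1 N).image (fun n => n + (B + G * j)), LL (fun i => (a i : ℤ) - ((B + G * j : ℕ) : ℤ)) (n : ℤ) *
        ‖∑ h ∈ Icc 1 G, (if G * j + h ≤ H then c (G * j + h) else 0) * lz ((n + h : ℕ) : ℤ)‖ := by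
        rw [sum_image (fun x _ y _ h => by simpa using h)]
      rw [e3]
      apply sum_le_sum_of_subset_of_nonneg
      · intro n hn
        rw [mem_image] at hn
        obtain ⟨m, hm, rfl⟩ := hn
        rw [mem_Icc] at hm ⊢
        omega
      · intro n _ _
        exact mul_nonneg (LL_nonneg _ _) (norm_nonneg _)
    · simp only [if_neg hj, sum_const_zero]
      positivity
  refine (sum_le_sum h3).trans ?_
  rw [sum_const, card_range, nsmul_eq_mul]
  have h4 : ((H / G + 1 : ℕ) : ℝ) * G ≤ 2 * H := by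
    have g1 : (H / G + 1) * G ≤ 2 * H := by
      have := Nat.div_mul_le_self H G
      rw [add_mul, one_mul]
      omega
    exact_mod_cast g1
  push_cast
  push_cast at h4
  calc (((H / G : ℕ) : ℝ) + 1) * (ε / 6 * (G * (3 * N))) = ε / 2 * N * ((((H / G : ℕ) : ℝ) + 1) * G) := by ring
    _ ≤ ε / 2 * N * (2 * H) := mul_le_mul_of_nonneg_left h4 (by positivity)
    _ = ε * H * N := by ring

end Pool.Agent.E8helper16.SL
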