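import Mathlib
import Pool.Agent.H49.G.R_pool_sql_team_seeded_b677cdb8.E8helper16.SL.I3

set_option autoImplicit false

/-! The sum over the shifts. -/

namespace Pool.Agent.E8helper16.SL
open Finset Filter Topology

theorem finalSum (f : ℕ) (hf : 1 ≤ f) (D : ℕ) (ε : ℝ) (hε : 0 < ε) : ∃ η : ℝ, 0 < η ∧ ∃ N₀ : ℕ, ∀ N : ℕ, N₀ ≤ N →
    ∀ H : ℕ, Real.log N ^ ((f : ℝ) - η) ≤ H → H ≤ N →
      ∀ a : Fin f → ℕ, Function.Injective a → (∀ i, a i ≤ N) → (∀ i l, a i ≤ a l + D) →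
      ∀ B : ℕ, B ≤ N → ∀ b : ℕ → ℂ, (∀ n, ‖b n‖ ≤ 1) → ∀ X : ℕ → ℕ, (∀ h, X h ≤ N) →
      ∑ h ∈ Icc 1 H, ‖SX a b (X h) (B + h)‖ ≤ ε * H * N := by
  classical
  obtain ⟨C6, hC6, hsum⟩ := LL_sum f hf D
  obtain ⟨N₁, hsum⟩ := hsum 1 one_pos
  obtain ⟨δ, hδ⟩ : ∃ δ, δ = ε / (2 * C6) := ⟨_, rfl⟩
  have hδ0 : 0 < δ := by rw [hδ]; positivity
  have hδ1 : C6 * δ = ε / 2 := by rw [hδ]; field_simp
  have hδ2 : δ ≤ ε / 2 := by
    have : 1 * δ ≤ C6 * δ := mul_le_mul_of_nonneg_right hC6 hδ0.le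
    linarith
  obtain ⟨η, hη0, N₂, hfin⟩ := final f hf D δ hδ0
  refine ⟨η, hη0, N₁ + N₂ + 1, fun N hN H hH1 hH2 a ha haN haD B hB b hb X hX => ?_⟩
  have hN0 : (0 : ℝ) < N := by exact_mod_cast (by omega : 0 < N)
  have hH0 : (0 : ℝ) ≤ H := Nat.cast_nonneg _
  have h1 := hfin N (by omega) H hH1 hH2 a ha haN haD B hB b hb
  -- the trivial bound
  have htriv : ∀ t Y : ℕ, Y ≤ N → ‖SX a b Y t‖ ≤ C6 * N := by
    intro t Y hY
    have d1 := SX_diff a b hb Y 0 N t (Nat.zero_le _) (by omega)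
    have d2 := hsum N (by omega) N (by rw [one_mul]) le_rfl (fun i => (a i : ℤ) + ((0 : ℕ) : ℤ)) (sep_of ha haD _) (by
      intro i
      have q1 : (0 : ℤ) ≤ (a i : ℤ) + ((0 : ℕ) : ℤ) := by positivity
      rw [abs_of_nonneg q1]
      have q2 := haN i
      push_cast
      omega)
    have d3 : SX a b 0 t = 0 := by
      unfold SX
      simp
    rw [d3, norm_zero, zero_add] at d1
    exact d1.trans d2
  have h2 : ∀ h ∈ Icc 1 H, ‖SX a b (X h) (B + h)‖ ≤ δ * N +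
      (if ∃ X : ℕ, X ≤ N ∧ δ * N < ‖SX a b X (B + h)‖ then C6 * N else 0) := by
    intro h _
    split_ifs with hc
    · have := htriv (B + h) (X h) (hX h)
      have : 0 ≤ δ * N := by positivity
      linarith
    · push Not at hc
      have := hc (X h) (hX h)
      linarith
  refine (sum_le_sum h2).trans ?_
  rw [sum_add_distrib, ← sum_filter, sum_const, sum_const, Nat.card_Icc, Nat.add_sub_cancel, nsmul_eq_mul, nsmul_eq_mul]
  calc (H : ℝ) * (δ * N) + (((Icc 1 H).filter (fun h => ∃ X : ℕ, X ≤ N ∧ δ * N < ‖SX a b X (B + h)‖)).card : ℝ) * (C6 * N) ≤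
        H * (ε / 2 * N) + (δ * H) * (C6 * N) := by
        apply add_le_add
        · apply mul_le_mul_of_nonneg_left _ hH0
          exact mul_le_mul_of_nonneg_right hδ2 hN0.le
        · exact mul_le_mul_of_nonneg_right h1 (by positivity)
    _ = H * (ε / 2 * N) + (C6 * δ) * (H * N) := by ring
    _ = ε * H * N := by rw [hδ1]; ring

end Pool.Agent.E8helper16.SL
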